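import Mathlib
import Pool.Agent.H40.W.FinPV
import Pool.Agent.H95.W.BdV
import Pool.Agent.H20.Q1.BDe
import Pool.Agent.H20.Sp.BdW

set_option autoImplicit false
open Finset

/-!
# The uniform bound for complex weights near one, for every class with the inputs `InpV`

`deep_all` : if one deep position of a wall is tied by the wall, then all deep positions are. `wall_runs` : the
deep positions of a wall are runs. `runsK_V` : the ties of a family lie on few runs. `InpVP` : the inputs of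
`fineVP_of` for a class. `BdVP` : the uniform bound for a class. `bdVP_of` : `InpVP P` implies `BdVP P`; no
geometry is used besides the walls, for instance for the crossed wall.
-/

namespace Pool.Agent.H60.W.BI

open Pool.Agent.H75.Perc Pool.Agent.H69.Q1
open Pool.Agent.H99.NC Pool.Agent.H60.Q1 Pool.Agent.Q1
open Pool.Agent.H39.Q1 Pool.Agent.H20.Q1
open Pool.Agent.H44.FM.AsmW (TW mem_TW)
open Pool.Agent.H59.W (FWw)
open Pool.Agent.H15.W
open Pool.Agent.H40.W (InpV fineVP_of)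
open Pool.Agent.H95.W (tot_bdV)
open Pool.Agent.H20.Sp (Prog)

section

variable {ι κ : Type} [DecidableEq ι] [DecidableEq κ]
  {W Bb TT T Wi Li : Finset (ℤ × ℤ)} {fm : ℤ × ℤ → ι} {wl : ℤ × ℤ → κ} {w : κ} {i : ι}
  {b o : ℤ × ℤ → ℤ × ℤ} {c : Bool} {ε : Bool × Bool} {δ x0 v : ℤ × ℤ} {N R r R0 Rm M : ℤ} {La : Finset (ℤ × ℤ)}
  {FlT : Finset (ℤ × ℤ)} {L J : ℕ}

lemma flatL_mono (h : FlatL W Bb TT T Wi Li b o c ε δ v R) (hr : r ≤ R) :
    FlatL W Bb TT T Wi Li b o c ε δ v r := by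
  have key : ∀ l, lm c ε l ∈ BR (gm ε v) r → lm c ε l ∈ BR (gm ε v) R := by
    intro l hl
    rw [mem_BRz] at hl ⊢
    omega
  exact ⟨h.hδ, fun l hl => h.la l (key l hl), fun l h1 hl => h.xe l h1 (key l hl),
    fun l hl => h.tie l (key l hl), fun l h1 hl => h.ends l h1 (key l hl), fun l hl => h.wl l (key l hl),
    fun hc l hl => h.wf hc l (key l hl), fun l h1 hl => h.wu l h1 (key l hl), fun l hl => h.w l (key l hl)⟩

lemma inR_wp {t u : ℤ} : inR (wp 1 x0 t) R (wp 1 x0 u) ↔ t - R ≤ u ∧ u ≤ t + R := by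
  rw [inR_iff]
  unfold wp
  simp only
  omega

lemma wp_inj {t u : ℤ} (h : wp 1 x0 t = wp 1 x0 u) : t = u := by
  unfold wp at h
  simp only [Prod.mk.injEq] at h
  omega

/-- the inputs for one wall at the radius `R` -/
structure OneW (TT : Finset (ℤ × ℤ)) (fm : ℤ × ℤ → ι) (wl : ℤ × ℤ → κ) (b o : ℤ × ℤ → ℤ × ℤ)
    (W Bb Wi Li : Finset (ℤ × ℤ)) (c : Bool) (ε : Bool × Bool) (δ x0 : ℤ × ℤ) (N : ℤ) (w : κ) (i : ι) (M : ℤ)
    (FlT : Finset (ℤ × ℤ)) (R : ℤ) : Prop where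
  flat : ∀ e ∈ FlT, FlatL W Bb TT (TF TT fm i) Wi Li b o c ε δ (b e) (R + 1)
  loc : ∀ e ∈ FlT, ∀ e' ∈ TF TT fm i, inR (b e) R (b e') → wl e' = w
  fin : ∀ e ∈ TW TT wl w, e ∉ FlT → inR (wp 1 x0 0) (2 * R) (gm ε (b e)) ∨
    inR (wp 1 x0 N) (2 * R) (gm ε (b e))
  card : (FlT.card : ℤ) ≤ M

/-- the tie of the wall at a deep position is flat -/
lemma OneW.mem (h : OneW TT fm wl b o W Bb Wi Li c ε δ x0 N w i M FlT R) {t : ℤ} (h0 : 2 * R < t)
    (h1 : t + 2 * R < N) {e : ℤ × ℤ} (he : e ∈ TW TT wl w) (hb : gm ε (b e) = wp 1 x0 t) : e ∈ FlT := by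
  by_contra hc
  rcases h.fin e he hc with h2 | h2 <;> rw [hb, inR_wp] at h2 <;> omega

/-- **If one deep position is tied by the wall, then all are.** -/
theorem deep_all (hF : FWw TT fm b La i ε (TW TT wl w) x0 N)
    (h : OneW TT fm wl b o W Bb Wi Li c ε δ x0 N w i M FlT R) (hR : 1 ≤ R) {t0 : ℤ} (h0 : 2 * R < t0)
    (h0' : t0 + 2 * R < N) {e0 : ℤ × ℤ} (he0 : e0 ∈ TW TT wl w) (hb0 : gm ε (b e0) = wp 1 x0 t0) :
    ∀ t, 2 * R < t → t + 2 * R < N → ∀ e ∈ TF TT fm i, gm ε (b e) = wp 1 x0 t → e ∈ TW TT wl w := by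
  have step : ∀ t u, 2 * R < t → t + 2 * R < N → t - 1 ≤ u → u ≤ t + 1 →
      (∀ e ∈ TF TT fm i, gm ε (b e) = wp 1 x0 t → e ∈ TW TT wl w) →
      ∀ e ∈ TF TT fm i, gm ε (b e) = wp 1 x0 u → e ∈ TW TT wl w := by
    intro t u k1 k2 k3 k4 ih e he hb
    obtain ⟨e1, he1, hb1⟩ := hF.full t (by omega) (by omega)
    have h3 := h.mem k1 k2 (ih e1 he1 hb1) hb1
    refine mem_TW.2 ⟨(mem_TF.1 he).1, h.loc e1 h3 e he ?_⟩
    rw [← inR_gm (ε := ε), hb1, hb, inR_wp]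
    omega
  have base : ∀ e ∈ TF TT fm i, gm ε (b e) = wp 1 x0 t0 → e ∈ TW TT wl w := by
    intro e he hb
    have := hF.inj e he e0 (hF.sub he0) (gm_inj (hb.trans hb0.symm))
    rw [this]; exact he0
  have up : ∀ k : ℕ, t0 + k + 2 * R < N →
      ∀ e ∈ TF TT fm i, gm ε (b e) = wp 1 x0 (t0 + k) → e ∈ TW TT wl w := by
    intro k
    induction k with
    | zero => intro _; simpa using base
    | succ k ih =>
      intro hk
      push_cast at hk ⊢
      exact step (t0 + k) _ (by omega) (by omega) (by omega) (by omega) (ih (by omega))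
  have dn : ∀ k : ℕ, 2 * R < t0 - k →
      ∀ e ∈ TF TT fm i, gm ε (b e) = wp 1 x0 (t0 - k) → e ∈ TW TT wl w := by
    intro k
    induction k with
    | zero => intro _; simpa using base
    | succ k ih =>
      intro hk
      push_cast at hk ⊢
      exact step (t0 - k) _ (by omega) (by omega) (by omega) (by omega) (ih (by omega))
  intro t k1 k2
  by_cases hc : t0 ≤ t
  · have := up (t - t0).toNat (by omega)
    rwa [show t0 + ((t - t0).toNat : ℤ) = t by omega] at this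
  · have := dn (t0 - t).toNat (by omega)
    rwa [show t0 - ((t0 - t).toNat : ℤ) = t by omega] at this

open Classical in
/-- **The deep positions of a wall are runs.** -/
theorem wall_runs (hF : FWw TT fm b La i ε (TW TT wl w) x0 N) (hR0 : 1 ≤ R0) (hRm : R0 ≤ Rm)
    (H : ∀ R, R0 ≤ R → R ≤ Rm → ∃ FlT, OneW TT fm wl b o W Bb Wi Li c ε δ x0 N w i M FlT R)
    {t0 : ℤ} (h0 : 2 * R0 < t0) (h0' : t0 + 2 * R0 < N) {e0 : ℤ × ℤ} (he0 : e0 ∈ TW TT wl w)
    (hb0 : gm ε (b e0) = wp 1 x0 t0) (hL : ∀ ρ : ℤ, 2 * ρ < L → ρ ≤ Rm) (hM : M ≤ J * L) :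
    RunsW W Bb TT (TF TT fm i) ((TF TT fm i).filter fun e => ∃ t, 2 * R0 < t ∧ t + 2 * R0 < N ∧
      gm ε (b e) = wp 1 x0 t) Wi Li b o c L J := by
  obtain ⟨F0, hF0⟩ := H R0 le_rfl hRm
  have hall := deep_all hF hF0 hR0 h0 h0' he0 hb0
  -- the tie at a position
  have hch : ∀ u : ℤ, ∃ e, (2 * R0 < u / 2 ∧ u / 2 + 2 * R0 < N) →
      e ∈ TF TT fm i ∧ gm ε (b e) = wp 1 x0 (u / 2) := by
    intro u
    by_cases hc : 2 * R0 < u / 2 ∧ u / 2 + 2 * R0 < N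
    · obtain ⟨e, h1, h2⟩ := hF.full (u / 2) (by omega) (by omega)
      exact ⟨e, fun _ => ⟨h1, h2⟩⟩
    · exact ⟨0, fun h => absurd h hc⟩
  choose tie htie using hch
  -- the number of deep positions
  have hcard : N - 4 * R0 - 1 ≤ M := by
    have h1 : (Finset.Icc (2 * R0 + 1) (N - 2 * R0 - 1)).card ≤ F0.card := by
      refine card_le_card_of_injOn (fun t => tie (2 * t)) (fun t ht => ?_) (fun t ht t' ht' h => ?_)
      · rw [mem_coe, mem_Icc] at ht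
        have h2 := htie (2 * t) (by omega)
        rw [show 2 * t / 2 = t by omega] at h2
        exact hF0.mem (by omega) (by omega) (hall t (by omega) (by omega) _ h2.1 h2.2) h2.2
      · rw [mem_coe, mem_Icc] at ht ht'
        have h2 := (htie (2 * t) (by omega)).2
        have h3 := (htie (2 * t') (by omega)).2
        rw [show 2 * t / 2 = t by omega] at h2
        rw [show 2 * t' / 2 = t' by omega] at h3
        simp only at h
        rw [h, h3] at h2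
        exact (wp_inj h2).symm
    have h2 := hF0.card
    rw [Int.card_Icc] at h1
    omega
  have key : RunsW W Bb TT (TF TT fm i) ((TF TT fm i).filter fun e => ∃ u, (u % 2 = 0 ∧
      2 * R0 < u / 2 ∧ u / 2 + 2 * R0 < N) ∧ tie u = e) Wi Li b o c L J := by
    refine Pool.Agent.H20.Sp.RunsW.of_prog (ε := ε) (δ := δ)
      (Q := fun u => u % 2 = 0 ∧ 2 * R0 < u / 2 ∧ u / 2 + 2 * R0 < N)
      ?_ (u0 := 2 * (2 * R0 + 1)) (u1 := 2 * (N - 2 * R0 - 1)) false tie ?_ ?_ ?_ ?_ ?_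
    · refine ⟨2 * (2 * R0 + 1), (N - 4 * R0 - 1).toNat, fun u => ?_⟩
      constructor
      · rintro ⟨h1, h2, h3⟩
        exact ⟨u / 2 - (2 * R0 + 1), by omega, by omega⟩
      · rintro ⟨t, h1, rfl⟩
        omega
    · rintro u ⟨h1, h2, h3⟩
      omega
    · omega
    · intro u u' _ h2 _
      exact (htie u' h2.2).1
    · intro u t h1 h2
      rw [(htie u h1.2).2, (htie _ h2.2).2, if_neg Bool.false_ne_true]
      unfold wp wpt
      refine Prod.ext ?_ ?_ <;> simp only <;> omega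
    · intro u ρ h1 _ h3 h4 h5 h6
      obtain ⟨k1, k2⟩ := htie u h1.2
      obtain ⟨F1, hF1⟩ := H (max ρ R0) (le_max_right _ _) (max_le (hL ρ h4) hRm)
      have k3 := hall (u / 2) h1.2.1 h1.2.2 _ k1 k2
      have k4 := hF1.mem (t := u / 2) (by omega) (by omega) k3 k2
      exact flatL_mono (hF1.flat _ k4) (by omega)
  refine key.mono ?_
  intro e he
  obtain ⟨h1, t, h2, h3, h4⟩ := mem_filter.1 he
  refine mem_filter.2 ⟨h1, 2 * t, ⟨by omega, by omega, by omega⟩, ?_⟩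
  have h5 := htie (2 * t) (by omega)
  rw [show 2 * t / 2 = t by omega] at h5
  exact hF.inj _ h5.1 _ h1 (gm_inj (h5.2.trans h4.symm))

end

section

variable {ι κ : Type} [DecidableEq ι] [DecidableEq κ] [Fintype κ]
  {W Bb TT : Finset (ℤ × ℤ)} {fm : ℤ × ℤ → ι} {co : ι → Bool} {Wl La : ι → Finset (ℤ × ℤ)}
  {b o : ℤ × ℤ → ℤ × ℤ} {wl : ℤ × ℤ → κ} {fw : κ → ι} {ε : κ → Bool × Bool} {δ : κ → ℤ × ℤ}
  {x0 : κ → ℤ × ℤ} {N : κ → ℤ} {R0 Rm M : ℤ} {L J : ℕ}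

open Classical in
/-- **The ties of a family lie on few runs.** -/
theorem runsK_V (hF : ∀ w, FWw TT fm b (La (fw w)) (fw w) (ε w) (TW TT wl w) (x0 w) (N w))
    (hfw : ∀ e ∈ TT, fm e = fw (wl e)) (hR0 : 1 ≤ R0) (hRm : R0 ≤ Rm)
    (H : ∀ R, R0 ≤ R → R ≤ Rm → ∃ FlT : κ → Finset (ℤ × ℤ), ∀ w,
      OneW TT fm wl b o W Bb (Wl (fw w)) (La (fw w)) (co (fw w)) (ε w) (δ w) (x0 w) (N w) w (fw w) M
        (FlT w) R)
    (hL : ∀ ρ : ℤ, 2 * ρ < L → ρ ≤ Rm) (hL1 : 1 ≤ L) (hJ : 1 ≤ J) (hM : M ≤ J * L) (i : ι) :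
    RunsK W Bb TT (TF TT fm i) (Wl i) (La i) b o (co i) L J
      (Fintype.card κ * (4 * R0.toNat + 3)) := by
  set T := TF TT fm i with hT
  set c : ℤ := 2 * R0 + 1 with hc
  -- the exceptional ties
  set S : Finset (κ × ℤ × Bool) := univ ×ˢ (Ico 0 c ×ˢ univ) with hS
  set f : κ × ℤ × Bool → ℤ × ℤ := fun q => gm (ε q.1) (wp 1 (x0 q.1)
    (if q.2.2 = true then q.2.1 else N q.1 - q.2.1)) with hf
  set I : Finset (ℤ × ℤ) := T.filter fun e => ∃ q ∈ S, f q = b e with hI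
  have hinj : ∀ e ∈ T, ∀ e' ∈ T, b e = b e' → e = e' := by
    intro e he e' he' h
    have h1 := hfw e (mem_TF.1 he).1
    rw [(mem_TF.1 he).2] at h1
    subst h1
    exact (hF (wl e)).inj e he e' he' h
  have hcI : I.card ≤ Fintype.card κ * (2 * c.toNat) := by
    have h1 : I.card ≤ (S.image f).card := by
      refine card_le_card_of_injOn b (fun e he => ?_) (fun e he e' he' h => ?_)
      · obtain ⟨-, q, hq, h2⟩ := mem_filter.1 (mem_coe.1 he)
        rw [mem_coe, ← h2]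
        exact mem_image_of_mem _ hq
      · exact hinj e (mem_filter.1 (mem_coe.1 he)).1 e' (mem_filter.1 (mem_coe.1 he')).1 h
    refine h1.trans (card_image_le.trans (le_of_eq ?_))
    rw [hS, card_product, card_product, card_univ, Int.card_Ico, card_univ, Fintype.card_bool, sub_zero]
    ring
  have hcov : ∀ e ∈ T, ∃ t, (0 ≤ t ∧ t ≤ N (wl e)) ∧ gm (ε (wl e)) (b e) = wp 1 (x0 (wl e)) t :=
    fun e he => (hF (wl e)).wall e (mem_TW.2 ⟨(mem_TF.1 he).1, rfl⟩)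
  have hfi : ∀ e ∈ T, fw (wl e) = i := fun e he => by
    rw [← hfw e (mem_TF.1 he).1, (mem_TF.1 he).2]
  refine RunsK.of_walls (κ := κ) (A := fun w => if h : fw w = i ∧ ∃ e0 ∈ TW TT wl w, ∃ t0, 2 * R0 < t0 ∧
      t0 + 2 * R0 < N w ∧ gm (ε w) (b e0) = wp 1 (x0 w) t0 then
      T.filter fun e => ∃ t, 2 * R0 < t ∧ t + 2 * R0 < N w ∧ gm (ε w) (b e) = wp 1 (x0 w) t
    else ∅) (I := I) (filter_subset _ _) ?_ (fun w => ?_) hL1 hJ ?_
  · intro e he
    obtain ⟨t, ⟨h1, h2⟩, h3⟩ := hcov e he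
    by_cases h4 : 2 * R0 < t
    · by_cases h5 : t + 2 * R0 < N (wl e)
      · refine Or.inl ⟨wl e, ?_⟩
        rw [dif_pos ⟨hfi e he, e, mem_TW.2 ⟨(mem_TF.1 he).1, rfl⟩, t, h4, h5, h3⟩]
        exact mem_filter.2 ⟨he, t, h4, h5, h3⟩
      · refine Or.inr (mem_filter.2 ⟨he, (wl e, N (wl e) - t, false), ?_, ?_⟩)
        · exact mem_product.2 ⟨mem_univ _, mem_product.2 ⟨Finset.mem_Ico.2 ⟨by simp only; omega,
            by simp only; omega⟩, mem_univ _⟩⟩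
        · simp only [hf, Bool.false_eq_true, if_false]
          rw [show N (wl e) - (N (wl e) - t) = t by ring, ← h3, gm_gm]
    · refine Or.inr (mem_filter.2 ⟨he, (wl e, t, true), ?_, ?_⟩)
      · exact mem_product.2 ⟨mem_univ _, mem_product.2 ⟨Finset.mem_Ico.2 ⟨by simp only; omega,
          by simp only; omega⟩, mem_univ _⟩⟩
      · simp only [hf, if_true]
        rw [← h3, gm_gm]
  · split_ifs with h
    · obtain ⟨hfwi, e0, he0, t0, h1, h2, h3⟩ := h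
      subst hfwi
      exact wall_runs (hF w) hR0 hRm (fun R k1 k2 => by
        obtain ⟨FlT, h4⟩ := H R k1 k2
        exact ⟨FlT w, h4 w⟩) h1 h2 he0 h3 hL hM
    · exact RunsW.empty
  · have h1 : c.toNat = 2 * R0.toNat + 1 := by omega
    rw [h1] at hcI
    calc Fintype.card κ + I.card ≤ Fintype.card κ + Fintype.card κ * (2 * (2 * R0.toNat + 1)) := by omega
      _ = Fintype.card κ * (4 * R0.toNat + 3) := by ring

end

/-- **The inputs of `fineVP_of` for a class.** -/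
def InpVP (P : ℝ → ℕ → CaseV → Prop) : Prop :=
  ∀ η : ℝ, 0 < η → ∃ (θ Q ζ C : ℝ) (n R1 : ℕ), 0 < θ ∧ 0 < ζ ∧ ∀ R : ℕ, R1 ≤ R →
    ∀ x : CaseV, P η R x → Nonempty (InpV θ Q ζ C n R1 R x)

theorem InpVP.fine {P : ℝ → ℕ → CaseV → Prop} (h : InpVP P) : FineVP P := fineVP_of h

/-- **The uniform bound for complex weights near one (or real between zero and one)**, for the class `P`. -/
def BdVP (P : ℝ → ℕ → CaseV → Prop) : Prop :=
  ∀ η : ℝ, 0 < η → ∀ Z : ℝ, 0 ≤ Z → ∃ (K : ℝ) (R0 : ℕ), 0 ≤ K ∧ ∀ R : ℕ, R0 ≤ R →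
    ∀ x : CaseV, P η R x → ∀ (M : ℝ) (s : ℤ × ℤ → ℂ), x.HV M →
    (∀ e ∈ x.d.TT, Nr (Z * (R : ℝ) ^ (-(2 / 3) : ℝ)) (s e)) →
    ‖TotV x.V x.d.B x.d.TT s‖ ≤ K * M

/-- **the uniform bound from the inputs** -/
theorem bd_inp (θ Q ζ C : ℝ) (n R1 : ℕ) (hζ : 0 < ζ) {Z : ℝ} (hZ : 0 ≤ Z) :
    ∃ (K : ℝ) (R0 : ℕ), 0 ≤ K ∧ ∀ R : ℕ, R0 ≤ R → ∀ x : CaseV, Nonempty (InpV θ Q ζ C n R1 R x) →
    ∀ (M : ℝ) (s : ℤ × ℤ → ℂ), x.HV M → (∀ e ∈ x.d.TT, Nr (Z * (R : ℝ) ^ (-(2 / 3) : ℝ)) (s e)) →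
    ‖TotV x.V x.d.B x.d.TT s‖ ≤ K * M := by
  obtain ⟨C2, hC2, hbd⟩ := tot_bdV
  set r0 : ℕ := max R1 1 with hr0
  set Kn : ℕ := n * (4 * r0 + 3) + 1 with hKn
  set η : ℝ := min ζ (1 / max C 1) with hη
  have hC1 : 0 < max C 1 := lt_of_lt_of_le one_pos (le_max_right _ _)
  have hη0 : 0 < η := lt_min hζ (by positivity)
  obtain ⟨J, R2, hnum⟩ := bd_num (Z := Z) (C := C2 * 4 ^ n * 2 ^ Kn) hη0 hZ (by positivity)
  refine ⟨1 + n * (Kn * 2 ^ J), max ⌈R2⌉₊ ⌈(r0 : ℝ) / ζ⌉₊, by positivity, ?_⟩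
  rintro R hR x ⟨I⟩ M s hM hs
  have hR2 : R2 ≤ R := (Nat.le_ceil _).trans (by exact_mod_cast (le_max_left _ _).trans hR)
  have hR3 : (r0 : ℝ) / ζ ≤ R := (Nat.le_ceil _).trans (by exact_mod_cast (le_max_right _ _).trans hR)
  obtain ⟨h16, hRp, Lr, k1, k2, k3⟩ := hnum R hR2
  have hη1 : η ≤ ζ := min_le_left _ _
  have hη2 : η ≤ 1 / max C 1 := min_le_right _ _
  have hJLp : 0 < J * Lr := by
    have h0 : 0 < (R : ℝ) / η := by positivity
    have : (0 : ℝ) < ((J * Lr : ℕ) : ℝ) := by push_cast; linarith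
    exact_mod_cast this
  have hJ : 1 ≤ J := Nat.pos_of_mul_pos_right hJLp
  have hL : 1 ≤ Lr := Nat.pos_of_mul_pos_left hJLp
  have hCR : C * R ≤ ((J * Lr : ℕ) : ℝ) := by
    push_cast
    refine le_trans ?_ k2
    rw [le_div_iff₀ hη0]
    have h1 : C ≤ max C 1 := le_max_left _ _
    have h2 : max C 1 * η ≤ 1 := by
      rw [le_div_iff₀ hC1] at hη2
      linarith
    have h3 : C * R * η ≤ max C 1 * R * η :=
      mul_le_mul_of_nonneg_right (mul_le_mul_of_nonneg_right h1 hRp.le) hη0.le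
    have h4 : max C 1 * R * η = (max C 1 * η) * R := by ring
    rw [h4] at h3
    have h5 := mul_le_mul_of_nonneg_right h2 hRp.le
    linarith
  have hLr : (Lr : ℝ) ≤ ζ * R := by
    have h1 : ((Lr : ℤ) : ℝ) + 2 ≤ (⌊η * R / 4⌋ : ℝ) := by exact_mod_cast k1
    have h2 : (⌊η * R / 4⌋ : ℝ) ≤ η * R / 4 := Int.floor_le _
    have h3 : η * R ≤ ζ * R := mul_le_mul_of_nonneg_right hη1 hRp.le
    push_cast at h1
    linarith
  have hr0R : (r0 : ℝ) ≤ ζ * R := by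
    rw [div_le_iff₀ hζ] at hR3
    linarith
  let _ := I.dγ
  have hfww := I.wcr.wd.fww
  obtain ⟨FlT0, hW0, -, -⟩ := I.flt r0 (by exact_mod_cast le_max_left R1 1) (by exact_mod_cast hr0R)
  have hruns := runsK_V (R0 := (r0 : ℤ)) (Rm := ⌊ζ * R⌋) (M := ⌊C * R⌋) (L := Lr) (J := J)
    (W := x.d.W) (Bb := x.d.Bb) (o := x.d.o) (co := x.d.co) (Wl := x.d.Wl) (δ := x.d.δ) hfww hW0.hfw
    (by exact_mod_cast le_max_right R1 1)
    (by rw [Int.le_floor]; exact_mod_cast hr0R) (by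
      intro R' h1 h2
      have h3 : (R' : ℝ) ≤ ζ * R := by rwa [Int.le_floor] at h2
      have h4 : (R1 : ℤ) ≤ R' := by
        have : (R1 : ℤ) ≤ r0 := by exact_mod_cast le_max_left R1 1
        omega
      obtain ⟨FlT, hW, hc, hz⟩ := I.flt R' h4 h3
      exact ⟨FlT, fun w => ⟨(hW.hfl w).flat, hW.hloc w, hz w, by
        rw [Int.le_floor]; exact_mod_cast hc w⟩⟩)
    (by
      intro ρ hρ
      rw [Int.le_floor]
      have : ((2 * ρ : ℤ) : ℝ) ≤ (Lr : ℝ) := by exact_mod_cast hρ.le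
      push_cast at this
      have h0 : (0 : ℝ) ≤ Lr := Nat.cast_nonneg _
      by_cases hn : (0 : ℝ) ≤ ρ
      · linarith
      · have : 0 ≤ ζ * (R : ℝ) := by positivity
        push Not at hn
        linarith)
    hL hJ (by
      have h1 : (⌊C * R⌋ : ℝ) ≤ C * R := Int.floor_le _
      have h2 : ((⌊C * R⌋ : ℤ) : ℝ) ≤ (((J * Lr : ℕ) : ℤ) : ℝ) := by
        push_cast at hCR ⊢
        linarith
      exact_mod_cast h2)
  have hKle : Fintype.card x.κ * (4 * (r0 : ℤ).toNat + 3) ≤ Kn := by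
    rw [Int.toNat_natCast, hKn]
    have := Nat.mul_le_mul_right (4 * r0 + 3) I.card
    omega
  have key := hbd x.d.X x.d.W x.d.Bb x.d.B x.d.TT x.d.fm x.d.co x.d.Wl x.d.La x.d.b x.d.o s x.V Lr J Kn n
    M (Z * (R : ℝ) ^ (-(2 / 3) : ℝ)) ((univ : Finset x.κ).image x.d.fw)
    (fun e he => by rw [hW0.hfw e he]; exact mem_image_of_mem _ (mem_univ _))
    (card_image_le.trans (by rw [card_univ]; exact I.card)) (by omega) I.mul I.tog
    (fun i => Pool.Agent.H20.Sp.RunsK.mono (hruns i) hKle) (by positivity) hM hs k3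
  refine key.trans (le_of_eq ?_)
  ring

/-- **the uniform bound for every class with inputs** -/
theorem bdVP_of {P : ℝ → ℕ → CaseV → Prop} (H : InpVP P) : BdVP P := by
  intro η hη Z hZ
  obtain ⟨θ, Q, ζ, C, n, R1, -, hζ, H⟩ := H η hη
  obtain ⟨K, R0, hK, h⟩ := bd_inp θ Q ζ C n R1 hζ hZ
  exact ⟨K, max R0 R1, hK, fun R hR x hx M s hM hs =>
    h R ((le_max_left _ _).trans hR) x (H R ((le_max_right _ _).trans hR) x hx) M s hM hs⟩

end Pool.Agent.H60.W.BI
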