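import Mathlib
import Pool.Agent.H72.W.NXB
import Pool.Agent.H46.Sp.Lev

set_option autoImplicit false
open Finset

/-! # Levels, fatness and ledges of the windows with a flat right wall, the class `WinX`

Successor of `H46/Sp/Lev`, of `Ldg` (`H20/Sp/BoxF`) and of `Ports`, `OutOK`, `WinX` (`H20/Sp/WinX`, `WinC`) for
`H54.W.Win`. `Lev D G` : `a` changes only at the rows of `G` (and `0`, `h` are in `G`). `RCol D G` : the same for
`cr`. `NoR D p` : there are no ties on the right wall (e.g. alternating colours `cr`). `Fat D N` : rows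
and columns of `P` are longer than `N`. `Ldg D G N` : a ledge is at distance `≥ N` from the bottom and the
top, on its outer side `a` and the colour do not come back up to the distance `N`. -/

namespace Pool.Agent.H60.W.N

open Pool.Agent.H75.Perc Pool.Agent.H75.TwoArm Pool.Agent.Q1 Pool.Agent.H33.Q1
open Pool.Agent.H54.W (Win)
open Pool.Agent.H46.Sp (nxt nxt_le nxt_mem le_nxt not_lev)
open Pool.Agent.H72.W.N
open Pool.Agent.H13.R45 (Ag OutF)

/-- **Levels.** -/
structure Lev (D : Win) (G : Finset ℤ) : Prop where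
  a : ∀ y, 0 < y → y < D.h → y ∉ G → D.a y = D.a (y - 1)
  zero : 0 ∈ G
  h : D.h ∈ G
  lo : ∀ g ∈ G, 0 ≤ g
  hi : ∀ g ∈ G, g ≤ D.h

/-- the colour of the right wall changes only at levels -/
def RCol (D : Win) (G : Finset ℤ) : Prop := ∀ y, 0 < y → y < D.h → y ∉ G → D.cr y = D.cr (y - 1)

/-- there are no ties on the right wall -/
def NoR (D : Win) (p : Bool) : Prop := ∀ x y, ¬ CA D p (.R, (x, y))

/-- rows and columns of `P` are longer than `N` -/
structure Fat (D : Win) (N : ℤ) : Prop where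
  row : ∀ y, 0 ≤ y → y < D.h → D.a y + N ≤ D.w
  col : ∀ x y, 0 ≤ y → y < D.h → D.a y ≤ x → x < D.w → ∃ y0, y0 ≤ y ∧ y < y0 + N ∧
    ∀ z, y0 ≤ z → z < y0 + N → 0 ≤ z ∧ z < D.h ∧ D.a z ≤ x

/-- ledges are far from the bottom and the top, the colour and the wall on their outer side do not come back -/
structure Ldg (D : Win) (G : Finset ℤ) (N : ℤ) : Prop where
  fl : ∀ g ∈ G, 0 < g → g < D.h → D.a g < D.a (g - 1) → N ≤ g ∧
    ∀ y, g - N ≤ y → y < g → D.cl y = D.cl (g - 1) ∧ D.a (g - 1) ≤ D.a y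
  ul : ∀ g ∈ G, 0 < g → g < D.h → D.a (g - 1) < D.a g → g + N ≤ D.h ∧
    ∀ y, g ≤ y → y < g + N → D.cl y = D.cl g ∧ D.a g ≤ D.a y

/-- inside the large box far labels only in the rows next to a change of the colour -/
def Ports {D : Win} (O : OutB D) (N : ℤ) : Prop := ∀ x y, InL D N x y → lt (x, y) ∈ O.Wo →
  (x < D.lo ∧ 0 ≤ y ∧ y ≤ D.h ∧ colp D (2 * D.h + 1 - y) ≠ colp D (2 * D.h + 2 - y)) ∨
  (D.w ≤ x ∧ -1 ≤ y ∧ y < D.h ∧ colp D (y + 1) ≠ colp D (y + 2))

/-- far labels, ports and root are good in the large box of the half side `N` -/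
structure OutOK {D : Win} (O : OutB D) (N : ℤ) : Prop where
  free : ∀ x y, InL D N x y → fillc D x y = false → lt (x, y) ∉ O.Wo
  port : Ports O N
  root : ∀ g, Ag g O.c0 → OutF (D.lo - N + 1) (D.w + N) (-N + 1) (D.h + N) g

/-- **Natural windows at the scale `R`.** -/
structure WinX (η : ℝ) (n0 R : ℕ) {D : Win} (O : OutB D) (s0 N : ℤ) (G : Finset ℤ) : Prop where
  N1 : η * R ≤ N
  lev : Lev D G
  right : RCol D G ∨ ∀ p, NoR D p
  card : G.card ≤ n0
  h2 : (D.h : ℝ) ≤ R / η
  w2 : ((D.w - D.lo : ℤ) : ℝ) ≤ R / η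
  fat : Fat D N
  ldg : Ldg D G N
  cut : colp D (s0 - 1) ≠ colp D s0
  free : ∀ x y, InL D N x y → fillc D x y = false → lt (x, y) ∉ O.Wo
  port : Ports O N

variable {D : Win} {G : Finset ℤ} {g n x y z : ℤ}

lemma Fat.mono {m : ℤ} (h : Fat D n) (hN : 1 ≤ m) (hn : m ≤ n) : Fat D m where
  row y h0 h1 := by have := h.row y h0 h1; omega
  col x y h0 h1 h2 h3 := by
    obtain ⟨y0, k1, k2, k3⟩ := h.col x y h0 h1 h2 h3
    refine ⟨max y0 (y - m + 1), by omega, by omega, fun z z1 z2 => k3 z (by omega) (by omega)⟩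

lemma Ldg.mono {m : ℤ} (h : Ldg D G n) (hn : m ≤ n) : Ldg D G m where
  fl g hg h0 h1 h2 := by
    obtain ⟨k1, k2⟩ := h.fl g hg h0 h1 h2
    exact ⟨by omega, fun y y1 y2 => k2 y (by omega) y2⟩
  ul g hg h0 h1 h2 := by
    obtain ⟨k1, k2⟩ := h.ul g hg h0 h1 h2
    exact ⟨by omega, fun y y1 y2 => k2 y y1 (by omega)⟩

namespace Lev

variable (hG : Lev D G)

include hG

/-- between two levels the ends of the rows are constant -/
lemma a_eq (hg : g ∈ G) (h1 : g ≤ y) (h2 : y < nxt G g) : D.a y = D.a g := by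
  have h0 := hG.lo g hg
  have key : ∀ n : ℕ, g + n < nxt G g → D.a (g + n) = D.a g := by
    intro n
    induction n with
    | zero => intro _; simp
    | succ n ih =>
      intro h3
      push_cast at h3 ⊢
      have h4 := ih (by omega)
      have h5 : nxt G g ≤ D.h := hG.hi _ (nxt_mem (by omega))
      have h6 := hG.a (g + (n + 1)) (by omega) (by omega) (not_lev (by omega) h3)
      rw [show g + ((n : ℤ) + 1) - 1 = g + n by ring] at h6
      rw [h6]
      exact h4
  have := key (y - g).toNat (by rw [Int.toNat_of_nonneg (by omega)]; omega)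
  rwa [Int.toNat_of_nonneg (by omega), show g + (y - g) = y by ring] at this

lemma nxt_h (h1 : g < nxt G g) : nxt G g ≤ D.h := hG.hi _ (nxt_mem h1)

/-- between two levels the colour at the left is constant -/
lemma cl_eq (hg : g ∈ G) (h1 : g ≤ y) (h2 : y < nxt G g) : D.cl y = D.cl g := by
  have h0 := hG.lo g hg
  have hh := hG.nxt_h (g := g) (by omega)
  have key : ∀ n : ℕ, g + n < nxt G g → D.cl (g + n) = D.cl g := by
    intro n
    induction n with
    | zero => intro _; simp
    | succ n ih =>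
      intro h3
      push_cast at h3 ⊢
      have h4 := ih (by omega)
      have h5 := D.scl (g + n) (by omega) (by omega) (by
        rw [hG.a_eq (y := g + n) hg (by omega) (by omega),
          hG.a_eq (y := g + n + 1) hg (by omega) (by omega)])
      rw [← h4, h5, add_assoc]
  have := key (y - g).toNat (by rw [Int.toNat_of_nonneg (by omega)]; omega)
  rwa [Int.toNat_of_nonneg (by omega), show g + (y - g) = y by ring] at this

/-- between two levels the colour at the right is constant -/
lemma cr_eq (hR : RCol D G) (hg : g ∈ G) (h1 : g ≤ y) (h2 : y < nxt G g) : D.cr y = D.cr g := by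
  have h0 := hG.lo g hg
  have key : ∀ n : ℕ, g + n < nxt G g → D.cr (g + n) = D.cr g := by
    intro n
    induction n with
    | zero => intro _; simp
    | succ n ih =>
      intro h3
      push_cast at h3 ⊢
      have h4 := ih (by omega)
      have h5 : nxt G g ≤ D.h := hG.hi _ (nxt_mem (by omega))
      have h6 := hR (g + (n + 1)) (by omega) (by omega) (not_lev (by omega) h3)
      rw [show g + ((n : ℤ) + 1) - 1 = g + n by ring] at h6
      rw [h6]
      exact h4
  have := key (y - g).toNat (by rw [Int.toNat_of_nonneg (by omega)]; omega)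
  rwa [Int.toNat_of_nonneg (by omega), show g + (y - g) = y by ring] at this

/-- the level of a row -/
lemma exists_lev (h0 : 0 ≤ y) (h1 : y < D.h) : ∃ g ∈ G, g ≤ y ∧ y < nxt G g := by
  classical
  have hne : (G.filter (· ≤ y)).Nonempty := ⟨0, mem_filter.2 ⟨hG.zero, h0⟩⟩
  refine ⟨(G.filter (· ≤ y)).max' hne, (mem_filter.1 (max'_mem _ hne)).1,
    (mem_filter.1 (max'_mem _ hne)).2, ?_⟩
  set g := (G.filter (· ≤ y)).max' hne with hg
  have hgY : g ≤ y := (mem_filter.1 (max'_mem _ hne)).2
  have h2 : g < nxt G g := by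
    unfold nxt
    have : (G.filter (g < ·)).Nonempty := ⟨D.h, mem_filter.2 ⟨hG.h, by omega⟩⟩
    rw [dif_pos this]
    exact (mem_filter.1 (min'_mem _ this)).2
  by_contra hc
  push Not at hc
  have h3 := le_max' (G.filter (· ≤ y)) (nxt G g) (mem_filter.2 ⟨nxt_mem h2, hc⟩)
  omega

/-- a drop is at a level -/
lemma drop_mem (h0 : 0 < y) (h1 : y < D.h) (h : D.a y ≠ D.a (y - 1)) : y ∈ G := by
  by_contra hc
  exact h (hG.a y h0 h1 hc)

end Lev

end Pool.Agent.H60.W.N
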