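import Mathlib
import Pool.Agent.H60.W.LevR

set_option autoImplicit false
open Finset

/-! # The segments of the boundary of a window with a flat right wall

Six kinds: `0` left wall between two levels, `1` right wall between two levels, `2` floor ledge, `3` bottom,
`4` ceiling ledge, `5` top. `Val` : the segment `(i, g)` exists. `pt i g u` : grid point of the segment, `u`
runs from `e0` to `e1`. `hT s g x y` : height of a tile above the line of the kind `s` through `g`.
`seg_in` : in the square of radius `r` around a grid point at distance `≥ r` from the ends `P^p` is a half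
plane. `seg_arc` : the outside of this square belongs to the arc `aS`. -/

namespace Pool.Agent.H60.W.N

open Pool.Agent.H75.Perc Pool.Agent.H75.TwoArm Pool.Agent.Q1 Pool.Agent.H33.Q1
open Pool.Agent.H54.W (Win)
open Pool.Agent.H46.Sp (nxt nxt_le nxt_mem le_nxt not_lev)
open Pool.Agent.H72.W.N
open Pool.Agent.H42.Sp (Sd Ix kt rt)

/-- the kind of a segment -/
def sK : Fin 6 → Sd
  | 0 => .L
  | 1 => .R
  | 2 => .F
  | 3 => .F
  | 4 => .C
  | 5 => .C

/-- grid points of a segment -/
def pt (D : Win) (p : Bool) (i : Fin 6) (g u : ℤ) : ℤ × ℤ :=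
  match i with
  | 0 => (D.a g - sh p, u)
  | 1 => (D.w - sh p, u)
  | 2 => (u, g)
  | 3 => (u, g)
  | 4 => (u, g)
  | 5 => (u, g)

/-- the segment exists -/
def Val (D : Win) (G : Finset ℤ) (i : Fin 6) (g : ℤ) : Prop :=
  g ∈ G ∧ match i with
  | 0 => g < nxt G g
  | 1 => g < nxt G g ∧ ∀ y, g ≤ y → y < nxt G g → D.cr y = D.cr g
  | 2 => 0 < g ∧ g < D.h ∧ D.a g < D.a (g - 1)
  | 3 => g = 0
  | 4 => 0 < g ∧ g < D.h ∧ D.a (g - 1) < D.a g
  | 5 => g = D.h

/-- first point -/
noncomputable def e0 (D : Win) (p : Bool) (i : Fin 6) (g : ℤ) : ℤ :=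
  match i with
  | 0 => g
  | 1 => g
  | 2 => D.a g - sh p
  | 3 => D.a g - sh p
  | 4 => D.a (g - 1) - sh p
  | 5 => D.a (g - 1) - sh p

/-- last point -/
noncomputable def e1 (D : Win) (p : Bool) (G : Finset ℤ) (i : Fin 6) (g : ℤ) : ℤ :=
  match i with
  | 0 => nxt G g
  | 1 => nxt G g
  | 2 => D.a (g - 1) - sh p
  | 3 => D.w - sh p
  | 4 => D.a g - sh p
  | 5 => D.w - sh p

/-- position of a segment -/
def pS (D : Win) (i : Fin 6) (g : ℤ) : ℤ :=
  match i with
  | 0 => 2 * D.h + 1 - g
  | 1 => g + 1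
  | 2 => 2 * D.h + 2 - g
  | 3 => 0
  | 4 => 2 * D.h + 1 - g
  | 5 => D.h + 1

/-- the arc of a segment -/
def aS (D : Win) (s0 : ℤ) (i : Fin 6) (g : ℤ) : ℤ := rep D s0 (pS D i g)

/-- height of a tile above the line of the kind `s` through `g` -/
def hT : Sd → ℤ × ℤ → ℤ → ℤ → ℤ
  | .L, g, x, _ => x - g.1
  | .R, g, x, _ => g.1 - 1 - x
  | .F, g, _, y => y - g.2
  | .C, g, _, y => g.2 - 1 - y

variable {D : Win} {p : Bool} {G : Finset ℤ} {g n r x y u s0 : ℤ} {i : Fin 6}

/-! ### Colours of positions -/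

lemma colp_r (h0 : 0 ≤ y) (h1 : y < D.h) : colp D (y + 1) = D.cr y := by
  have hh := D.hh
  unfold colp
  rw [Int.emod_eq_of_lt (by omega) (by unfold nP; omega), colq_cr (by omega) (by omega)]
  congr 1; ring

lemma colp_l (h0 : 0 ≤ y) (h1 : y < D.h) : colp D (2 * D.h + 1 - y) = D.cl y := by
  have hh := D.hh
  unfold colp
  rw [Int.emod_eq_of_lt (by omega) (by unfold nP; omega), colq_cl (by omega)]
  congr 1; ring

lemma colp_t : colp D (D.h + 1) = D.ct := by
  have hh := D.hh
  unfold colp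
  rw [Int.emod_eq_of_lt (by omega) (by unfold nP; omega), colq_t]

lemma colp_b : colp D 0 = D.cb := by
  unfold colp
  rw [Int.zero_emod, colq_0]

/-- positions of one colour are in one run -/
lemma rep_run (hcut : colp D (s0 - 1) ≠ colp D s0) {A B s t : ℤ}
    (h : ∀ q, A ≤ q → q < B → colp D q = colp D (q + 1)) (h1 : A ≤ s) (h2 : s ≤ t) (h3 : t ≤ B) :
    rep D s0 s = rep D s0 t := by
  have key : ∀ n : ℕ, s + n ≤ B → rep D s0 (s + n) = rep D s0 s := by
    intro n
    induction n with
    | zero => intro _; simp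
    | succ n ih =>
      intro h4
      push_cast at h4 ⊢
      rw [← add_assoc, rep_adj hcut (h (s + n) (by omega) (by omega)), ih (by omega)]
  have := key (t - s).toNat (by rw [Int.toNat_of_nonneg (by omega)]; omega)
  rw [Int.toNat_of_nonneg (by omega), show s + (t - s) = t by ring] at this
  exact this.symm

/-- left positions -/
lemma rep_l (hcut : colp D (s0 - 1) ≠ colp D s0) {c : Bool} {Y0 Y1 y z : ℤ} (h0 : 0 ≤ Y0) (h1 : Y1 ≤ D.h)
    (h : ∀ v, Y0 ≤ v → v < Y1 → D.cl v = c) (hy : Y0 ≤ y ∧ y < Y1) (hz : Y0 ≤ z ∧ z < Y1) :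
    rep D s0 (2 * D.h + 1 - y) = rep D s0 (2 * D.h + 1 - z) := by
  have H : ∀ q, 2 * D.h + 2 - Y1 ≤ q → q < 2 * D.h + 1 - Y0 → colp D q = colp D (q + 1) := by
    intro q h3 h4
    have e1 := colp_l (D := D) (y := 2 * D.h + 1 - q) (by omega) (by omega)
    have e2 := colp_l (D := D) (y := 2 * D.h + 1 - (q + 1)) (by omega) (by omega)
    rw [show 2 * D.h + 1 - (2 * D.h + 1 - q) = q by ring] at e1
    rw [show 2 * D.h + 1 - (2 * D.h + 1 - (q + 1)) = q + 1 by ring] at e2
    rw [e1, e2, h _ (by omega) (by omega), h _ (by omega) (by omega)]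
  rcases le_total y z with h5 | h5
  · exact (rep_run hcut H (by omega) (by omega) (by omega)).symm
  · exact rep_run hcut H (by omega) (by omega) (by omega)

/-- right positions -/
lemma rep_r (hcut : colp D (s0 - 1) ≠ colp D s0) {c : Bool} {Y0 Y1 y z : ℤ} (h0 : 0 ≤ Y0) (h1 : Y1 ≤ D.h)
    (h : ∀ v, Y0 ≤ v → v < Y1 → D.cr v = c) (hy : Y0 ≤ y ∧ y < Y1) (hz : Y0 ≤ z ∧ z < Y1) :
    rep D s0 (y + 1) = rep D s0 (z + 1) := by
  have H : ∀ q, Y0 + 1 ≤ q → q < Y1 → colp D q = colp D (q + 1) := by
    intro q h3 h4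
    have e1 := colp_r (D := D) (y := q - 1) (by omega) (by omega)
    have e2 := colp_r (D := D) (y := q) (by omega) (by omega)
    rw [sub_add_cancel] at e1
    rw [e1, e2, h _ (by omega) (by omega), h _ (by omega) (by omega)]
  rcases le_total y z with h5 | h5
  · exact rep_run hcut H (by omega) (by omega) (by omega)
  · exact (rep_run hcut H (by omega) (by omega) (by omega)).symm

/-- the columns above a point which is not in `P` -/
lemma Fat.up (hF : Fat D n) (h0 : 0 ≤ g) (h1 : g < D.h) (h2 : D.a g ≤ x) (h3 : x < D.w)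
    (h4 : ¬ (0 ≤ g - 1 ∧ D.a (g - 1) ≤ x)) {Y : ℤ} (h5 : g ≤ Y) (h6 : Y < g + n) :
    0 ≤ Y ∧ Y < D.h ∧ D.a Y ≤ x := by
  obtain ⟨y0, k1, k2, k3⟩ := hF.col x g h0 h1 h2 h3
  by_cases h : y0 = g
  · subst h
    exact k3 Y h5 h6
  · have := k3 (g - 1) (by omega) (by omega)
    exact absurd ⟨this.1, this.2.2⟩ h4

/-- the columns below a point which is not in `P` -/
lemma Fat.down (hF : Fat D n) (h0 : 0 < g) (h1 : g ≤ D.h) (h2 : D.a (g - 1) ≤ x) (h3 : x < D.w)
    (h4 : ¬ (g < D.h ∧ D.a g ≤ x)) {Y : ℤ} (h5 : Y < g) (h6 : g - n ≤ Y) :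
    0 ≤ Y ∧ Y < D.h ∧ D.a Y ≤ x := by
  obtain ⟨y0, k1, k2, k3⟩ := hF.col x (g - 1) (by omega) (by omega) h2 h3
  by_cases h : y0 + n = g
  · exact k3 Y (by omega) (by omega)
  · have := k3 g (by omega) (by omega)
    exact absurd ⟨this.2.1, this.2.2⟩ h4

/-- **`P^p` is a half plane near a segment.** -/
theorem seg_in (hG : Lev D G) (hF : Fat D n) (hl : Ldg D G n) (hv : Val D G i g) (hr : r ≤ n)
    (h0 : e0 D p i g + r ≤ u) (h1 : u + r ≤ e1 D p G i g)
    (hx : (pt D p i g u).1 - r ≤ x ∧ x < (pt D p i g u).1 + r)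
    (hy : (pt D p i g u).2 - r ≤ y ∧ y < (pt D p i g u).2 + r) :
    InP D p x y ↔ 0 ≤ hT (sK i) (pt D p i g u) x y := by
  obtain ⟨hg, hv⟩ := hv
  have lo := hG.lo g hg
  have hi := hG.hi g hg
  have hs := sh_nonneg p
  have hs1 := sh_le p
  have hhh := D.hh
  unfold InP
  fin_cases i
  · simp only [pt, e0, e1, sK, hT] at *
    have k1 := hG.a_eq hg (y := y) (by omega) (by omega)
    have k2 := hG.nxt_h (g := g) (by omega)
    have k3 := hF.row y (by omega) (by omega)
    omega
  · simp only [pt, e0, e1, sK, hT] at *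
    have k1 := hG.a_eq hg (y := y) (by omega) (by omega)
    have k2 := hG.nxt_h (g := g) (by omega)
    have k3 := hF.row y (by omega) (by omega)
    omega
  · simp only [pt, e0, e1, sK, hT] at *
    obtain ⟨v1, v2, v3⟩ := hv
    obtain ⟨l1, l2⟩ := hl.fl g hg v1 v2 v3
    have k3 := hF.row (g - 1) (by omega) (by omega)
    constructor
    · rintro ⟨k1, k2, k4, k5⟩
      by_contra hc
      have := (l2 y (by omega) (by omega)).2
      omega
    · intro k1
      have k2 := hF.up (g := g) (x := x + sh p) (Y := y) (by omega) v2 (by omega) (by omega)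
        (by omega) (by omega) (by omega)
      omega
  · simp only [pt, e0, e1, sK, hT] at *
    subst hv
    constructor
    · rintro ⟨k1, k2, k4, k5⟩
      omega
    · intro k1
      have k2 := hF.up (g := 0) (x := x + sh p) (Y := y) le_rfl (by omega) (by omega) (by omega)
        (by omega) (by omega) (by omega)
      omega
  · simp only [pt, e0, e1, sK, hT] at *
    obtain ⟨v1, v2, v3⟩ := hv
    obtain ⟨l1, l2⟩ := hl.ul g hg v1 v2 v3
    have k3 := hF.row g (by omega) (by omega)
    constructor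
    · rintro ⟨k1, k2, k4, k5⟩
      by_contra hc
      have := (l2 y (by omega) (by omega)).2
      omega
    · intro k1
      have k2 := hF.down (g := g) (x := x + sh p) (Y := y) (by omega) (by omega) (by omega) (by omega)
        (by omega) (by omega) (by omega)
      omega
  · simp only [pt, e0, e1, sK, hT] at *
    subst hv
    constructor
    · rintro ⟨k1, k2, k4, k5⟩
      omega
    · intro k1
      have k2 := hF.down (g := D.h) (x := x + sh p) (Y := y) (by omega) le_rfl (by omega) (by omega)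
        (by omega) (by omega) (by omega)
      omega

/-- **The outside near a segment belongs to one arc.** -/
theorem seg_arc (hcut : colp D (s0 - 1) ≠ colp D s0) (hG : Lev D G) (hl : Ldg D G n)
    (hv : Val D G i g) (hr : r ≤ n) (h0 : e0 D p i g + r ≤ u) (h1 : u + r ≤ e1 D p G i g)
    (hx : (pt D p i g u).1 - r ≤ x ∧ x < (pt D p i g u).1 + r)
    (hy : (pt D p i g u).2 - r ≤ y ∧ y < (pt D p i g u).2 + r)
    (ho : hT (sK i) (pt D p i g u) x y < 0) : arc D p s0 x y = aS D s0 i g := by
  obtain ⟨hg, hv⟩ := hv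
  have lo := hG.lo g hg
  have hi := hG.hi g hg
  have hs := sh_nonneg p
  have hs1 := sh_le p
  have hhh := D.hh
  unfold arc aS
  fin_cases i
  · simp only [pt, e0, e1, sK, hT, pS] at *
    have k1 := hG.a_eq hg (y := y) (by omega) (by omega)
    have k2 := hG.nxt_h (g := g) (by omega)
    have e : ps D p x y = 2 * D.h + 1 - y := by
      unfold ps
      rw [if_neg (by omega), if_neg (by omega), if_pos (by omega)]
    rw [e]
    exact rep_l hcut lo k2 (fun v h3 h4 => hG.cl_eq hg h3 h4) (by omega) (by omega)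
  · simp only [pt, e0, e1, sK, hT, pS] at *
    have k1 := hG.a_eq hg (y := y) (by omega) (by omega)
    have k2 := hG.nxt_h (g := g) (by omega)
    have k3 := D.aw y (by omega) (by omega)
    have e : ps D p x y = y + 1 := by
      unfold ps
      rw [if_neg (by omega), if_neg (by omega), if_neg (by omega)]
    rw [e]
    exact rep_r hcut lo k2 hv.2 (by omega) (by omega)
  · simp only [pt, e0, e1, sK, hT, pS] at *
    obtain ⟨v1, v2, v3⟩ := hv
    obtain ⟨l1, l2⟩ := hl.fl g hg v1 v2 v3
    have k1 := (l2 y (by omega) (by omega)).2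
    have e : ps D p x y = 2 * D.h + 1 - y := by
      unfold ps
      rw [if_neg (by omega), if_neg (by omega), if_pos (by omega)]
    rw [e, show 2 * D.h + 2 - g = 2 * D.h + 1 - (g - 1) by ring]
    exact rep_l hcut (Y0 := g - n) (Y1 := g) (by omega) (by omega)
      (fun v h3 h4 => (l2 v (by omega) h4).1) (by omega) (by omega)
  · simp only [pt, e0, e1, sK, hT, pS] at *
    subst hv
    have e : ps D p x y = 0 := by
      unfold ps
      rw [if_pos (by omega)]
    rw [e]
  · simp only [pt, e0, e1, sK, hT, pS] at *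
    obtain ⟨v1, v2, v3⟩ := hv
    obtain ⟨l1, l2⟩ := hl.ul g hg v1 v2 v3
    have k1 := (l2 y (by omega) (by omega)).2
    have e : ps D p x y = 2 * D.h + 1 - y := by
      unfold ps
      rw [if_neg (by omega), if_neg (by omega), if_pos (by omega)]
    rw [e]
    exact rep_l hcut (Y0 := g) (Y1 := g + n) (by omega) (by omega)
      (fun v h3 h4 => (l2 v (by omega) h4).1) (by omega) (by omega)
  · simp only [pt, e0, e1, sK, hT, pS] at *
    subst hv
    have e : ps D p x y = D.h + 1 := by
      unfold ps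
      rw [if_neg (by omega), if_pos (by omega)]
    rw [e]

end Pool.Agent.H60.W.N
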