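import Pool.Agent.H60.W.RunR
import Pool.Agent.H54.W.Flat
import Pool.Agent.H95.W.BdV
import Pool.Agent.H20.Q1.BDj
import Pool.Agent.H20.Q1.BDf
import Pool.Agent.H20.Sp.BdW

set_option autoImplicit false
open Finset

/-! # Uniform bound for an abstract functional on the ties of a window with a flat right wall

`seg_far` : no far labels near the deep points of a segment. `flat_seg` : deep ties are flat. `bd_win'` : for
every functional `V ω P` of the layer and the ties with `VTog`, bounded by `M`, the total with weights near one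
or between zero and one is at most `K M` (successor of `H95/W/BdWin`; `Multi` is a hypothesis). -/

namespace Pool.Agent.H60.W.N

open Pool.Agent.H75.Perc hiding ph
open Pool.Agent.H75.TwoArm Pool.Agent.Q1 Pool.Agent.H33.Q1 Pool.Agent.Q1.M6b
open Pool.Agent.H75.Four hiding ev
open Pool.Agent.H69.Q1
open Pool.Agent.H54.W (Win)
open Pool.Agent.H54.W.N (FlatBox ev_bt hS_bt flatX)
open Pool.Agent.H54.Sp (hS cS Sq eS dS)
open Pool.Agent.H46.Sp (nxt nxt_le nxt_mem le_nxt not_lev)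
open Pool.Agent.H72.W.N
open Pool.Agent.H42.Sp (Sd Ix kt rt)
open Pool.Agent.H13.R45 (ev gp ev_true ev_false)
open Pool.Agent.H39.Q1 hiding OutF
open Pool.Agent.H20.Q1
open Pool.Agent.Q1.M6c Pool.Agent.H99.NC
open Pool.Agent.H15.W (VTog TotV)
open Pool.Agent.H95.W (tot_bdV)

variable {D : Win} {p : Bool} {G : Finset ℤ} {g n r x y u v t s0 m : ℤ} {i : Fin 6} {s : Sd} {c : Bool}
  {O : OutB D}

/-- **No far labels near a segment.** -/
theorem seg_far (hG : Lev D G) (hF : Fat D n) (hO : Ports O n) (hv : Val D G i g) (_hr0 : 0 ≤ r)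
    (hr : r + 3 ≤ n) (h0 : e0 D p i g + r + 1 ≤ u) (h1 : u + r + 1 ≤ e1 D p G i g)
    (hx : (pt D p i g u).1 - r ≤ x ∧ x < (pt D p i g u).1 + r)
    (hy : (pt D p i g u).2 - r ≤ y ∧ y < (pt D p i g u).2 + r) : lt (x, y) ∉ O.Wo := by
  intro hW
  obtain ⟨hg, hv⟩ := hv
  have lo := hG.lo g hg
  have hi := hG.hi g hg
  have hs := sh_nonneg p
  have hs1 := sh_le p
  have hhh := D.hh
  have hlw : D.lo + n ≤ D.w := by
    have := D.hlo 0 le_rfl (by omega)
    have := hF.row 0 le_rfl (by omega)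
    omega
  fin_cases i
  · simp only [pt, e0, e1] at *
    have k2 := hG.nxt_h (g := g) (by omega)
    have k3 := hF.row g lo (by omega)
    have k4 := D.hlo g lo (by omega)
    have hin : InL D n x y := by unfold InL; omega
    rcases hO x y hin hW with ⟨a1, a2, a3, a4⟩ | ⟨a1, a2, a3, a4⟩
    · apply a4
      rw [colp_l (by omega) (by omega), show 2 * D.h + 2 - y = 2 * D.h + 1 - (y - 1) by ring,
        colp_l (by omega) (by omega), hG.cl_eq (y := y) hg (by omega) (by omega),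
        hG.cl_eq (y := y - 1) hg (by omega) (by omega)]
    · omega
  · simp only [pt, e0, e1] at *
    have k2 := hG.nxt_h (g := g) (by omega)
    have hin : InL D n x y := by unfold InL; omega
    rcases hO x y hin hW with ⟨a1, a2, a3, a4⟩ | ⟨a1, a2, a3, a4⟩
    · omega
    · apply a4
      rw [colp_r (by omega) (by omega), show y + 2 = (y + 1) + 1 by ring,
        colp_r (by omega) (by omega), hv.2 y (by omega) (by omega),
        hv.2 (y + 1) (by omega) (by omega)]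
  · simp only [pt, e0, e1] at *
    have k1 := D.hlo g lo (by omega)
    have k2 := D.aw (g - 1) (by omega) (by omega)
    have hin : InL D n x y := by unfold InL; omega
    rcases hO x y hin hW with ⟨a1, a2, a3, a4⟩ | ⟨a1, a2, a3, a4⟩ <;> omega
  · simp only [pt, e0, e1] at *
    subst hv
    have k1 := D.hlo 0 le_rfl (by omega)
    have hin : InL D n x y := by unfold InL; omega
    rcases hO x y hin hW with ⟨a1, a2, a3, a4⟩ | ⟨a1, a2, a3, a4⟩ <;> omega
  · simp only [pt, e0, e1] at *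
    have k1 := D.hlo (g - 1) (by omega) (by omega)
    have k2 := D.aw g (by omega) (by omega)
    have hin : InL D n x y := by unfold InL; omega
    rcases hO x y hin hW with ⟨a1, a2, a3, a4⟩ | ⟨a1, a2, a3, a4⟩ <;> omega
  · simp only [pt, e0, e1] at *
    subst hv
    have k1 := D.hlo (D.h - 1) (by omega) (by omega)
    have hin : InL D n x y := by unfold InL; omega
    rcases hO x y hin hW with ⟨a1, a2, a3, a4⟩ | ⟨a1, a2, a3, a4⟩ <;> omega

lemma eps_eq (s : Sd) : eps s = eS s := by cases s <;> rfl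

/-- **Deep ties are flat.** -/
theorem flat_seg {S : Finset (ℤ × ℤ)} {R : ℤ} (hS : S ⊆ FR D p) (hcut : colp D (s0 - 1) ≠ colp D s0)
    (hG : Lev D G) (hF : Fat D n) (hl : Ldg D G n) (hO : Ports O n) (hv : Val D G i g)
    (hR : 0 ≤ R) (hm : 2 * R + 1 ≤ m) (hn : 2 * R + 7 ≤ n) (h0 : e0 D p i g + 2 * R + 4 ≤ u)
    (h1 : u + 2 * R + 4 ≤ e1 D p G i g) (h2 : ev (pt D p i g u) = colp D (aS D s0 i g)) :
    FlatL (WA O p S) (EN D p) (TA D p) (TF (TA D p) (fmA D p s0) (aS D s0 i g))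
      (WlA D p s0 n S (aS D s0 i g)) (LaA D p s0 m (aS D s0 i g)) (bA D p) (oA D p)
      (colp D (aS D s0 i g)) (eps (sK i)) (dS (colp D (aS D s0 i g))) (gp (pt D p i g u)) R := by
  rw [eps_eq]
  refine flatX (seg_box (r := 2 * R + 4) hcut hG hF hl hv (by omega) (by omega) (by omega)) h2 hS hm
    (by omega) fun _ x y hx => ?_
  exact seg_far (r := 2 * R) hG hF hO hv (by omega) (by omega) (by omega) (by omega) hx.1 hx.2

/-- frozen ties outside of the box -/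
lemma flatL_frz {W Bb TT T Wi L F F1 : Finset (ℤ × ℤ)} {b o : ℤ × ℤ → ℤ × ℤ} {c : Bool} {ε : Bool × Bool}
    {δ w : ℤ × ℤ} {R : ℤ} (h : FlatL W Bb TT T Wi L b o c ε δ w R)
    (h1 : ∀ l ∈ F1, lm c ε l ∉ BR (gm ε w) R) :
    FlatL (W ∪ F1) Bb (TT \ F) T Wi L b o c ε δ w R where
  hδ := h.hδ
  la := h.la
  xe l hl hb := by
    refine h.xe l ?_ hb
    rcases mem_union.1 hl with h2 | h2
    · exact mem_union_left _ h2
    · obtain ⟨h3, h4⟩ := mem_sdiff.1 h2
      exact mem_union_right _ (mem_sdiff.2 ⟨(mem_sdiff.1 h3).1, h4⟩)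
  tie := h.tie
  ends := h.ends
  wl := h.wl
  wf := h.wf
  wu := h.wu
  w l hl := by
    have h2 := h.w l hl
    split_ifs at h2 ⊢ with hc
    · intro h3
      rcases mem_union.1 h3 with h4 | h4
      · exact h2 h4
      · exact absurd hl (h1 l h4)
    · exact fun h3 h4 => mem_union_left _ (h2 h3 h4)

/-- the ties in the box around a deep point of a segment belong to its arc -/
theorem box_fm (hcut : colp D (s0 - 1) ≠ colp D s0) (hG : Lev D G) (hF : Fat D n) (hl : Ldg D G n)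
    (hv : Val D G i g) {R : ℤ} (_hR : 0 ≤ R) (hn : 2 * R + 4 ≤ n) (h0 : e0 D p i g + 2 * R + 4 ≤ u)
    (h1 : u + 2 * R + 4 ≤ e1 D p G i g) (h2 : ev (pt D p i g u) = colp D (aS D s0 i g)) :
    ∀ l ∈ TA D p, lm (colp D (aS D s0 i g)) (eps (sK i)) l ∈ BR (gm (eps (sK i)) (gp (pt D p i g u))) R →
      fmA D p s0 l = aS D s0 i g := by
  intro l hl2 hb
  have hB := seg_box (p := p) (s0 := s0) (u := u) (r := 2 * R + 4) hcut hG hF hl hv (by omega) (by omega)
    (by omega)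
  rw [eps_eq] at hb
  obtain ⟨x, y, rfl, hq, -⟩ := Pool.Agent.H54.Sp.box_sq h2 hb
  obtain ⟨s, c, ht⟩ := mem_TA.1 hl2
  have h3 := (hB.tie (s' := s) (c := c) (hq.mono (by omega))).1 ht
  rw [ht.fm]
  obtain ⟨rfl, -, h4, -⟩ := h3
  unfold Sq at hq
  refine hB.arc _ _ ?_ ?_
  · unfold Sq; cases hk : sK i <;> simp only [dr] <;> omega
  · rw [← hT_eq] at h4 ⊢
    cases hk : sK i <;> rw [hk] at h4 <;> simp only [dr, hT] at h4 ⊢ <;> omega

/-- **Natural windows at the scale `R`**, world `p`. -/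
structure WinP (η : ℝ) (n0 R : ℕ) {D : Win} (O : OutB D) (s0 N : ℤ) (G : Finset ℤ) (p : Bool) : Prop where
  N1 : η * R ≤ N
  lev : Lev D G
  right : RCol D G ∨ NoR D p
  card : G.card ≤ n0
  h2 : (D.h : ℝ) ≤ R / η
  w2 : ((D.w - D.lo : ℤ) : ℝ) ≤ R / η
  fat : Fat D N
  ldg : Ldg D G N
  cut : colp D (s0 - 1) ≠ colp D s0
  free : ∀ x y, InL D N x y → fillc D x y = false → lt (x, y) ∉ O.Wo
  port : Ports O N

lemma WinX.toP {η : ℝ} {n0 R : ℕ} {N : ℤ} (h : WinX η n0 R O s0 N G) (p : Bool) :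
    WinP η n0 R O s0 N G p where
  N1 := h.N1
  lev := h.lev
  right := h.right.imp_right fun h => h p
  card := h.card
  h2 := h.h2
  w2 := h.w2
  fat := h.fat
  ldg := h.ldg
  cut := h.cut
  free := h.free
  port := h.port

/-- **Uniform bound for complex weights near one**, abstract functional on the ties of a natural window. The
families of the ties `F` are frozen (`F1` : the open ones among them). -/
theorem bd_winF {η : ℝ} (hη : 0 < η) (n0 : ℕ) {Z : ℝ} (hZ : 0 ≤ Z) :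
    ∃ (K : ℝ) (R0 : ℕ), 0 ≤ K ∧ ∀ R : ℕ, R0 ≤ R → ∀ (D : Win) (O : OutB D) (s0 N : ℤ)
      (G : Finset ℤ) (p : Bool), WinP η n0 R O s0 N G p → ∀ S : Finset (ℤ × ℤ), S ⊆ FR D p →
      ∀ F F1 : Finset (ℤ × ℤ), F1 ⊆ F → F ⊆ TA D p →
      (∀ e ∈ F, ∀ e' ∈ TA D p, fmA D p s0 e' = fmA D p s0 e → e' ∈ F) →
      ∀ m : ℤ, ⌊η * R / 4⌋ ≤ m → ∀ X : Pool.Agent.Q1.Env,
      Multi X (WA O p S ∪ F1) (EN D p) (LBA D p (m + 1)) (TA D p \ F) (fmA D p s0) (colp D)
        (WlA D p s0 N S) (LaA D p s0 m) (bA D p) (oA D p) →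
      ∀ (V : Finset (ℤ × ℤ) → Finset (ℤ × ℤ) → ℂ) (M : ℝ) (s : ℤ × ℤ → ℂ),
      VTog V (WA O p S ∪ F1) (LBA D p (m + 1)) (TA D p \ F) (fmA D p s0) (colp D) (WlA D p s0 N S)
        (LaA D p s0 m) (bA D p) (oA D p) →
      (∀ ω ⊆ LBA D p (m + 1), ∀ P ⊆ TA D p \ F, ‖V ω P‖ ≤ M) →
      (∀ e ∈ TA D p \ F, Nr (Z * (R : ℝ) ^ (-(2 / 3) : ℝ)) (s e)) →
      ‖TotV V (LBA D p (m + 1)) (TA D p \ F) s‖ ≤ K * M := by
  obtain ⟨C2, hC2, hbd⟩ := tot_bdV
  set K : ℕ := 78 * (n0 + 1) with hK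
  obtain ⟨J, R2, hnum⟩ := bd_num (Z := Z) (C := C2 * 4 ^ K * 2 ^ K) hη hZ (by positivity)
  refine ⟨1 + K * (K * 2 ^ J), ⌈R2⌉₊, by positivity, ?_⟩
  intro R hR D O s0 N G p hX S hS' F F1 hF1 hFT hFF m hm1 X hMul V M s hV hM hs
  have hR2 : R2 ≤ R := Nat.ceil_le.1 hR
  obtain ⟨h16, hRp, Lr, k1, k2, k3⟩ := hnum R hR2
  have hG := hX.lev
  have hR' : RCol D G ∨ NoR D p := hX.right
  have hcut := hX.cut
  have m2 : (4 : ℤ) ≤ ⌊η * R / 4⌋ := by rw [Int.le_floor]; push_cast; linarith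
  have hN1 := hX.N1
  have hN4 : 4 * ⌊η * R / 4⌋ ≤ N := by
    have h1 : (⌊η * R / 4⌋ : ℝ) ≤ η * R / 4 := Int.floor_le _
    have : ((4 * ⌊η * R / 4⌋ : ℤ) : ℝ) ≤ N := by push_cast; linarith
    exact_mod_cast this
  have hJL : (R : ℝ) / η ≤ ((J * Lr : ℕ) : ℝ) := by push_cast; exact k2
  have hJLp : 0 < J * Lr := by
    have : (0 : ℝ) < ((J * Lr : ℕ) : ℝ) := lt_of_lt_of_le (by positivity) hJL
    exact_mod_cast this
  have hJ : 1 ≤ J := Nat.pos_of_mul_pos_right hJLp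
  have hL : 1 ≤ Lr := Nat.pos_of_mul_pos_left hJLp
  have hh : D.h ≤ 2 * (J * Lr) := by
    have : (D.h : ℝ) ≤ ((J * Lr : ℕ) : ℝ) := hX.h2.trans hJL
    have h3 : D.h ≤ ((J * Lr : ℕ) : ℤ) := by exact_mod_cast this
    push_cast at h3
    have h4 : (0 : ℤ) ≤ (J : ℤ) * Lr := by positivity
    linarith
  have hw : D.w - D.lo ≤ 2 * (J * Lr) := by
    have : ((D.w - D.lo : ℤ) : ℝ) ≤ ((J * Lr : ℕ) : ℝ) := hX.w2.trans hJL
    have h3 : D.w - D.lo ≤ ((J * Lr : ℕ) : ℤ) := by exact_mod_cast this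
    push_cast at h3
    have h4 : (0 : ℤ) ≤ (J : ℤ) * Lr := by positivity
    linarith
  have hcard := hX.card
  have hruns : ∀ i, RunsK (WA O p S ∪ F1) (EN D p) (TA D p \ F) (TF (TA D p \ F) (fmA D p s0) i)
      (WlA D p s0 N S i) (LaA D p s0 m i) (bA D p) (oA D p) (colp D i) Lr J K := by
    intro a
    by_cases hk : ∃ e ∈ F, fmA D p s0 e = a
    · obtain ⟨e, he, rfl⟩ := hk
      have e1 : TF (TA D p \ F) (fmA D p s0) (fmA D p s0 e) = ∅ := by
        refine eq_empty_iff_forall_notMem.2 fun e' he' => ?_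
        obtain ⟨a1, a2⟩ := mem_TF.1 he'
        exact (mem_sdiff.1 a1).2 (hFF e he e' (mem_sdiff.1 a1).1 a2)
      rw [e1]
      exact ⟨fun _ => ∅, fun e' he' => absurd he' (notMem_empty _), fun _ => RunsW.empty⟩
    · push Not at hk
      have e1 : TF (TA D p \ F) (fmA D p s0) a = TF (TA D p) (fmA D p s0) a := by
        ext e
        rw [mem_TF, mem_TF, mem_sdiff]
        exact ⟨fun h => ⟨h.1.1, h.2⟩, fun h => ⟨⟨h.1, fun h3 => hk e h3 h.2⟩, h.2⟩⟩
      rw [e1]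
      refine Pool.Agent.H20.Sp.RunsK.mono (runsK_R (c := 6) (n := N) (δ := dS (colp D a)) hcut hG hR'
        hX.fat hX.ldg (by norm_num) (by omega) hL hJ hh hw ?_) ?_
      · intro i g u ρ hv a1 a2 a3 a4 a5 a6
        have h1 := flat_seg (O := O) (m := m) (R := ρ + 1) hS' hcut hG hX.fat hX.ldg hX.port hv
          (by omega) (by omega) (by omega) (by omega) (by omega) a3
        have h2 := box_fm (R := ρ + 1) hcut hG hX.fat hX.ldg hv (by omega) (by omega) (by omega)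
          (by omega) a3
        rw [a4] at h1 h2
        exact flatL_frz h1 fun l hl hb => hk l (hF1 hl) (h2 l (hFT (hF1 hl)) hb)
      · have h3 : (6 : ℤ).toNat = 6 := rfl
        rw [h3, hK]
        omega
  have hfam := card_fam (p := p) (n := N) hcut hG hR' hX.fat hX.ldg (by omega)
  have key := hbd X (WA O p S ∪ F1) (EN D p) (LBA D p (m + 1)) (TA D p \ F)
    (fmA D p s0) (colp D) (WlA D p s0 N S) (LaA D p s0 m) (bA D p) (oA D p)
    s V Lr J K K M (Z * (R : ℝ) ^ (-(2 / 3) : ℝ)) ((TA D p).image (fmA D p s0))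
    (fun e he => mem_image_of_mem _ (mem_sdiff.1 he).1) ?_ (by omega) hMul hV hruns (by positivity) hM
    hs k3
  · refine key.trans (le_of_eq ?_)
    ring
  · omega

/-- **The same without frozen families.** -/
theorem bd_win' {η : ℝ} (hη : 0 < η) (n0 : ℕ) {Z : ℝ} (hZ : 0 ≤ Z) :
    ∃ (K : ℝ) (R0 : ℕ), 0 ≤ K ∧ ∀ R : ℕ, R0 ≤ R → ∀ (D : Win) (O : OutB D) (s0 N : ℤ)
      (G : Finset ℤ) (p : Bool), WinP η n0 R O s0 N G p → ∀ S : Finset (ℤ × ℤ), S ⊆ FR D p →
      ∀ m : ℤ, ⌊η * R / 4⌋ ≤ m → ∀ X : Pool.Agent.Q1.Env,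
      Multi X (WA O p S) (EN D p) (LBA D p (m + 1)) (TA D p) (fmA D p s0) (colp D)
        (WlA D p s0 N S) (LaA D p s0 m) (bA D p) (oA D p) →
      ∀ (V : Finset (ℤ × ℤ) → Finset (ℤ × ℤ) → ℂ) (M : ℝ) (s : ℤ × ℤ → ℂ),
      VTog V (WA O p S) (LBA D p (m + 1)) (TA D p) (fmA D p s0) (colp D) (WlA D p s0 N S)
        (LaA D p s0 m) (bA D p) (oA D p) →
      (∀ ω ⊆ LBA D p (m + 1), ∀ P ⊆ TA D p, ‖V ω P‖ ≤ M) →
      (∀ e ∈ TA D p, Nr (Z * (R : ℝ) ^ (-(2 / 3) : ℝ)) (s e)) →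
      ‖TotV V (LBA D p (m + 1)) (TA D p) s‖ ≤ K * M := by
  obtain ⟨K, R0, hK, h⟩ := bd_winF hη n0 hZ
  refine ⟨K, R0, hK, fun R hR D O s0 N G p hX S hS m hm X hMul V M s hV hM hs => ?_⟩
  have key := h R hR D O s0 N G p hX S hS ∅ ∅ (Subset.refl _) (empty_subset _)
    (fun e he => absurd he (notMem_empty _)) m hm X
  rw [union_empty, sdiff_empty] at key
  exact key hMul V M s hV hM hs

end Pool.Agent.H60.W.N
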