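import Mathlib
import Pool.Agent.H60.W.BdR
import Pool.Agent.H2.W.Mult

set_option autoImplicit false
open Finset

/-!
# The uniform bound with helper2's `multiA`

`bd_winM` : `bd_win` for one world, the inputs `Multi` are proved by `multiA`.
-/

namespace Pool.Agent.H60.W.N

open Pool.Agent.H75.Perc
open Pool.Agent.H33.Q1 (lt)
open Pool.Agent.H54.W (Win)
open Pool.Agent.H72.W.N
open Pool.Agent.H20.Q1
open Pool.Agent.H15.W (VTog TotV)

variable {D : Win} {p : Bool} {m : ℤ}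

lemma lba_sub : LBA D p m ⊆ EN D p := by
  intro e he
  obtain ⟨x, y, rfl⟩ := Pool.Agent.H74.R45.exists_lt (odd_TB he)
  exact mem_EN.2 (mem_LBA.1 he).1

/-- **Uniform bound for complex weights near one**, abstract functional on the ties of a natural window. -/
theorem bd_winM {η : ℝ} (hη : 0 < η) (n0 : ℕ) {Z : ℝ} (hZ : 0 ≤ Z) :
    ∃ (K : ℝ) (R0 : ℕ), 0 ≤ K ∧ ∀ R : ℕ, R0 ≤ R → ∀ (D : Win) (O : OutB D) (s0 N : ℤ)
      (G : Finset ℤ) (p : Bool), WinP η n0 R O s0 N G p → ∀ S : Finset (ℤ × ℤ), S ⊆ FR D p →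
      ∀ m : ℤ, ⌊η * R / 4⌋ ≤ m →
      ∀ (V : Finset (ℤ × ℤ) → Finset (ℤ × ℤ) → ℂ) (M : ℝ) (s : ℤ × ℤ → ℂ),
      VTog V (WA O p S) (LBA D p (m + 1)) (TA D p) (fmA D p s0) (colp D) (WlA D p s0 N S)
        (LaA D p s0 m) (bA D p) (oA D p) →
      (∀ ω ⊆ LBA D p (m + 1), ∀ P ⊆ TA D p, ‖V ω P‖ ≤ M) →
      (∀ e ∈ TA D p, Nr (Z * (R : ℝ) ^ (-(2 / 3) : ℝ)) (s e)) →
      ‖TotV V (LBA D p (m + 1)) (TA D p) s‖ ≤ K * M := by
  obtain ⟨K, R0, hK, h⟩ := bd_win' hη n0 hZ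
  refine ⟨K, max R0 ⌈8 / η⌉₊, hK, fun R hR D O s0 N G p hX S hS m hm V M s hV hM hs => ?_⟩
  have hR1 : 8 / η ≤ R := (Nat.le_ceil _).trans (by exact_mod_cast (le_max_right _ _).trans hR)
  have hRη : 8 ≤ η * R := by
    rw [div_le_iff₀ hη] at hR1
    linarith
  have hN : (5 : ℤ) ≤ N := by
    have h1 : (8 : ℝ) ≤ N := hRη.trans hX.N1
    have : (8 : ℤ) ≤ N := by exact_mod_cast h1
    omega
  have hm0 : 0 ≤ m := by
    refine le_trans ?_ hm
    rw [Int.le_floor]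
    push_cast
    linarith
  exact h R ((le_max_left _ _).trans hR) D O s0 N G p hX S hS m hm (XA O p S hS)
    (multiA hS hN hX.free hm0 (Subset.refl _) lba_sub) V M s hV hM hs

end Pool.Agent.H60.W.N
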