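import Mathlib
import Pool.Agent.H60.W.BdM
import Pool.Agent.H95.W.N.ArcC
import Pool.Agent.H72.W.NRef
import Pool.Agent.H15.W.C.OutR

set_option autoImplicit false
open Finset

/-!
# Coarse windows are natural windows at the scale `R`

`levC n H` : the rows next to the horizontal lines of the polyomino. `lev_C`, `fat_C`, `ldg_C` : levels, fatness and
ledges of a coarse window. `winP_C` : `WinP` for a coarse window. `winP_ref` : for the reference window in the world
`false`.
-/

namespace Pool.Agent.H60.W.N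

open Pool.Agent.H33.Q1 (lt)
open Pool.Agent.H54.W (Win)
open Pool.Agent.H72.W.N
open Pool.Agent.H95.W.N

variable {D : Win} {n H N s0 g y : ℤ} {A B : ℤ → ℤ} {CL : ℤ → Bool} {p : Bool} {O : OutB D}

/-- the rows next to the horizontal lines -/
noncomputable def levC (n H : ℤ) : Finset ℤ :=
  ((Icc 0 H ×ˢ Icc (-1) 1).image fun q : ℤ × ℤ => n * q.1 + q.2).filter fun g => 0 ≤ g ∧ g ≤ n * H

lemma mem_levC : g ∈ levC n H ↔ (∃ Y j : ℤ, (0 ≤ Y ∧ Y ≤ H) ∧ (-1 ≤ j ∧ j ≤ 1) ∧ n * Y + j = g) ∧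
    0 ≤ g ∧ g ≤ n * H := by
  unfold levC
  simp only [mem_filter, mem_image, mem_product, mem_Icc, Prod.exists]
  constructor
  · rintro ⟨⟨Y, j, ⟨h1, h2⟩, h3⟩, h4⟩
    exact ⟨⟨Y, j, h1, h2, h3⟩, h4⟩
  · rintro ⟨⟨Y, j, h1, h2, h3⟩, h4⟩
    exact ⟨⟨Y, j, ⟨h1, h2⟩, h3⟩, h4⟩

lemma card_levC (hH : 0 ≤ H) : ((levC n H).card : ℤ) ≤ 3 * (H + 1) := by
  have h1 : (levC n H).card ≤ (Icc 0 H ×ˢ Icc (-1 : ℤ) 1).card :=
    (card_filter_le _ _).trans card_image_le
  rw [card_product, Int.card_Icc, Int.card_Icc] at h1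
  have h2 : ((H + 1 - 0).toNat : ℤ) = H + 1 := by rw [Int.toNat_of_nonneg (by omega)]; ring
  have h3 : ((1 + 1 - (-1)).toNat : ℤ) = 3 := by norm_num
  have h4 : ((levC n H).card : ℤ) ≤ ((H + 1 - 0).toNat : ℤ) * ((1 + 1 - (-1)).toNat : ℤ) := by
    exact_mod_cast h1
  rw [h2, h3] at h4
  linarith

section

variable (C : Coarse D n H A B)

include C

/-- row of cells and position -/
lemma cellOf (h0 : 0 ≤ y) (h1 : y < D.h) : ∃ Y j, y = n * Y + j ∧ 0 ≤ j ∧ j < n ∧ 0 ≤ Y ∧ Y < H ∧
    y / n = Y ∧ (0 < j → j + 1 < n → D.a y = n * A Y) ∧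
    (j = 0 → D.a y = n * A Y ∨ (D.a y = n * A Y - 1 ∧ 0 < Y ∧ A (Y - 1) < A Y)) ∧
    (j = n - 1 → D.a y = n * A Y ∨ (D.a y = n * A Y - 1 ∧ Y + 1 < H ∧ A (Y + 1) < A Y)) := by
  have hn := C.pos
  have hn8 := C.hn
  have e := Int.emod_add_mul_ediv y n
  have e1 := Int.emod_nonneg y hn.ne'
  have e2 := Int.emod_lt_of_pos y hn
  obtain ⟨r1, r2⟩ := C.row h0 h1
  refine ⟨y / n, y % n, by linarith, e1, e2, r1, r2, rfl, fun k1 k2 => ?_, fun k => ?_, fun k => ?_⟩
  · rcases C.a y h0 h1 with h | ⟨-, ⟨h, -⟩ | ⟨h, -⟩⟩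
    · exact h
    · omega
    · omega
  · rcases C.a y h0 h1 with h | ⟨h2, ⟨h, -⟩ | ⟨-, h3, h4⟩⟩
    · exact Or.inl h
    · omega
    · exact Or.inr ⟨h2, h3, h4⟩
  · rcases C.a y h0 h1 with h | ⟨h2, ⟨-, h3, h4⟩ | ⟨h, -⟩⟩
    · exact Or.inl h
    · exact Or.inr ⟨h2, h3, h4⟩
    · omega

/-- the rows of a cell row -/
lemma cell_row {Y j : ℤ} (h0 : 0 ≤ Y) (h1 : Y < H) (h2 : 0 ≤ j) (h3 : j < n) :
    0 ≤ n * Y + j ∧ n * Y + j < D.h ∧ (n * Y + j) / n = Y := by
  have hn := C.pos
  have k1 : 0 ≤ n * Y := mul_nonneg hn.le h0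
  have k2 : n * (Y + 1) ≤ n * H := mul_le_mul_of_nonneg_left (by omega) hn.le
  rw [mul_add, mul_one, ← C.hh] at k2
  refine ⟨by omega, by omega, ?_⟩
  rw [add_comm, Int.add_mul_ediv_left _ _ hn.ne', Int.ediv_eq_zero_of_lt h2 h3, zero_add]

/-- the left end of the inner rows of a cell row -/
lemma a_mid {Y j : ℤ} (h0 : 0 ≤ Y) (h1 : Y < H) (h2 : 0 < j) (h3 : j + 1 < n) :
    D.a (n * Y + j) = n * A Y := by
  obtain ⟨k1, k2, k3⟩ := cell_row C h0 h1 h2.le (by omega : j < n)
  obtain ⟨Y', j', e1, e2, e3, e4, e5, e6, e7, -, -⟩ := cellOf C k1 k2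
  have : Y' = Y := by rw [← e6, k3]
  subst this
  exact e7 (by omega) (by omega)

/-- the left end of a row of a cell row -/
lemma a_cell {Y j : ℤ} (h0 : 0 ≤ Y) (h1 : Y < H) (h2 : 0 ≤ j) (h3 : j < n) :
    n * A Y - 1 ≤ D.a (n * Y + j) ∧ D.a (n * Y + j) ≤ n * A Y := by
  obtain ⟨k1, k2, k3⟩ := cell_row C h0 h1 h2 h3
  have := C.a_le k1 k2
  rwa [k3] at this

theorem lev_C : Lev D (levC n H) where
  a := by
    intro y h0 h1 hG
    have hn8 := C.hn
    obtain ⟨Y, j, e1, e2, e3, e4, e5, e6, e7, -, -⟩ := cellOf C h0.le h1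
    have hh := C.hh
    have j1 : 2 ≤ j := by
      by_contra hc
      exact hG (mem_levC.2 ⟨⟨Y, j, ⟨e4, by omega⟩, ⟨by omega, by omega⟩, e1.symm⟩, h0.le, by omega⟩)
    have j2 : j + 1 < n := by
      by_contra hc
      refine hG (mem_levC.2 ⟨⟨Y + 1, -1, ⟨by omega, by omega⟩, ⟨by omega, by omega⟩, ?_⟩, h0.le, by omega⟩)
      rw [mul_add]
      omega
    rw [e7 (by omega) j2]
    have := a_mid C e4 e5 (j := j - 1) (by omega) (by omega)
    rw [show n * Y + (j - 1) = y - 1 by omega] at this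
    rw [this]
  zero := mem_levC.2 ⟨⟨0, 0, ⟨le_rfl, C.HH.le⟩, ⟨by omega, by omega⟩, by ring⟩, le_rfl,
    mul_nonneg C.pos.le C.HH.le⟩
  h := mem_levC.2 ⟨⟨H, 0, ⟨C.HH.le, le_rfl⟩, ⟨by omega, by omega⟩, by rw [C.hh]; ring⟩,
    by rw [C.hh]; exact mul_nonneg C.pos.le C.HH.le, by rw [C.hh]⟩
  lo := fun g hg => (mem_levC.1 hg).2.1
  hi := fun g hg => by rw [C.hh]; exact (mem_levC.1 hg).2.2

theorem fat_C (hN : 1 ≤ N) (hNn : N + 2 ≤ n) : Fat D N where
  row := by
    intro y h0 h1
    have hn8 := C.hn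
    obtain ⟨Y, j, e1, e2, e3, e4, e5, e6, -⟩ := cellOf C h0 h1
    have k1 := a_cell C e4 e5 e2 e3
    rw [← e1] at k1
    have k2 := C.b y h0 h1
    rw [e6] at k2
    have k3 := C.AB Y e4 e5
    have k4 : n * (A Y + 1) ≤ n * B Y := mul_le_mul_of_nonneg_left (by omega) (by omega)
    rw [mul_add, mul_one] at k4
    omega
  col := by
    intro x y h0 h1 h2 h3
    have hn8 := C.hn
    have hn := C.pos
    obtain ⟨Y, j, e1, e2, e3, e4, e5, e6, e7, e8, e9⟩ := cellOf C h0 h1
    by_cases hx : n * A Y ≤ x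
    · refine ⟨max (n * Y) (y - N + 1), by omega, by omega, fun z z1 z2 => ?_⟩
      have k1 := cell_row C e4 e5 (j := z - n * Y) (by omega) (by omega)
      have k2 := a_cell C e4 e5 (j := z - n * Y) (by omega) (by omega)
      rw [add_sub_cancel] at k1 k2
      exact ⟨k1.1, k1.2.1, by omega⟩
    · by_cases j0 : j = 0
      · rcases e8 j0 with k | ⟨k1, k2, k3⟩
        · omega
        · have k4 : n * (A (Y - 1) + 1) ≤ n * A Y := mul_le_mul_of_nonneg_left (by omega) hn.le
          rw [mul_add, mul_one] at k4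
          refine ⟨y - N + 1, by omega, by omega, fun z z1 z2 => ?_⟩
          by_cases z3 : z = y
          · rw [z3]; exact ⟨h0, h1, h2⟩
          have e : n * (Y - 1) = n * Y - n := by ring
          have k5 := cell_row C (Y := Y - 1) (by omega) (by omega) (j := z - n * (Y - 1)) (by omega)
            (by omega)
          have k6 := a_cell C (Y := Y - 1) (by omega) (by omega) (j := z - n * (Y - 1)) (by omega)
            (by omega)
          rw [add_sub_cancel] at k5 k6
          exact ⟨k5.1, k5.2.1, by omega⟩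
      · by_cases j1 : j = n - 1
        · rcases e9 j1 with k | ⟨k1, k2, k3⟩
          · omega
          · have k4 : n * (A (Y + 1) + 1) ≤ n * A Y := mul_le_mul_of_nonneg_left (by omega) hn.le
            rw [mul_add, mul_one] at k4
            refine ⟨y, by omega, by omega, fun z z1 z2 => ?_⟩
            by_cases z3 : z = y
            · rw [z3]; exact ⟨h0, h1, h2⟩
            have e : n * (Y + 1) = n * Y + n := by ring
            have k5 := cell_row C (Y := Y + 1) (by omega) (by omega) (j := z - n * (Y + 1)) (by omega)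
              (by omega)
            have k6 := a_cell C (Y := Y + 1) (by omega) (by omega) (j := z - n * (Y + 1)) (by omega)
              (by omega)
            rw [add_sub_cancel] at k5 k6
            exact ⟨k5.1, k5.2.1, by omega⟩
        · have := e7 (by omega) (by omega)
          omega

end

theorem ldg_C (hC : CoarseC D n H A B CL) (hN : 1 ≤ N) (hNn : N + 2 ≤ n) : Ldg D (levC n H) N where
  fl := by
    intro g hg h0 h1 hlt
    have C := hC.toCoarse
    have hn8 := C.hn
    have hn := C.pos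
    obtain ⟨Y, j, e1, e2, e3, e4, e5, e6, e7, e8, e9⟩ := cellOf C h0.le h1
    obtain ⟨Y', j', f1, f2, f3, f4, f5, f6, f7, f8, f9⟩ := cellOf C (y := g - 1) (by omega) (by omega)
    by_cases j0 : j = 0
    · -- the last row of the cell row below
      have hY : Y' = Y - 1 ∧ j' = n - 1 := by
        have hh1 : (g - 1) / n = Y - 1 := by
          rw [show g - 1 = (n - 1) + n * (Y - 1) by rw [e1, j0]; ring, Int.add_mul_ediv_left _ _ hn.ne',
            Int.ediv_eq_zero_of_lt (by omega) (by omega), zero_add]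
        have : Y' = Y - 1 := by rw [← f6, hh1]
        subst this
        refine ⟨rfl, ?_⟩
        have e : n * (Y - 1) = n * Y - n := by ring
        omega
      obtain ⟨hY1, hj1⟩ := hY
      subst hY1
      have e : n * (Y - 1) = n * Y - n := by ring
      have ey : n * 1 ≤ n * Y := mul_le_mul_of_nonneg_left (by omega) hn.le
      refine ⟨by omega, fun y y1 y2 => ?_⟩
      have k5 := cell_row C (Y := Y - 1) f4 f5 (j := y - n * (Y - 1)) (by omega) (by omega)
      rw [add_sub_cancel] at k5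
      have k6 := cell_row C (Y := Y - 1) f4 f5 (j := n - 1) (by omega) (by omega)
      refine ⟨?_, ?_⟩
      · rw [hC.cl y k5.1 k5.2.1, hC.cl (g - 1) (by omega) (by omega), k5.2.2, f6]
      · by_cases z : y = g - 1
        · rw [z]
        · have k7 := a_mid C (Y := Y - 1) f4 f5 (j := y - n * (Y - 1)) (by omega) (by omega)
          rw [add_sub_cancel] at k7
          have k8 := a_cell C (Y := Y - 1) f4 f5 (j := n - 1) (by omega) (by omega)
          rw [show n * (Y - 1) + (n - 1) = g - 1 by omega] at k8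
          omega
    · -- the same cell row
      have hY : Y' = Y ∧ j' = j - 1 := by
        have hh1 : (g - 1) / n = Y := by
          rw [show g - 1 = (j - 1) + n * Y by rw [e1]; ring, Int.add_mul_ediv_left _ _ hn.ne',
            Int.ediv_eq_zero_of_lt (by omega) (by omega), zero_add]
        have : Y' = Y := by rw [← f6, hh1]
        subst this
        exact ⟨rfl, by omega⟩
      obtain ⟨hY1, hj1⟩ := hY
      subst hY1
      have ha' := a_cell C e4 e5 (j := j - 1) (by omega) (by omega)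
      rw [show n * Y' + (j - 1) = g - 1 by omega] at ha'
      have jn : j = n - 1 := by
        by_contra hc
        have := e7 (by omega) (by omega)
        omega
      have ha := f7 (by omega) (by omega)
      have hy0 : 0 ≤ n * Y' := mul_nonneg hn.le e4
      refine ⟨by omega, fun y y1 y2 => ?_⟩
      have k5 := cell_row C e4 e5 (j := y - n * Y') (by omega) (by omega)
      have k7 := a_mid C e4 e5 (j := y - n * Y') (by omega) (by omega)
      rw [add_sub_cancel] at k5 k7
      refine ⟨?_, by omega⟩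
      rw [hC.cl y k5.1 k5.2.1, hC.cl (g - 1) (by omega) (by omega), k5.2.2, f6]
  ul := by
    intro g hg h0 h1 hlt
    have C := hC.toCoarse
    have hn8 := C.hn
    have hn := C.pos
    have hh := C.hh
    obtain ⟨Y, j, e1, e2, e3, e4, e5, e6, e7, e8, e9⟩ := cellOf C h0.le h1
    have ha := a_cell C e4 e5 e2 e3
    rw [← e1] at ha
    have ht : n * (Y + 1) ≤ n * H := mul_le_mul_of_nonneg_left (by omega) hn.le
    rw [mul_add, mul_one] at ht
    have key : ∀ y, g < y → y < n * Y + n - 1 → D.cl y = D.cl g ∧ D.a g ≤ D.a y := by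
      intro y y1 y2
      have k5 := cell_row C e4 e5 (j := y - n * Y) (by omega) (by omega)
      have k7 := a_mid C e4 e5 (j := y - n * Y) (by omega) (by omega)
      rw [add_sub_cancel] at k5 k7
      refine ⟨?_, by omega⟩
      rw [hC.cl y k5.1 k5.2.1, hC.cl g h0.le h1, k5.2.2, e6]
    have hj : j ≤ 1 := by
      by_contra hc
      have k7 := a_mid C e4 e5 (j := j - 1) (by omega) (by omega)
      rw [show n * Y + (j - 1) = g - 1 by omega] at k7
      omega
    refine ⟨by omega, fun y y1 y2 => ?_⟩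
    by_cases z : y = g
    · rw [z]; exact ⟨rfl, le_rfl⟩
    · exact key y (by omega) (by omega)

/-- **A coarse window is a natural window at the scale `R`.** -/
theorem winP_C {η : ℝ} {n0 R : ℕ} (hC : CoarseC D n H A B CL) (hcut : colp D (s0 - 1) ≠ colp D s0)
    (hR : NoR D p) (hO : OutOK O N) (h1 : η * R ≤ N) (hN : 1 ≤ N) (hNn : N + 2 ≤ n)
    (h2 : (D.h : ℝ) ≤ R / η) (w2 : ((D.w - D.lo : ℤ) : ℝ) ≤ R / η) (hH : 3 * (H + 1) ≤ n0) :
    WinP η n0 R O s0 N (levC n H) p where
  N1 := h1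
  lev := lev_C hC.toCoarse
  right := Or.inr hR
  card := by exact_mod_cast (card_levC (n := n) hC.HH.le).trans hH
  h2 := h2
  w2 := w2
  fat := fat_C hC.toCoarse hN hNn
  ldg := ldg_C hC hN hNn
  cut := hcut
  free := hO.free
  port := hO.port

/-- a coarse window and its reference window -/
theorem coarseC_ref {q : Bool} (hC : CoarseC D n H A B CL) : CoarseC (refD D q) n H A B CL where
  hn := hC.hn
  HH := hC.HH
  hh := hC.hh
  AB := hC.AB
  ov1 := hC.ov1
  ov2 := hC.ov2
  a := hC.a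
  b := hC.b
  cl := hC.cl

lemma noR_ref : NoR (refD D p) p := fun _ _ => not_CA_R _

/-- **The reference window of a coarse window**, world `p`, cut `2`, any good outside. -/
theorem winP_ref {η : ℝ} {n0 R : ℕ} {O : OutB (refD D p)} (hC : CoarseC D n H A B CL) (hO : OutOK O N)
    (h1 : η * R ≤ N) (hN : 1 ≤ N) (hNn : N + 2 ≤ n) (h2 : (D.h : ℝ) ≤ R / η)
    (w2 : ((D.w - D.lo : ℤ) : ℝ) ≤ R / η) (hH : 3 * (H + 1) ≤ n0) :
    WinP η n0 R O 2 N (levC n H) p :=
  winP_C (coarseC_ref hC) (cut_ref D.hh) noR_ref hO h1 hN hNn h2 w2 hH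

end Pool.Agent.H60.W.N
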