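import Mathlib
import Pool.Agent.H42.W.RefD
import Pool.Agent.H59.W.CrnW
import Pool.Agent.Q1.M6e.Wn.DatA

set_option autoImplicit false
open Finset

/-!
# The single wall reference (chart II): the wall in its frame

`y0`, `y1` : the lowest and the highest row of a tie. `v0`, `N` : first tied vertex and length in the frame `ep`.
`gm_b` : the inner ends in the frame. `fww` : the ties are the positions `wp 1 v0 t`, `0 ≤ t ≤ N`. `mem_L` : the
labels of the layer in the frame. `wallE` : the wall and its two convex ends. `wd` : the structure `WD`.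
-/

namespace Pool.Agent.H42.W.RB

open Pool.Agent.H75.Perc
open Pool.Agent.H33.Q1 (lt tt tt_lt lt_inj)
open Pool.Agent.H39.Q1 (TF mem_TF gm gm_gm sgb gm_inj lm lm_apply mem_lm tc mem_BRz)
open Pool.Agent.H60.Q1 (wp ht)
open Pool.Agent.H99.NC (inR inR_iff BR)
open Pool.Agent.H44.FM.AsmW (TW mem_TW)
open Pool.Agent.H59.W
open Pool.Agent.H59.Q1
open Pool.Agent.H39.R45 (vpi)
open Pool.Agent.H74.R45 (exists_lt)
open Pool.Agent.Q1.M6e (Lx)
open Pool.Agent.H23.TC (dG)

variable (D : RB)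

/-- one for an open wall -/
def k : ℤ := if D.c = true then 1 else 0

/-- lowest row of a tie -/
def y0 : ℤ := if D.c = true then D.w % 2 else 2 - D.w % 2

/-- highest row of a tie -/
def y1 : ℤ := if D.c = true then D.H - 2 - (D.H + D.w) % 2 else D.H - 1 - (D.H + 1 + D.w) % 2

/-- the frame -/
def ep (_ : Unit) : Bool × Bool := (true, true)

/-- the direction of the ties -/
def de (_ : Unit) : ℤ × ℤ := if D.c = true then (1, 0) else (0, 1)

/-- the first tied vertex -/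
def v0 (_ : Unit) : ℤ × ℤ := ((D.y0 + 2 * D.k - D.w) / 2, -((D.w + D.y0) / 2))

/-- the length of the wall -/
def N (_ : Unit) : ℤ := (D.y1 - D.y0) / 2

/-- the wall of a tie -/
def wl (_ : ℤ × ℤ) : Unit := ()

/-- the family of the wall -/
def fw (_ : Unit) : Unit := ()

variable {D} {x y t r : ℤ} {e l v : ℤ × ℤ} {i : Unit}

lemma k_cases : (D.c = true ∧ D.k = 1) ∨ (D.c = false ∧ D.k = 0) := by
  unfold k
  cases D.c <;> simp

/-- the rows of the ties -/
lemma y01 : (D.w + D.y0) % 2 = 0 ∧ (D.w + D.y1) % 2 = 0 ∧ 1 - D.k ≤ D.y0 ∧ D.y0 ≤ 2 - D.k ∧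
    D.H - 3 - (D.k - 1) ≤ D.y1 + 1 ∧ D.y1 ≤ D.H - 1 - D.k ∧ D.y0 ≤ D.y1 := by
  have := D.hH
  unfold y0 y1
  rcases k_cases (D := D) with ⟨h1, h2⟩ | ⟨h1, h2⟩ <;> rw [h1, h2] <;>
    simp only [if_true, Bool.false_eq_true, if_false] <;> omega

/-- the ties -/
lemma tp_iff : D.Tp x y ↔ x = D.w - 1 ∧ D.y0 ≤ y ∧ y ≤ D.y1 ∧ (D.w + y) % 2 = 0 := by
  have := D.hH
  unfold Tp y0 y1
  rcases k_cases (D := D) with ⟨h1, h2⟩ | ⟨h1, h2⟩ <;> rw [h1] <;>
    simp only [if_true, Bool.false_eq_true, if_false] <;> omega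

/-- a tie -/
lemma exists_TT (he : e ∈ D.TT) : ∃ y, e = lt (D.w - 1, y) ∧ D.y0 ≤ y ∧ y ≤ D.y1 ∧ (D.w + y) % 2 = 0 := by
  obtain ⟨x, y, rfl⟩ := exists_lt (odd_S he)
  obtain ⟨rfl, h1, h2, h3⟩ := tp_iff.1 (mem_TT.1 he)
  exact ⟨y, rfl, h1, h2, h3⟩

/-- inner ends in the frame -/
lemma gm_b (hy : (D.w + y) % 2 = 0) : gm (ep i) (D.b (lt (D.w - 1, y))) =
    ((y + 2 * D.k - D.w) / 2, -((D.w + y) / 2)) := by
  unfold gm ep sgb b lt
  rcases k_cases (D := D) with ⟨h1, h2⟩ | ⟨h1, h2⟩ <;> rw [h1, h2] <;>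
    simp only [if_true, Bool.false_eq_true, if_false] <;> refine Prod.ext ?_ ?_ <;> simp only <;> omega

/-- positions in the frame -/
lemma wp_eq (hy : y = D.y0 + 2 * t) : wp 1 (D.v0 i) t = ((y + 2 * D.k - D.w) / 2, -((D.w + y) / 2)) := by
  have := y01 (D := D)
  unfold wp v0
  refine Prod.ext ?_ ?_ <;> simp only <;> omega

lemma N_eq : D.y1 = D.y0 + 2 * D.N i := by
  have := y01 (D := D)
  unfold N
  omega

/-- **The ties of the wall.** -/
theorem fww : FWw D.TT fm D.b (D.La ()) () (ep ()) (TW D.TT wl ()) (D.v0 ()) (D.N ()) where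
  odd := fun l hl => odd_S hl
  sub := fun e he => mem_TF.2 ⟨(mem_TW.1 he).1, rfl⟩
  wall := by
    intro e he
    obtain ⟨y, rfl, h1, h2, h3⟩ := exists_TT (mem_TW.1 he).1
    have h4 := y01 (D := D)
    have h5 := N_eq (D := D) (i := ())
    refine ⟨(y - D.y0) / 2, by omega, ?_⟩
    rw [gm_b h3, wp_eq (y := y) (by omega)]
  full := by
    intro t h0 h1
    have h4 := y01 (D := D)
    have h5 := N_eq (D := D) (i := ())
    refine ⟨lt (D.w - 1, D.y0 + 2 * t), mem_TF.2 ⟨mem_TT.2 (tp_iff.2 ⟨rfl, by omega, by omega, by omega⟩),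
      rfl⟩, ?_⟩
    rw [gm_b (by omega), wp_eq rfl]
  inj := by
    intro e he e' he' h
    obtain ⟨y, rfl, h1, h2, h3⟩ := exists_TT (mem_TF.1 he).1
    obtain ⟨y', rfl, h1', h2', h3'⟩ := exists_TT (mem_TF.1 he').1
    have h4 := congrArg (gm (ep ())) h
    rw [gm_b h3, gm_b h3'] at h4
    simp only [Prod.mk.injEq] at h4
    have : y = y' := by omega
    rw [this]

/-- the layer in the frame -/
lemma mem_L : l ∈ Lx D.co D.La i (ep i) ↔ (l.1 + l.2) % 2 = 1 ∧
    2 * (D.k - D.w) ≤ l.1 + l.2 ∧ 0 ≤ l.1 - l.2 ∧ l.1 - l.2 ≤ 2 * D.H ∧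
    l.1 + l.2 + 2 * D.x0 + 7 ≤ 2 * D.k := by
  unfold Lx
  rw [mem_lm]
  obtain ⟨a, b⟩ := l
  constructor
  · intro h
    obtain ⟨x, y, h1⟩ := exists_lt (odd_S h)
    rw [h1, mem_La] at h
    unfold Ly at h
    unfold gm ep sgb tc co lt at h1
    rcases k_cases (D := D) with ⟨h3, h2⟩ | ⟨h3, h2⟩ <;> rw [h3] at h1 <;> rw [h2] <;>
      simp only [if_true, Bool.false_eq_true, if_false, Prod.ext_iff, Prod.fst_sub, Prod.snd_sub] at h1 ⊢ <;>
      omega
  · rintro ⟨h0, h1, h2, h3, h4⟩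
    simp only at h0 h1 h2 h3 h4
    have e1 : gm (ep i) (a, b) - tc (D.co i) =
        lt ((-(a + b) - 1 - 2 * (1 - D.k)) / 2, (a - b - 1) / 2) := by
      unfold gm ep sgb tc co lt
      rcases k_cases (D := D) with ⟨h5, h6⟩ | ⟨h5, h6⟩ <;> rw [h5, h6] <;>
        simp only [if_true, Bool.false_eq_true, if_false] <;> refine Prod.ext ?_ ?_ <;>
        simp only [Prod.fst_sub, Prod.snd_sub] <;> omega
    rw [e1, mem_La]
    unfold Ly
    rcases k_cases (D := D) with ⟨h5, h6⟩ | ⟨h5, h6⟩ <;> rw [h6] at h1 h4 ⊢ <;> omega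

/-- the tied vertices in the frame -/
lemma mem_V (h0 : v.1 + v.2 = D.k - D.w) (h1 : D.y0 + D.k ≤ v.1 - v.2) (h2 : v.1 - v.2 ≤ D.y1 + D.k) :
    v ∈ VI D.TT fm D.b i (ep i) := by
  rw [mem_VI]
  have h4 := y01 (D := D)
  obtain ⟨a, b⟩ := v
  simp only at h0 h1 h2
  refine ⟨lt (D.w - 1, a - b - D.k), mem_TF.2 ⟨mem_TT.2 (tp_iff.2 ⟨rfl, by omega, by omega, by omega⟩), rfl⟩, ?_⟩
  rw [gm_b (by omega)]
  refine Prod.ext ?_ ?_ <;> simp only <;> omega

/-- the straight wall -/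
lemma wallV {M : ℤ} (hM : 2 * M + D.x0 + 8 ≤ D.w) :
    WallV 1 (Lx D.co D.La () (ep ())) (VI D.TT fm D.b () (ep ())) (D.v0 ()) (D.N ()) M where
  wall :=
    { hκ := Or.inr rfl
      odd := fun l hl => (mem_L.1 hl).1
      flat := by
        intro t r h0 h1 h2 h3 l hl
        have h4 := y01 (D := D)
        have h5 := N_eq (D := D) (i := ())
        have hk := k_cases (D := D)
        rw [wp_eq (y := D.y0 + 2 * t) rfl] at hl
        have hb := mem_BRz.1 hl
        rw [mem_L]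
        unfold ht v0
        simp only at hb ⊢
        omega }
  hV := by
    intro t h0 h1
    have h4 := y01 (D := D)
    have h5 := N_eq (D := D) (i := ())
    rw [wp_eq (y := D.y0 + 2 * t) rfl]
    exact mem_V (by simp only; omega) (by simp only; omega) (by simp only; omega)

/-- **The wall and its two convex ends.** -/
theorem wallE {M : ℤ} (hM : 2 * M + D.x0 + 8 ≤ D.w) (hH : 4 * M + 16 ≤ D.H) :
    WallE (Lx D.co D.La () (ep ())) (VI D.TT fm D.b () (ep ())) (D.v0 ()) (D.N ()) M where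
  wall := wallV hM
  DN := by
    have h4 := y01 (D := D)
    have h5 := N_eq (D := D) (i := ())
    have hk := k_cases (D := D)
    omega
  ends := by
    intro τ hτ
    have h4 := y01 (D := D)
    have h5 := N_eq (D := D) (i := ())
    have hk := k_cases (D := D)
    refine ⟨wp 1 (D.v0 ()) τ, by simp, by simp, ?_⟩
    rw [wp_eq (y := D.y0 + 2 * τ) rfl]
    rcases hτ with rfl | rfl
    · refine .convex 1 (-1) (D.k - D.w) 0 (Or.inl rfl) (Or.inr rfl) ?_ ?_ ⟨?_, ?_⟩
      · rw [abs_le]; simp only; omega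
      · rw [abs_le]; simp only; omega
      · intro l h1 h2
        rw [mem_BRz] at h1
        rw [mem_L]
        unfold dG
        simp only at h1 ⊢
        omega
      · rintro y h1 h2 ⟨h3, h6⟩
        rw [inR_iff] at h1 h2
        simp only at h1 h2 h3 h6
        exact mem_V (by omega) (by omega) (by omega)
    · refine .convex 1 1 (D.k - D.w) (-D.H) (Or.inl rfl) (Or.inl rfl) ?_ ?_ ⟨?_, ?_⟩
      · rw [abs_le]; simp only; omega
      · rw [abs_le]; simp only; omega
      · intro l h1 h2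
        rw [mem_BRz] at h1
        rw [mem_L]
        unfold dG
        simp only at h1 ⊢
        omega
      · rintro y h1 h2 ⟨h3, h6⟩
        rw [inR_iff] at h1 h2
        simp only at h1 h2 h3 h6
        exact mem_V (by omega) (by omega) (by omega)

/-- **The structure `WD`.** -/
theorem wd {M : ℤ} {Q : ℝ} (hM : 2 * M + D.x0 + 8 ≤ D.w) (hH : 4 * M + 16 ≤ D.H)
    (hQ : (D.H : ℝ) ≤ 2 * (Q * M)) :
    WD D.Bb D.TT fm D.co D.La D.b wl fw ep D.v0 D.N M Q where
  dBT := by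
    rw [disjoint_left]
    intro e h1 h2
    obtain ⟨x, y, rfl⟩ := exists_lt (odd_S h1)
    rw [mem_Bb] at h1
    rw [mem_TT, tp_iff] at h2
    unfold Bd at h1
    omega
  laB := by
    intro i e he
    obtain ⟨x, y, rfl⟩ := exists_lt (odd_S he)
    rw [mem_La] at he
    rw [mem_Bb]
    unfold Ly at he
    unfold Bd
    omega
  fww := fun _ => fww
  we := fun _ => wallE hM hH
  sep := fun w w' h => absurd (Subsingleton.elim w w') h
  len := by
    intro w
    have h4 := y01 (D := D)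
    have h5 := N_eq (D := D) (i := w)
    have hk := k_cases (D := D)
    have h6 : 2 * D.N w ≤ D.H := by omega
    have h7 : (2 : ℝ) * D.N w ≤ D.H := by exact_mod_cast h6
    linarith

end Pool.Agent.H42.W.RB
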