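import Mathlib
import Pool.Agent.H60.W.RefW
import Pool.Agent.H60.W.C.Dat

set_option autoImplicit false
open Finset

/-!
# The single wall reference (chart II): `WallsV`

`flat` : the wall is flat around a deep tie. `FlT R` : the ties at distance at least `2 R + 9` from the ends of the
wall. `walls` : `WallsV`. `rk_inj`, `fin`, `cardF` : the other inputs of `InpV.flt`.
-/

namespace Pool.Agent.H42.W.RB

open Pool.Agent.H75.Perc
open Pool.Agent.H33.Q1 (lt tt tt_lt lt_inj)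
open Pool.Agent.H39.Q1 (TF mem_TF gm gm_gm sgb gm_inj lm lm_apply mem_lm tc mem_BRz FlatL hg bx mem_bx)
open Pool.Agent.H60.Q1 (wp ht)
open Pool.Agent.H99.NC (inR inR_iff BR)
open Pool.Agent.H44.FM.AsmW (TW mem_TW)
open Pool.Agent.H59.W
open Pool.Agent.H74.R45 (exists_lt)
open Pool.Agent.H49.W (WallsV)
open Pool.Agent.H60.W.N (walls_mkV)
open Pool.Agent.Q1.M6e.Wn (rkW rk_inj_mk)

variable {D : RB} {X Y y R : ℤ} {e l : ℤ × ℤ} {i : Unit} {Sg : Finset (ℤ × ℤ)}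

/-- labels of the box around an inner end -/
lemma box_iff (hy : (D.w + y) % 2 = 0) :
    lm D.c (ep i) (lt (X, Y)) ∈ BR (gm (ep i) (D.b (lt (D.w - 1, y)))) R ↔
      (y + D.k + 1 - D.w - 2 * R ≤ Y - X ∧ Y - X ≤ y + D.k + 1 - D.w + 2 * R) ∧
      (D.w + y + D.k - 2 - 2 * R ≤ X + Y ∧ X + Y ≤ D.w + y + D.k - 2 + 2 * R) := by
  rw [gm_b hy, mem_BRz, lm_apply]
  unfold gm ep sgb tc lt
  rcases k_cases (D := D) with ⟨h1, h2⟩ | ⟨h1, h2⟩ <;> rw [h1, h2] <;>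
    simp only [if_true, Bool.false_eq_true, if_false, Prod.fst_add, Prod.snd_add] <;> omega

/-- the height of a tile -/
lemma hg_eq (hy : (D.w + y) % 2 = 0) :
    hg (gm (ep i) (D.b (lt (D.w - 1, y)))) (lm D.c (ep i) (lt (X, Y))) = 2 * D.w - 2 * X - 3 := by
  rw [gm_b hy, lm_apply]
  unfold hg gm ep sgb tc lt
  rcases k_cases (D := D) with ⟨h1, h2⟩ | ⟨h1, h2⟩ <;> rw [h1, h2] <;>
    simp only [if_true, Bool.false_eq_true, if_false, Prod.fst_add, Prod.snd_add] <;> omega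

/-- the labels of the box are odd -/
lemma box_lt {v : ℤ × ℤ} (h : lm D.c (ep i) l ∈ BR v R) : ∃ X Y, l = lt (X, Y) := by
  refine exists_lt ?_
  have h1 := (mem_BRz.1 h).2.2
  rw [lm_apply] at h1
  unfold gm ep sgb tc at h1
  rcases k_cases (D := D) with ⟨h2, h3⟩ | ⟨h2, h3⟩ <;> rw [h2] at h1 <;>
    simp only [if_true, Bool.false_eq_true, if_false, Prod.fst_add, Prod.snd_add] at h1 <;> omega

lemma mem_TF' : l ∈ TF D.TT fm i ↔ l ∈ D.TT := by
  rw [mem_TF]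
  exact ⟨fun h => h.1, fun h => ⟨h, rfl⟩⟩

/-- **The wall is flat around a deep tie.** -/
theorem flat (hy : (D.w + y) % 2 = 0) (h0 : 2 * R + 3 ≤ y) (h1 : y + 2 * R + 4 ≤ D.H)
    (hx : 2 * R + D.x0 + 6 ≤ D.w) (hL : 2 * R + 2 ≤ D.L) :
    FlatL D.W D.Bb D.TT (TF D.TT fm ()) (D.Wl ()) (D.La ()) D.b D.o D.c (ep ()) (D.de ())
      (D.b (lt (D.w - 1, y))) R := by
  have hk := k_cases (D := D)
  have hr := y01 (D := D)
  have hx8 := D.hx
  have hH := D.hH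
  refine ⟨?_, ?_, ?_, ?_, ?_, ?_, ?_, ?_, ?_⟩
  · unfold de
    split_ifs
    · exact Or.inl rfl
    · exact Or.inr rfl
  · intro l hl
    obtain ⟨X, Y, rfl⟩ := box_lt hl
    rw [box_iff hy] at hl
    rw [hg_eq hy, mem_La]
    unfold Ly
    omega
  · intro l hm hl
    obtain ⟨X, Y, rfl⟩ := box_lt hl
    rw [hg_eq hy]
    rcases mem_union.1 hm with h2 | h2
    · rw [mem_Bb] at h2
      unfold Bd at h2
      omega
    · obtain ⟨h3, h4⟩ := mem_sdiff.1 h2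
      exact absurd (mem_TF'.2 h3) h4
  · intro l hl
    obtain ⟨X, Y, rfl⟩ := box_lt hl
    rw [box_iff hy] at hl
    rw [hg_eq hy, mem_TF', mem_TT, tp_iff]
    have e1 : (lm D.c (ep ()) (lt (X, Y)) + D.de ()).1 = Y - X - 1 + 2 * D.k := by
      rw [lm_apply]
      unfold gm ep sgb tc lt de
      rcases hk with ⟨h2, h3⟩ | ⟨h2, h3⟩ <;> rw [h2, h3] <;>
        simp only [if_true, Bool.false_eq_true, if_false, Prod.fst_add] <;> omega
    rw [e1]
    omega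
  · intro l hm hl
    obtain ⟨z, rfl, h2, h3, h4⟩ := exists_TT (mem_TF'.1 hm)
    unfold b o gm ep sgb tc lt de
    rcases hk with ⟨h5, h6⟩ | ⟨h5, h6⟩ <;> rw [h5] <;>
      simp only [if_true, Bool.false_eq_true, if_false, Prod.mk_add_mk, Prod.mk_sub_mk, Prod.mk.injEq] <;>
      omega
  · intro l hl
    obtain ⟨X, Y, rfl⟩ := box_lt hl
    rw [box_iff hy] at hl
    rw [hg_eq hy, mem_Wl]
    unfold Wp
    omega
  · intro _ l hl hh
    obtain ⟨X, Y, rfl⟩ := box_lt hl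
    rw [box_iff hy] at hl
    rw [hg_eq hy] at hh
    rw [mem_Wl]
    unfold Wp
    omega
  · intro l hm hl hh
    obtain ⟨X, Y, rfl⟩ := box_lt hl
    rw [hg_eq hy] at hh
    rw [mem_Wl] at hm
    have e1 : gm (ep ()) (lm D.c (ep ()) (lt (X, Y)) + (1, 1)) - tc D.c = lt (X - 1, Y) := by
      rw [lm_apply]
      unfold gm ep sgb tc lt
      rcases hk with ⟨h2, h3⟩ | ⟨h2, h3⟩ <;> rw [h2] <;>
        simp only [if_true, Bool.false_eq_true, if_false, Prod.mk_add_mk, Prod.mk_sub_mk, Prod.mk.injEq,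
          Prod.fst_add, Prod.snd_add] <;> omega
    rw [e1, mem_Wl]
    unfold Wp at hm ⊢
    omega
  · intro l hl
    obtain ⟨X, Y, rfl⟩ := box_lt hl
    rw [box_iff hy] at hl
    rw [hg_eq hy, mem_TF', mem_TT, mem_W, mem_Wl]
    unfold Op
    rcases hk with ⟨h2, h3⟩ | ⟨h2, h3⟩
    · rw [h2, if_pos rfl, if_pos rfl]
      exact fun h => h
    · rw [h2, if_neg Bool.false_ne_true, if_neg Bool.false_ne_true]
      intro h5 h6
      exact ⟨by omega, by omega, Or.inr (Or.inr ⟨by omega, by omega, by omega, h6⟩)⟩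

variable (D) in
open Classical in
/-- the flat ties -/
noncomputable def FlT (R : ℤ) (_ : Unit) : Finset (ℤ × ℤ) :=
  D.TT.filter fun e => 2 * R + 9 ≤ (tt e).2 ∧ (tt e).2 + 2 * R + 9 ≤ D.H

lemma mem_FlT : e ∈ D.FlT R i ↔ ∃ y, e = lt (D.w - 1, y) ∧ (D.w + y) % 2 = 0 ∧ 2 * R + 9 ≤ y ∧
    y + 2 * R + 9 ≤ D.H ∧ D.y0 ≤ y ∧ y ≤ D.y1 := by
  classical
  unfold FlT
  rw [mem_filter]
  constructor
  · rintro ⟨h1, h2⟩
    obtain ⟨y, rfl, h3, h4, h5⟩ := exists_TT h1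
    rw [tt_lt] at h2
    exact ⟨y, rfl, h5, h2.1, h2.2, h3, h4⟩
  · rintro ⟨y, rfl, h1, h2, h3, h4, h5⟩
    refine ⟨mem_TT.2 (tp_iff.2 ⟨rfl, h4, h5, h1⟩), ?_⟩
    rw [tt_lt]
    exact ⟨h2, h3⟩

/-- the box of a deep tie: rows and columns -/
lemma bx_lt (hy : (D.w + y) % 2 = 0) (h : l ∈ bx D.c (D.b (lt (D.w - 1, y))) R) :
    ∃ X Y, l = lt (X, Y) ∧ (D.w - 2 - 2 * R ≤ X ∧ X ≤ D.w - 1 + 2 * R) ∧
      y - 1 - 2 * R ≤ Y ∧ Y ≤ y + 1 + 2 * R := by
  have hk := k_cases (D := D)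
  rw [mem_bx, mem_BRz] at h
  unfold b tc lt at h
  obtain ⟨a, c⟩ := l
  rcases hk with ⟨h5, h6⟩ | ⟨h5, h6⟩ <;> rw [h5] at h <;>
    simp only [if_true, Bool.false_eq_true, if_false, Prod.mk_add_mk] at h <;>
    (refine ⟨(a + c - 1) / 2, (c - a - 1) / 2, ?_, ?_⟩
     · unfold lt; refine Prod.ext ?_ ?_ <;> simp only <;> omega
     · omega)

/-- **`WallsV` of the single wall.** -/
theorem walls (hR : 0 ≤ R) (hx : 2 * R + D.x0 + 8 ≤ D.w) (hL : 2 * R + 4 ≤ D.L)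
    (hSg : ∀ e ∈ D.FlT R (), ∀ l ∈ Sg, l ∉ bx D.c (D.b e) R) :
    WallsV D.XR D.W D.Bb D.TT Sg fm D.co D.Wl D.La D.b D.o (rkW D.TT wl ep D.b) wl fw ep D.de (D.FlT R) R := by
  refine walls_mkV (fun _ => fww) (fun _ _ => rfl) (fun _ e he => ?_) (fun _ _ _ _ _ _ => rfl)
    (fun _ e he => ?_) (fun _ e he => ?_) (fun _ e he => hSg e he)
  · obtain ⟨y, rfl, h1, h2, h3, h4, h5⟩ := mem_FlT.1 he
    exact mem_TW.2 ⟨mem_TT.2 (tp_iff.2 ⟨rfl, h4, h5, h1⟩), rfl⟩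
  · obtain ⟨y, rfl, h1, h2, h3, h4, h5⟩ := mem_FlT.1 he
    exact flat h1 (by omega) (by omega) (by omega) (by omega)
  · obtain ⟨y, rfl, h1, h2, h3, h4, h5⟩ := mem_FlT.1 he
    intro hl
    obtain ⟨X, Y, k1, k2, k3⟩ := bx_lt h1 hl
    have e1 : lab D.XR.c0 = (0, 2 * D.Nr - 1) := by
      rw [XR_c0]
      unfold lab
      simp only
      rw [if_pos (by omega), if_pos (by norm_num)]
    rw [e1] at k1
    have g1 := le_abs_self D.w
    have g2 := D.hL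
    unfold lt Nr at k1
    simp only [Prod.mk.injEq] at k1
    omega

/-- the rank is injective -/
theorem rk_inj : ∀ e ∈ D.TT, ∀ e' ∈ D.TT, rkW D.TT wl ep D.b e = rkW D.TT wl ep D.b e' → e = e' :=
  rk_inj_mk (fm := fm) (La := D.La) (fw := fw) (fun _ => fww) (fun _ _ => rfl)

/-- **The ties which are not flat are near an end.** -/
theorem fin (hR : 4 ≤ R) (he : e ∈ TW D.TT wl i) (hn : e ∉ D.FlT R i) :
    inR (wp 1 (D.v0 i) 0) (2 * R) (gm (ep i) (D.b e)) ∨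
      inR (wp 1 (D.v0 i) (D.N i)) (2 * R) (gm (ep i) (D.b e)) := by
  obtain ⟨y, rfl, h1, h2, h3⟩ := exists_TT (mem_TW.1 he).1
  have hr := y01 (D := D)
  have hN := N_eq (D := D) (i := i)
  have hc : y < 2 * R + 9 ∨ D.H < y + 2 * R + 9 := by
    by_contra hcon
    push Not at hcon
    exact hn (mem_FlT.2 ⟨y, rfl, h3, hcon.1, hcon.2, h1, h2⟩)
  rw [gm_b h3, wp_eq (y := D.y0 + 2 * 0) (by ring), wp_eq (y := D.y0 + 2 * D.N i) rfl, inR_iff, inR_iff]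
  simp only
  have hk := k_cases (D := D)
  rcases hc with hc | hc
  · left; omega
  · right; omega

/-- the number of flat ties -/
theorem cardF (hR : 0 ≤ R) : ((D.FlT R i).card : ℝ) ≤ D.H := by
  have h1 : (D.FlT R i).card ≤ (Finset.Ico 0 D.H).card := by
    refine card_le_card_of_injOn (fun e => (tt e).2) (fun e he => ?_) (fun e he e' he' h => ?_)
    · obtain ⟨y, rfl, h1, h2, h3, h4, h5⟩ := mem_FlT.1 (mem_coe.1 he)
      simp only [tt_lt]
      rw [mem_coe, mem_Ico]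
      omega
    · obtain ⟨y, rfl, h1, h2, h3, h4, h5⟩ := mem_FlT.1 (mem_coe.1 he)
      obtain ⟨y', rfl, -⟩ := mem_FlT.1 (mem_coe.1 he')
      simp only [tt_lt] at h
      rw [h]
  rw [Int.card_Ico, sub_zero] at h1
  have hH := D.hH
  have h2 : ((D.FlT R i).card : ℤ) ≤ D.H := by
    have := Int.toNat_of_nonneg (show 0 ≤ D.H by omega)
    omega
  exact_mod_cast h2

end Pool.Agent.H42.W.RB
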