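import Mathlib
import Pool.Agent.H60.W.RefW
import Pool.Agent.H59.W.FineW

set_option autoImplicit false
open Finset

/-!
# The single wall reference (chart II): `WCr`

`exit_far` : an exit of the layer off the wall is at the left end of the band. `crW` : `CrW` without marked corners.
`wcr` : `WCr`.
-/

namespace Pool.Agent.H42.W.RB

open Pool.Agent.H75.Perc
open Pool.Agent.H33.Q1 (lt tt tt_lt lt_inj)
open Pool.Agent.H39.Q1 (TF mem_TF nd el av VN cU cV cx cy)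
open Pool.Agent.H59.W (WCr WD)
open Pool.Agent.H40.Sp (Cht CrW)
open Pool.Agent.H74.R45 (exists_lt)

variable {D : RB} {x y : ℤ × ℤ} {i : Unit} {h : ℤ}

/-- the tile of a step at a node, by the grid point of the node -/
lemma el_tile (hu : IsUnit4 (y - x)) : ∃ X Y : ℤ, el D.c x y = lt (X, Y) ∧
    (cU 1 0 0 (nd D.c x) - 2 ≤ 2 * X ∧ 2 * X ≤ cU 1 0 0 (nd D.c x)) ∧
    cV 1 0 0 (nd D.c x) - 2 ≤ 2 * Y ∧ 2 * Y ≤ cV 1 0 0 (nd D.c x) := by
  obtain ⟨a, b⟩ := x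
  obtain ⟨a', b'⟩ := y
  unfold IsUnit4 at hu
  simp only [Prod.mk_sub_mk, Prod.mk.injEq] at hu
  refine ⟨(a + b + a' + b' - 1 - 2 * (1 - D.k)) / 2, (b + b' - a - a' - 1) / 2, ?_⟩
  unfold el nd cU cV cx cy lt
  rcases k_cases (D := D) with ⟨h1, h2⟩ | ⟨h1, h2⟩ <;> rw [h1, h2] <;>
    simp only [if_true, Bool.false_eq_true, if_false, Prod.mk_add_mk, Prod.mk_sub_mk, Prod.mk.injEq] <;> omega

/-- the grid point of the inner end of a tie -/
lemma cU_b {e : ℤ × ℤ} (he : e ∈ D.TT) : cU 1 0 0 (nd D.c (D.b e)) = 2 * (D.w - 1) := by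
  obtain ⟨z, rfl, h1, h2, h3⟩ := exists_TT he
  unfold nd cU cx cy b lt
  rcases k_cases (D := D) with ⟨h1, h2⟩ | ⟨h1, h2⟩ <;> rw [h1] <;>
    simp only [if_true, Bool.false_eq_true, if_false] <;> omega

lemma cV_b {e : ℤ × ℤ} (he : e ∈ D.TT) : 0 ≤ cV 1 0 0 (nd D.c (D.b e)) ∧
    cV 1 0 0 (nd D.c (D.b e)) ≤ 2 * D.H := by
  obtain ⟨z, rfl, h1, h2, h3⟩ := exists_TT he
  have h4 := y01 (D := D)
  unfold nd cV cx cy b lt
  rcases k_cases (D := D) with ⟨h1, h2⟩ | ⟨h1, h2⟩ <;> rw [h1] <;>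
    simp only [if_true, Bool.false_eq_true, if_false] <;> omega

/-- **An exit of the layer is at the left end of the band.** -/
theorem exit_far (hu : IsUnit4 (y - x)) (hv : VN (D.co i) (D.La i) (TF D.TT fm i) D.b x)
    (ha : av D.Bb D.W D.TT fm D.co D.Wl i (el (D.co i) x y)) (hn : el (D.co i) x y ∉ D.La i) :
    cU 1 0 0 (nd (D.co i) x) ≤ 2 * (D.x0 + 2) := by
  have hco : D.co i = D.c := rfl
  rw [hco] at hv ha hn ⊢
  -- the grid point of the node
  have hg : cU 1 0 0 (nd D.c x) ≤ 2 * (D.w - 1) ∧ 0 ≤ cV 1 0 0 (nd D.c x) ∧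
      cV 1 0 0 (nd D.c x) ≤ 2 * D.H := by
    rcases hv with ⟨e, he, rfl⟩ | ⟨z, hz, hl⟩
    · have h1 := (mem_TF.1 he).1
      have := cU_b h1
      have := cV_b h1
      omega
    · obtain ⟨X, Y, h1, h2, h3⟩ := el_tile (D := D) hz
      rw [h1, mem_La] at hl
      unfold Ly at hl
      omega
  obtain ⟨X, Y, h1, h2, h3⟩ := el_tile (D := D) hu
  rw [h1, mem_La] at hn
  rw [h1] at ha
  by_contra hc
  unfold av at ha
  have hTF : ∀ l, l ∈ TF D.TT fm i ↔ l ∈ D.TT := fun l => by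
    rw [mem_TF]
    exact ⟨fun h => h.1, fun h => ⟨h, rfl⟩⟩
  rw [hco, mem_union, mem_union, mem_union, mem_union, mem_sdiff, mem_sdiff, hTF, mem_Bb, mem_W, mem_Wl,
    mem_TT] at ha
  have ht := tp_iff (D := D) (x := X) (y := Y)
  have h4 := y01 (D := D)
  unfold Op Bd at ha
  unfold Ly at hn
  have hH := D.hH
  rcases k_cases (D := D) with ⟨k1, k2⟩ | ⟨k1, k2⟩
  · rw [k1] at ha
    simp only [if_true] at ha
    rcases ha with (ha | ⟨ha, ha'⟩) | ⟨ha, ha'⟩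
    · omega
    · exact ha' ha
    · exact ha' ha
  · rw [k1] at ha
    simp only [Bool.false_eq_true, if_false, not_or] at ha
    obtain ⟨ha, hb, -⟩ := ha
    apply ha
    refine ⟨by omega, by omega, ?_⟩
    by_cases c1 : Y = -1
    · exact Or.inl c1
    by_cases c2 : Y = D.H
    · exact Or.inr (Or.inl c2)
    exact Or.inr (Or.inr ⟨by omega, by omega, by omega, hb⟩)

section

variable {γ : Type} {Tn : γ → Finset (ℤ × ℤ)} {Λ : γ → Unit → Finset (ℤ × ℤ)} {L : γ → Finset (ℤ × ℤ)}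
  {iL iF : γ → Unit} {χ : γ → Cht} {Um Vm Dm : γ → ℤ}

/-- **`CrW` without marked corners.** -/
theorem crW (hh : h + 2 * D.x0 + 6 ≤ 2 * D.w) : CrW D.W D.Bb D.Bb D.TT fm D.co D.Wl D.La D.b D.o h ∅ Tn Λ L
    iL iF χ Um Vm Dm where
  cnr := fun c hc => absurd hc (notMem_empty c)
  cnn := fun c hc => absurd hc (notMem_empty c)
  ex := by
    intro i x y hu hv ha _
    by_cases hn : el (D.co i) x y ∈ D.La i
    · exact Or.inl hn
    · refine Or.inr (Or.inl fun e he => Or.inl ?_)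
      have h1 := exit_far hu hv ha hn
      have h2 := cU_b (mem_TF.1 he).1
      have hco : D.co i = D.c := rfl
      rw [hco] at h1 ⊢
      rw [h2, le_abs]
      omega

/-- **`WCr` of the single wall.** -/
theorem wcr [DecidableEq γ] {M : ℤ} {Q : ℝ} (hM : 2 * M + D.x0 + 8 ≤ D.w) (hH : 4 * M + 16 ≤ D.H)
    (hQ : (D.H : ℝ) ≤ 2 * (Q * M)) (hh : h + 2 * D.x0 + 6 ≤ 2 * D.w) (hD : 16 * M ≤ h) :
    WCr D.W D.Bb D.Bb D.TT fm D.co D.Wl D.La D.b D.o h ∅ Tn Λ L iL iF χ Um Vm Dm wl fw ep D.v0 D.N M Q where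
  wd := wd hM hH hQ
  cr := crW hh
  sur := fun c hc => absurd hc (notMem_empty c)
  lnk := fun c hc => absurd hc (notMem_empty c)
  D16 := hD

end

end Pool.Agent.H42.W.RB
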