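import Mathlib
import Pool.Agent.H60.W.WcrD
import Pool.Agent.H60.W.WalD
import Pool.Agent.H60.W.BdI
import Pool.Agent.H42.W.RefM

set_option autoImplicit false
open Finset

/-!
# The inputs `InpV` for functionals over the single wall reference (chart II)

`caseD` : the case of a functional `V` over the single wall. `ScD` : sizes at the scale `R`. `VOD` : hypotheses on
the functional. `PD` : the class. `inpPD` : the class has inputs, `finePD` : it satisfies `FineVP`.
-/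

namespace Pool.Agent.H60.W.II

open Pool.Agent.H75.Perc
open Pool.Agent.H39.Q1 (bx)
open Pool.Agent.H15.W (CaseV FineVP VTog VLoc)
open Pool.Agent.H40.W (InpV)
open Pool.Agent.H40.Sp (Cht)
open Pool.Agent.H42.W (RB)
open Pool.Agent.H42.W.RB
open Pool.Agent.Q1.M6e.Wn (DatW rkW)
open Pool.Agent.H60.W.BI

/-- the data of the single wall -/
noncomputable def datII (D : RB) : DatW Unit Unit where
  X := D.XR
  W := D.W
  Bb := D.Bb
  B := D.Bb
  TT := D.TT
  fm := fm
  co := D.co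
  Wl := D.Wl
  La := D.La
  b := D.b
  o := D.o
  rk := rkW D.TT wl ep D.b
  wl := wl
  fw := fw
  ε := ep
  δ := D.de

/-- **the functional as a case** -/
noncomputable def caseD (D : RB) (V : Finset (ℤ × ℤ) → Finset (ℤ × ℤ) → ℂ) (Sg : Finset (ℤ × ℤ)) : CaseV where
  ι := Unit
  κ := Unit
  d := datII D
  V := V
  Sg := Sg

/-- **sizes at the scale `R`** -/
structure ScD (η : ℝ) (R : ℕ) (D : RB) : Prop where
  H1 : η * R ≤ D.H
  H2 : (D.H : ℝ) ≤ R / η
  wx : η * R ≤ ((D.w - D.x0 : ℤ) : ℝ)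
  L1 : η * R ≤ D.L

/-- **the hypotheses on the functional** -/
structure VOD (η : ℝ) (R : ℕ) (D : RB) (V : Finset (ℤ × ℤ) → Finset (ℤ × ℤ) → ℂ) (Sg : Finset (ℤ × ℤ)) :
    Prop where
  tog : VTog V D.W D.Bb D.TT fm D.co D.Wl D.La D.b D.o
  loc : VLoc V D.XR D.W D.Bb D.Bb D.TT Sg fm D.co D.Wl D.La D.b D.o
  deep : ∀ R' : ℤ, 8 ≤ R' → (R' : ℝ) ≤ η / 4 * R → ∀ e ∈ D.FlT R' (), ∀ l ∈ Sg, l ∉ bx D.c (D.b e) R'

/-- **The class of the functionals over the single walls.** -/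
def PD (η : ℝ) (R : ℕ) (x : CaseV) : Prop :=
  ∃ (D : RB) (V : Finset (ℤ × ℤ) → Finset (ℤ × ℤ) → ℂ) (Sg : Finset (ℤ × ℤ)),
    ScD η R D ∧ VOD η R D V Sg ∧ x = caseD D V Sg

/-- the labels of the box of a flat tie are near the wall -/
lemma deep_of {D : RB} {Sg : Finset (ℤ × ℤ)} {η : ℝ} {R : ℕ}
    (h : ∀ l ∈ Sg, ∀ X Y, l = Pool.Agent.H33.Q1.lt (X, Y) →
      (X : ℝ) + η / 2 * R + 3 ≤ D.w ∨ (D.w : ℝ) + η / 2 * R ≤ X ∨ Y < 0 ∨ D.H ≤ Y) :
    ∀ R' : ℤ, 8 ≤ R' → (R' : ℝ) ≤ η / 4 * R → ∀ e ∈ D.FlT R' (), ∀ l ∈ Sg, l ∉ bx D.c (D.b e) R' := by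
  intro R' h8 hR' e he l hl hb
  obtain ⟨y, rfl, h1, h2, h3, h4, h5⟩ := mem_FlT.1 he
  obtain ⟨X, Y, rfl, ⟨k1, k2⟩, k3, k4⟩ := bx_lt h1 hb
  rcases h _ hl X Y rfl with g | g | g | g
  · have : ((D.w - 2 - 2 * R' : ℤ) : ℝ) ≤ X := by exact_mod_cast k1
    push_cast at this
    linarith
  · have : (X : ℝ) ≤ ((D.w - 1 + 2 * R' : ℤ) : ℝ) := by exact_mod_cast k2
    push_cast at this
    linarith
  · omega
  · omega

/-- **The inputs for one case.** -/
theorem inpD {D : RB} {V : Finset (ℤ × ℤ) → Finset (ℤ × ℤ) → ℂ} {Sg : Finset (ℤ × ℤ)} {η : ℝ} {R : ℕ}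
    (hη : 0 < η) (hR : 64 ≤ η * R) (h : ScD η R D) (hV : VOD η R D V Sg) :
    Nonempty (InpV (η / 32) (16 / η ^ 2) (η / 4) (1 / η) 1 8 R (caseD D V Sg)) := by
  set M : ℤ := ⌊η * R / 16⌋ with hM
  have hM1 : (M : ℝ) ≤ η * R / 16 := Int.floor_le _
  have hM2 : η * R / 16 < M + 1 := Int.lt_floor_add_one _
  have hRp : (0 : ℝ) < R := by
    by_contra hc
    push Not at hc
    have := mul_nonpos_of_nonneg_of_nonpos hη.le hc
    linarith
  have g1 : 2 * M + D.x0 + 8 ≤ D.w := by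
    have h1 := h.wx
    push_cast at h1
    have : ((2 * M + D.x0 + 8 : ℤ) : ℝ) ≤ D.w := by push_cast; linarith
    exact_mod_cast this
  have g2 : 4 * M + 16 ≤ D.H := by
    have h1 := h.H1
    have : ((4 * M + 16 : ℤ) : ℝ) ≤ D.H := by push_cast; linarith
    exact_mod_cast this
  have g3 : 16 * M + 2 * D.x0 + 6 ≤ 2 * D.w := by
    have h1 := h.wx
    push_cast at h1
    have : ((16 * M + 2 * D.x0 + 6 : ℤ) : ℝ) ≤ ((2 * D.w : ℤ) : ℝ) := by push_cast; linarith
    exact_mod_cast this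
  have g4 : (D.H : ℝ) ≤ 2 * (16 / η ^ 2 * M) := by
    refine h.H2.trans ?_
    have h1 : η * R / 32 ≤ M := by linarith
    have h2 : R / η = 2 * (16 / η ^ 2 * (η * R / 32)) := by field_simp; ring
    rw [h2]
    exact mul_le_mul_of_nonneg_left (mul_le_mul_of_nonneg_left h1 (by positivity)) (by norm_num)
  refine ⟨
    { γ := Unit
      dγ := inferInstance
      Γ := ∅
      h := 16 * M
      Tn := fun _ => ∅
      Λ := fun _ _ => ∅
      L := fun _ => ∅
      iL := fun _ => ()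
      iF := fun _ => ()
      χ := fun _ => ⟨true, true, 1, 0, 0, Or.inl rfl⟩
      Um := fun _ => 0
      Vm := fun _ => 0
      Dm := fun _ => 0
      x0 := D.v0
      N := D.N
      D := M
      ne := ⟨()⟩
      card := by
        show Fintype.card Unit ≤ 1
        simp
      cardΓ := by simp
      mul := multi
      wcr := wcr g1 g2 g4 g3 le_rfl
      tog := hV.tog
      togΛ := fun g hg => absurd hg (notMem_empty g)
      loc := hV.loc
      rk := rk_inj
      len := by linarith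
      flt := ?_ }⟩
  intro R' h1 h2
  have h8 : 8 ≤ R' := by exact_mod_cast h1
  refine ⟨D.FlT R', ?_, ?_, ?_⟩
  · refine walls (by omega) ?_ ?_ (hV.deep R' h8 h2)
    · have h3 := h.wx
      push_cast at h3
      have : ((2 * R' + D.x0 + 8 : ℤ) : ℝ) ≤ D.w := by push_cast; linarith
      exact_mod_cast this
    · have h3 := h.L1
      have : ((2 * R' + 4 : ℤ) : ℝ) ≤ D.L := by push_cast; linarith
      exact_mod_cast this
  · intro w
    refine (cardF (by omega)).trans (h.H2.trans (le_of_eq ?_))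
    ring
  · intro w e he hn
    exact fin (by omega) he hn

/-- **The class has the inputs.** -/
theorem inpPD : InpVP PD := by
  intro η hη
  refine ⟨η / 32, 16 / η ^ 2, η / 4, 1 / η, 1, max 8 ⌈64 / η⌉₊, by positivity, by positivity, ?_⟩
  rintro R hR x ⟨D, V, Sg, h, hV, rfl⟩
  have hR1 : 64 / η ≤ R := (Nat.le_ceil _).trans (by exact_mod_cast (le_max_right _ _).trans hR)
  rw [div_le_iff₀ hη] at hR1
  obtain ⟨I⟩ := inpD (R := R) hη (by linarith) h hV
  exact ⟨
    { I with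
      flt := fun R' h1 h2 => I.flt R' (le_trans (by exact_mod_cast le_max_left 8 _) h1) h2 }⟩

/-- **The class satisfies `FineVP`.** -/
theorem finePD : FineVP PD := inpPD.fine

/-- **The uniform bound for the class.** -/
theorem bdPD : BdVP PD := bdVP_of inpPD

end Pool.Agent.H60.W.II
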