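import Mathlib
import Pool.Agent.H15.W.C.MemII
import Pool.Agent.H20.W.InstD

set_option autoImplicit false
open Finset

/-!
# Chart II: the functional of the canonical box is in the class

Zone of the removed picture: columns `a ≤ x < b`, removed rows `-n ≤ y < n H + n - 1` (`yII`). `nWo_z` : the far
labels `Wz` of the canonical box are natural in the zone. `remZ_z`, `out_z` : the zone can be removed. `mem_Ph` : the
case of the functional `Ph` is in the class `PD` of the single walls, every state `S` of the unpaired tiles.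
-/

namespace Pool.Agent.H60.W.II

open Pool.Agent.H33.Q1 (lt tt tt_lt)
open Pool.Agent.H54.W (Win Zb CD NE)
open Pool.Agent.H42.W (VF RB)
open Pool.Agent.H62.W
open Pool.Agent.H15.W (SgQ pd_of truQ_II togII)
open Pool.Agent.H21.W (DR)
open Pool.Agent.H20.W (Dz Zz Ph Wz bX1 bX2 bY1 bY2)

/-- upper edge of the zone (removed rows) -/
def yII (C : CD) (n : ℤ) : ℤ := n * C.H + n - 1

variable {C : CD} {n : ℤ} {c0 : Bool} {he : n % 2 = 0} {h8 : 8 ≤ n} {v : ℤ × ℤ} {a b : ℤ} {S : Finset (ℤ × ℤ)}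

lemma bX2_ge {r : ℤ} : n * C.W + n ≤ bX2 C n c0 r := by
  unfold bX2
  split_ifs <;> omega

/-- the left edge of the zone is in the box -/
lemma bX1_le {y0 y1 : ℤ} (G : GII (Dz C n c0 he h8 v.2) v.2 v.1 a b y0 y1 c0) : bX1 C n ≤ a := by
  have h1 := (Dz C n c0 he h8 v.2).hh
  have h2 := (Dz C n c0 he h8 v.2).hlo 0 le_rfl (by omega)
  have h3 := G.ha 0 le_rfl (by omega)
  have h4 : (Dz C n c0 he h8 v.2).lo = n * C.LO - 1 := rfl
  unfold bX1
  omega

/-- **The far labels are natural in the zone.** -/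
theorem nWo_z (ha : bX1 C n ≤ a) (hb : b ≤ n * C.W + n)
    (hS : ∀ x y, lt (x, y) ∈ S → x = n * C.W - 1 ∧ 0 ≤ y ∧ y < n * C.H)
    (hd : Disjoint ((EII (Dz C n c0 he h8 v.2) a c0).image (pl v.2)) S) :
    NWo (Dz C n c0 he h8 v.2) v.2 a b (-n) (yII C n) c0 (Wz (Dz C n c0 he h8 v.2) (Zz C n c0 v)) S where
  o := by
    classical
    intro x y h
    unfold Wz at h
    have := (mem_filter.1 h).2.1
    rwa [tt_lt] at this
  f := by
    classical
    intro x y h1 h2 h3 h4 h5 h6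
    unfold Wz
    rw [mem_filter, tt_lt]
    unfold Zz
    rw [mem_ZS]
    have h7 := bX2_ge (C := C) (n := n) (c0 := c0) (r := v.2)
    unfold yII at h5
    unfold bY1 bY2
    constructor
    · exact fun h => h.2.2
    · exact fun h => ⟨⟨⟨by omega, by omega, by omega, by omega⟩, fun k => h6 k.1⟩, h1, h⟩
  s := hS
  d := hd

/-- the zone can be removed -/
theorem remZ_z {y0 y1 : ℤ} (G : GII (Dz C n c0 he h8 v.2) v.2 v.1 a b y0 y1 c0) (hb : b ≤ n * C.W + n)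
    (h0 : -n ≤ y0) (h1 : y1 ≤ yII C n) :
    RemZ v.2 (Zb (bX1 C n) (bX2 C n c0 v.2) (bY1 n) (bY2 C n)) (DR v.1 v.2) (ZQ a b y0 y1) := by
  have g1 := G.r0
  have g2 := G.r1
  have g3 := G.y0
  have g4 := G.y1
  have h7 := bX2_ge (C := C) (n := n) (c0 := c0) (r := v.2)
  unfold yII at h1
  exact remZ_box (by omega) (by omega) G.xa (bX1_le G) (by omega) (by unfold bY1; omega) (by unfold bY2; omega)

/-- the named ends are not inside of the zone -/
theorem out_z {y0 y1 : ℤ} (G : GII (Dz C n c0 he h8 v.2) v.2 v.1 a b y0 y1 c0) (hb : b ≤ n * C.W + n) :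
    RemZ.Out v.2 (ZQ a b y0 y1) (C.be n c0 v.1 v.2 (bX1 C n) (bX2 C n c0 v.2)) := by
  have g1 := G.r0
  have g2 := G.r1
  have g3 := G.y0
  have g4 := G.y1
  have h7 := bX2_ge (C := C) (n := n) (c0 := c0) (r := v.2)
  exact out_be C n c0 (by omega) (by omega) G.xa (bX1_le G) (by omega)

/-- the functional of the box -/
lemma Ph_eq (Ψ : (NE → NE → Prop) → ℂ) : Ph C n c0 v Ψ =
    PhiG (Zb (bX1 C n) (bX2 C n c0 v.2) (bY1 n) (bY2 C n)) (DR v.1 v.2)
      (C.be n c0 v.1 v.2 (bX1 C n) (bX2 C n c0 v.2)) Ψ := rfl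

/-- **Membership in the class of the single walls.** -/
theorem mem_Ph {η : ℝ} {R : ℕ} (G : GII (Dz C n c0 he h8 v.2) v.2 v.1 a b (-n) (yII C n) c0)
    (h1 : a + 8 ≤ (Dz C n c0 he h8 v.2).w) (h2 : 9 ≤ (Dz C n c0 he h8 v.2).h)
    (h3 : (Dz C n c0 he h8 v.2).w + 2 ≤ b) (hb : b ≤ n * C.W + n)
    (hS : ∀ x y, lt (x, y) ∈ S → x = n * C.W - 1 ∧ 0 ≤ y ∧ y < n * C.H)
    (hd : Disjoint ((EII (Dz C n c0 he h8 v.2) a c0).image (pl v.2)) S) (Ψ : (NE → NE → Prop) → ℂ)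
    (hs : ScD η R (G.rb h1 h2 h3)) :
    PD η R (caseD (G.rb h1 h2 h3) (VF (FII (Dz C n c0 he h8 v.2) v.2 v.1 a c0 (ZQ a b (-n) (yII C n))
      (Wz (Dz C n c0 he h8 v.2) (Zz C n c0 v)) S (Ph C n c0 v Ψ)) (G.rb h1 h2 h3).Bb (G.rb h1 h2 h3).Bb
      (G.rb h1 h2 h3).TT RB.fm (G.rb h1 h2 h3).co)
      (SgQ (G.rb h1 h2 h3) (WtII (Dz C n c0 he h8 v.2) v.2 a c0 (ZQ a b (-n) (yII C n))
        (Wz (Dz C n c0 he h8 v.2) (Zz C n c0 v)) S))) := by
  have g1 := G.r0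
  have hN := nWo_z (he := he) (h8 := h8) (v := v) (c0 := c0) (bX1_le G) hb hS hd
  rw [Ph_eq]
  refine pd_of hs (truQ_II G hN h1 h2 h3 (by omega) ?_) (togII (remZ_z G hb le_rfl le_rfl) (out_z G hb) Ψ)
  show n * C.H + 1 ≤ yII C n
  unfold yII
  omega

end Pool.Agent.H60.W.II
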