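import Mathlib
import Pool.Agent.H60.Q1.X3S
import Pool.Agent.H60.Q1.DiagArms
import Pool.Agent.H20.Q1.Hole
import Pool.Agent.H75.Perc.Wedge

set_option autoImplicit false
open Finset

/-!
# Route W, module D2: one arm from a wall segment, natural half plane of the tile frame

`HL 1 z R` (= `DB z R`) is the set of labels of the half box above the diagonal wall through `z`.

* `WA κ z ρ R` : some wall vertex at distance at most `ρ` of `z` is joined to distance `R`;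
* `NA κ z ρ R` : some vertex at distance at most `ρ` of `z` is joined to distance `R`;
* `XA κ z ρ R` : open crossing of the half annulus `AL κ z ρ R`.

`arm_bounds` : all three have probability comparable with `(ρ / R) ^ (1/3)`.
-/

namespace Pool.Agent.H60.W

open Pool.Agent.H75.Perc Pool.Agent.H75.TwoArm Pool.Agent.H75.Four Pool.Agent.H49.Perc
open Pool.Agent.H99.NC Pool.Agent.H60.Q1
open Pool.Agent.H20.Q1 (last_exit)

variable {κ : ℤ} {z : ℤ × ℤ} {ρ R R1 M : ℤ} {ω : Finset (ℤ × ℤ)}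

/-- some vertex near `z` is joined to distance `R` -/
def NA (κ : ℤ) (z : ℤ × ℤ) (ρ R : ℤ) (ω : Finset (ℤ × ℤ)) : Prop :=
  ∃ u v, Near z ρ u ∧ Far z R v ∧ Co (ω ∩ HL κ z R) u v

/-- some wall vertex near `z` is joined to distance `R` -/
def WA (κ : ℤ) (z : ℤ × ℤ) (ρ R : ℤ) (ω : Finset (ℤ × ℤ)) : Prop :=
  ∃ u v, (ht κ u = ht κ z ∧ Near z ρ u) ∧ Far z R v ∧ Co (ω ∩ HL κ z R) u v

/-- open crossing of the half annulus -/
def XA (κ : ℤ) (z : ℤ × ℤ) (ρ R : ℤ) (ω : Finset (ℤ × ℤ)) : Prop :=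
  ∃ u v, Near z ρ u ∧ Far z R v ∧ Co (ω ∩ AL κ z ρ R) u v

lemma NA_inc : Inc (NA κ z ρ R) := by
  rintro ω ω' h ⟨u, v, h1, h2, h3⟩
  exact ⟨u, v, h1, h2, h3.mono (inter_subset_inter_right h)⟩

lemma WA_inc : Inc (WA κ z ρ R) := by
  rintro ω ω' h ⟨u, v, h1, h2, h3⟩
  exact ⟨u, v, h1, h2, h3.mono (inter_subset_inter_right h)⟩

lemma XA_inc : Inc (XA κ z ρ R) := by
  rintro ω ω' h ⟨u, v, h1, h2, h3⟩
  exact ⟨u, v, h1, h2, h3.mono (inter_subset_inter_right h)⟩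

lemma NA_loc : NA κ z ρ R ω ↔ NA κ z ρ R (ω ∩ HL κ z R) := by
  unfold NA; rw [inter_assoc, inter_self]

lemma WA_loc : WA κ z ρ R ω ↔ WA κ z ρ R (ω ∩ HL κ z R) := by
  unfold WA; rw [inter_assoc, inter_self]

lemma XA_loc : XA κ z ρ R ω ↔ XA κ z ρ R (ω ∩ AL κ z ρ R) := by
  unfold XA; rw [inter_assoc, inter_self]

lemma WA.na (h : WA κ z ρ R ω) : NA κ z ρ R ω := by
  obtain ⟨u, v, h1, h2, h3⟩ := h
  exact ⟨u, v, h1.2, h2, h3⟩

lemma XA.na (h : XA κ z ρ R ω) : NA κ z ρ R ω := by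
  obtain ⟨u, v, h1, h2, h3⟩ := h
  exact ⟨u, v, h1, h2, h3.mono (inter_subset_inter_left AL_sub_HL)⟩

lemma WA.mono_left {ρ' : ℤ} (hρ : ρ ≤ ρ') (h : WA κ z ρ R ω) : WA κ z ρ' R ω := by
  obtain ⟨u, v, h1, h2, h3⟩ := h
  exact ⟨u, v, ⟨h1.1, h1.2.1.trans hρ, h1.2.2.trans hρ⟩, h2, h3⟩

lemma NA.mono_left {ρ' : ℤ} (hρ : ρ ≤ ρ') (h : NA κ z ρ R ω) : NA κ z ρ' R ω := by
  obtain ⟨u, v, h1, h2, h3⟩ := h
  exact ⟨u, v, ⟨h1.1.trans hρ, h1.2.trans hρ⟩, h2, h3⟩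

lemma HL_mono (h : R1 ≤ R) : HL κ z R1 ⊆ HL κ z R := by
  intro l hl
  rw [mem_HL] at hl ⊢
  omega

lemma HL_inter_Bx :
    HL κ z R ∩ Bx (z.1 - R1) (z.1 + R1) (z.2 - R1) (z.2 + R1) ⊆ HL κ z R1 := by
  intro l hl
  rw [mem_inter, mem_HL, mem_Bx] at hl
  rw [mem_HL]
  omega

/-- the crossing of the half annulus made by an arm -/
lemma cross_of (hρR : ρ < R1) {u v : ℤ × ℤ} (hu : Near z ρ u) (hv : Far z R1 v)
    (h : Co (ω ∩ HL κ z R) u v) :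
    ∃ u1 v1, Near z ρ u1 ∧ Far z R1 v1 ∧ Co (ω ∩ AL κ z ρ R1) u1 v1 ∧
      Co (ω ∩ HL κ z R1) u v1 := by
  unfold Near at hu
  unfold Far at hv
  obtain ⟨v1, hv1, c1⟩ := open_exit h (by omega) hv
  have c1' : Co (ω ∩ HL κ z R1) u v1 := c1.mono (by
    rw [inter_assoc]
    exact inter_subset_inter_left HL_inter_Bx)
  obtain ⟨u1, hu1, c2⟩ := last_exit (w := z) (c := ρ) c1'
    (by rw [inR_iff]; rw [abs_le, abs_le] at hu; omega)
    (by rw [inR_iff]; rw [le_abs, le_abs] at hv1; omega)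
  refine ⟨u1, v1, ?_, hv1, c2.mono ?_, c1'⟩
  · unfold Near
    rw [inR_iff] at hu1
    rw [abs_le, abs_le]
    omega
  · intro l hl
    obtain ⟨g1, g2⟩ := mem_sdiff.1 hl
    obtain ⟨g3, g4⟩ := mem_inter.1 g1
    exact mem_inter.2 ⟨g3, mem_sdiff.2 ⟨g4, g2⟩⟩

lemma NA.xa (hρR : ρ < R) (h : NA κ z ρ R ω) : XA κ z ρ R ω := by
  obtain ⟨u, v, h1, h2, h3⟩ := h
  obtain ⟨u1, v1, g1, g2, g3, -⟩ := cross_of hρR h1 h2 h3
  exact ⟨u1, v1, g1, g2, g3⟩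

lemma NA.cut (hρR : ρ < R1) (hR : R1 ≤ R) (h : NA κ z ρ R ω) : NA κ z ρ R1 ω := by
  obtain ⟨u, v, h1, h2, h3⟩ := h
  obtain ⟨u1, v1, g1, g2, -, g3⟩ := cross_of (R1 := R1) hρR h1 (by unfold Far at h2 ⊢; omega) h3
  exact ⟨u, v1, h1, g2, g3⟩

lemma WA.cut (hρR : ρ < R1) (hR : R1 ≤ R) (h : WA κ z ρ R ω) : WA κ z ρ R1 ω := by
  obtain ⟨u, v, h1, h2, h3⟩ := h
  obtain ⟨u1, v1, g1, g2, -, g3⟩ := cross_of (R1 := R1) hρR h1.2 (by unfold Far at h2 ⊢; omega) h3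
  exact ⟨u, v1, h1, g2, g3⟩

/-- every arm of the half box meets every half ring -/
lemma ring_meet (hκ : κ = 0 ∨ κ = 1) (hρ : 1 ≤ ρ) (hρR : ρ < R1) (hR : R1 ≤ R) {p p' : ℤ × ℤ}
    (hp : WS κ z (-1) p) (hp' : WS κ z 1 p') (hpp : Co (ω ∩ AL κ z ρ R1) p p') {u v : ℤ × ℤ}
    (hu : Near z ρ u) (hv : Far z R1 v) (h : Co (ω ∩ HL κ z R) u v) :
    Co (ω ∩ HL κ z R) p v := by
  obtain ⟨u1, v1, g1, g2, g3, g4⟩ := cross_of hρR hu hv h
  have hne : p ≠ p' := by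
    rintro rfl
    unfold WS at hp hp'
    have := hp.2
    have := hp'.2
    omega
  have hne1 : u1 ≠ v1 := near_ne_far hρR g1 g2
  obtain ⟨hrp, hrw⟩ := Co.reg hκ inter_subset_right hpp hne
  obtain ⟨hru, hrw1⟩ := Co.reg hκ inter_subset_right g3 hne1
  obtain ⟨w, hw1, hw2⟩ := PL hκ hρ (A := fun w => Co (ω ∩ AL κ z ρ R1) p w)
    (B := fun w => Co (ω ∩ AL κ z ρ R1) u1 w) (Co.pth hpp) (Co.refl _ _) (Co.pth g3) (Co.refl _ _)
    hrw hrw1 hp hp' g1 g2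
  have hsub : ω ∩ AL κ z ρ R1 ⊆ ω ∩ HL κ z R :=
    inter_subset_inter_left (AL_sub_HL.trans (HL_mono hR))
  have c1 : Co (ω ∩ HL κ z R) p w := hw1.mono hsub
  have c2 : Co (ω ∩ HL κ z R) u1 w := hw2.mono hsub
  have c3 : Co (ω ∩ HL κ z R) u1 v1 := g3.mono hsub
  have c4 : Co (ω ∩ HL κ z R) u v1 := g4.mono (inter_subset_inter_left (HL_mono hR))
  exact (((c1.trans c2.symm).trans c3).trans c4.symm).trans h

/-- gluing with a half ring -/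
lemma glue_ring (hκ : κ = 0 ∨ κ = 1) (hρ : 1 ≤ ρ) (hρR : ρ < R1) (hR : R1 ≤ R)
    (h1 : RO κ z ρ R1 M ω) {u v u' v' : ℤ × ℤ} (hu : Near z ρ u) (hv : Far z R1 v)
    (h : Co (ω ∩ HL κ z R1) u v) (hu' : Near z ρ u') (hv' : Far z R v')
    (h' : Co (ω ∩ HL κ z R) u' v') : Co (ω ∩ HL κ z R) u v' := by
  obtain ⟨p, p', hp, hp', -, -, hpp⟩ := h1
  have hv'' : Far z R1 v' := by unfold Far at hv' ⊢; omega
  have c1 := ring_meet hκ hρ hρR hR hp hp' hpp hu' hv'' h'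
  have c2 : Co (ω ∩ HL κ z R) u v := h.mono (inter_subset_inter_left (HL_mono hR))
  have c3 := ring_meet hκ hρ hρR hR hp hp' hpp hu hv c2
  exact (c2.trans c3.symm).trans c1

lemma glue_WA (hκ : κ = 0 ∨ κ = 1) (hρ : 1 ≤ ρ) (hρR : ρ < R1) (hR : R1 ≤ R) {r : ℤ} (hr : r ≤ ρ)
    (h1 : WA κ z r R1 ω) (h2 : RO κ z ρ R1 M ω) (h3 : NA κ z ρ R ω) : WA κ z r R ω := by
  obtain ⟨u, v, g1, g2, g3⟩ := h1
  obtain ⟨u', v', g4, g5, g6⟩ := h3
  exact ⟨u, v', g1, g5, glue_ring hκ hρ hρR hR h2 ⟨g1.2.1.trans hr, g1.2.2.trans hr⟩ g2 g3 g4 g5 g6⟩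

lemma wall_near (hκ : κ = 0 ∨ κ = 1) {s : ℤ} {p : ℤ × ℤ} (hp : WS κ z s p) (hM : |p.1 - z.1| ≤ M) :
    ht κ p = ht κ z ∧ Near z M p := by
  refine ⟨hp.1, hM, ?_⟩
  have h1 := hp.1
  unfold ht at h1
  rw [abs_le] at hM ⊢
  rcases hκ with rfl | rfl <;> omega

/-- a half ring and a crossing give an arm from the wall -/
lemma land (hκ : κ = 0 ∨ κ = 1) (hρ : 1 ≤ ρ) (hρR : ρ < R1) (hR : R1 ≤ R)
    (h2 : RO κ z ρ R1 M ω) (h3 : NA κ z ρ R ω) : WA κ z M R ω := by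
  obtain ⟨p, p', hp, hp', hM, -, hpp⟩ := h2
  obtain ⟨u', v', g4, g5, g6⟩ := h3
  have hv'' : Far z R1 v' := by unfold Far at g5 ⊢; omega
  exact ⟨p, v', wall_near hκ hp hM, g5, ring_meet hκ hρ hρR hR hp hp' hpp g4 hv'' g6⟩

/-! ### Probabilities -/

lemma HL_eq_DB (z : ℤ × ℤ) (R : ℤ) : HL 1 z R = DB z R := by
  ext l
  rw [mem_HL, mem_DB]
  omega

lemma AL_disj (κ : ℤ) (z : ℤ × ℤ) {r : ℤ} (R : ℤ) : Disjoint (HL κ z r) (AL κ z r R) := by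
  rw [disjoint_left]
  intro l h1 h2
  rw [mem_HL] at h1
  rw [mem_AL] at h2
  exact h2.2 h1.1

lemma WA_zero_iff {z : ℤ × ℤ} {R : ℤ} {ω : Finset (ℤ × ℤ)} : WA 1 z 0 R ω ↔ GOA z R ω := by
  unfold WA GOA
  rw [HL_eq_DB]
  constructor
  · rintro ⟨u, v, h1, h2, h3⟩
    have e : u = z := by
      have h4 := h1.2
      unfold Near at h4
      rw [abs_le, abs_le] at h4
      exact Prod.ext (by omega) (by omega)
    exact ⟨v, h2, e ▸ h3⟩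
  · rintro ⟨v, h2, h3⟩
    exact ⟨z, v, ⟨rfl, by unfold Near; simp⟩, h2, h3⟩

lemma GOA_inter {x : ℤ × ℤ} {n : ℤ} {ω : Finset (ℤ × ℤ)} : GOA x n (ω ∩ DB x n) ↔ GOA x n ω := by
  unfold GOA
  rw [inter_assoc, inter_self]

lemma Pr_GOA {x : ℤ × ℤ} {n : ℤ} {E : Finset (ℤ × ℤ)} (h : DB x n ⊆ E) :
    Pr E (GOA x n) = Pr (DB 0 n) (GOA 0 n) := by
  rw [Pr_congr (B := fun ω => GOA x n (ω ∩ DB x n)) fun ω _ => GOA_inter.symm, Pr_restrict h]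
  have h1 := (syT x).Pr (E1 := DB 0 n) (E2 := DB x n) (fun e => by
    have := mem_DB_tr (x := 0) (t := x) (n := n) e
    rwa [zero_add] at this) (GOA x n)
  rw [h1]
  refine Pr_congr fun ω _ => ?_
  have h2 := GOA_tr (x := 0) (t := x) (n := n) (ω := ω)
  rwa [zero_add] at h2

lemma armF_GOA {n : ℕ} (hn : 1 ≤ n) {ω : Finset (ℤ × ℤ)} (hω : ω ⊆ DB 0 n) :
    armF n ω ↔ GOA 0 n ω := by
  unfold armF GOA
  rw [inter_eq_left.2 hω]
  constructor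
  · rintro ⟨v, h1, h2⟩
    refine ⟨v, ?_, h2⟩
    simp only [Prod.fst_zero, Prod.snd_zero, sub_zero]
    omega
  · rintro ⟨v, h1, h2⟩
    simp only [Prod.fst_zero, Prod.snd_zero, sub_zero] at h1
    refine ⟨v, ?_, h2⟩
    have h3 : inB (-n) n (-n) n v := h2.inB (fun l hl => by
      have := mem_DB.1 (hω hl)
      rw [mem_Bx]
      simp only [Prod.fst_zero, Prod.snd_zero] at this
      omega) (by unfold inB; simp)
    unfold inB at h3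
    rw [le_abs, le_abs] at h1
    rw [abs_eq (by omega), abs_eq (by omega)]
    omega

/-- the arm exponent of the diagonal half plane, finite form -/
theorem alpha_bounds : ∃ c C : ℝ, 0 < c ∧ 0 < C ∧ ∀ (z : ℤ × ℤ) (n : ℤ), 1 ≤ n →
    ∀ E : Finset (ℤ × ℤ), HL 1 z n ⊆ E → c * (n : ℝ) ^ (-(1 / 3) : ℝ) ≤ Pr E (WA 1 z 0 n) ∧
      Pr E (WA 1 z 0 n) ≤ C * (n : ℝ) ^ (-(1 / 3) : ℝ) := by
  obtain ⟨c, C, hc, hC, h⟩ := PB_half_diag
  refine ⟨c, C, hc, hC, fun z n hn E hE => ?_⟩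
  obtain ⟨m, rfl⟩ : ∃ m : ℕ, n = m := ⟨n.toNat, by omega⟩
  have hm : 1 ≤ m := by omega
  have h1 := h m hm
  beta_reduce at h1
  rw [armD_Pr (E := DB 0 (m : ℤ)) (fun e he => DB_odd e he) (fun u v huv => by
    have h2 := unit_cases huv
    rw [mem_DB]
    unfold inB
    simp only [Prod.fst_add, Prod.snd_add, Prod.fst_zero, Prod.snd_zero]
    omega), Pr_congr (B := GOA 0 (m : ℤ)) fun ω hω => armF_GOA hm hω] at h1
  have e1 : Pr E (WA 1 z 0 (m : ℤ)) = Pr (DB 0 (m : ℤ)) (GOA 0 (m : ℤ)) := by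
    have h2 : DB z (m : ℤ) ⊆ E := by rw [← HL_eq_DB]; exact hE
    rw [← Pr_GOA h2]
    exact Pr_congr fun ω _ => WA_zero_iff
  rw [e1]
  exact_mod_cast h1

/-- open half rings, uniform measure -/
theorem ring_prob : ∃ c : ℝ, 0 < c ∧ ∀ (κ : ℤ), (κ = 0 ∨ κ = 1) → ∀ (z : ℤ × ℤ) (ρ R : ℤ), 1 ≤ ρ →
    3 * (ρ + 1) ≤ R → ∀ E : Finset (ℤ × ℤ), AL κ z ρ R ⊆ E →
    c ≤ Pr E (RO κ z ρ R (3 * (ρ + 1))) := by
  obtain ⟨c, hc, h⟩ := RO_prob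
  refine ⟨c, hc, fun κ hκ z ρ R hρ hR E hE => ?_⟩
  have h1 := h (fun _ => 1 / 2) (fun _ => by norm_num) κ hκ z ρ R (ρ + 1) E hρ (by omega) hR hE
  rwa [PrP_half] at h1

lemma neg_third {x : ℝ} (hx : 0 ≤ x) : x ^ (-(1 / 3) : ℝ) = 1 / x ^ (1 / 3 : ℝ) := by
  rw [Real.rpow_neg hx]
  exact (one_div _).symm

lemma rpow_third (x : ℝ) (hx : 0 ≤ x) : (8 * x) ^ (1 / 3 : ℝ) = 2 * x ^ (1 / 3 : ℝ) := by
  rw [Real.mul_rpow (by norm_num) hx, show (8 : ℝ) = 2 ^ (3 : ℝ) by norm_num,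
    ← Real.rpow_mul (by norm_num)]
  norm_num

lemma rpow_third27 (x : ℝ) (hx : 0 ≤ x) : (27 * x) ^ (1 / 3 : ℝ) = 3 * x ^ (1 / 3 : ℝ) := by
  rw [Real.mul_rpow (by norm_num) hx, show (27 : ℝ) = 3 ^ (3 : ℝ) by norm_num,
    ← Real.rpow_mul (by norm_num)]
  norm_num

/-- **upper bound** -/
theorem arm_upper : ∃ C : ℝ, 0 < C ∧ ∀ (z : ℤ × ℤ) (ρ R : ℤ), 1 ≤ ρ → ρ ≤ R →
    ∀ E : Finset (ℤ × ℤ), HL 1 z R ⊆ E →
    Pr E (NA 1 z ρ R) ≤ C * ((ρ : ℝ) / R) ^ (1 / 3 : ℝ) := by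
  obtain ⟨c, C, hc, hC, hα⟩ := alpha_bounds
  obtain ⟨c0, hc0, hring⟩ := ring_prob
  refine ⟨2 * C / (c * c0) + 2, by positivity, fun z ρ R hρ hρR E hE => ?_⟩
  have hρ0 : (0 : ℝ) < ρ := by exact_mod_cast (by omega : 0 < ρ)
  have hR0 : (0 : ℝ) < R := by exact_mod_cast (by omega : 0 < R)
  have hx0 : (0 : ℝ) ≤ (ρ : ℝ) / R := by positivity
  have hX := Real.rpow_nonneg hx0 (1 / 3 : ℝ)
  have hK : 0 ≤ 2 * C / (c * c0) := by positivity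
  rcases lt_or_ge R (3 * (ρ + 1)) with h6 | h6
  · refine (Pr_le_one _ _).trans ?_
    have h1 : (R : ℝ) ≤ 8 * ρ := by exact_mod_cast (by omega : R ≤ 8 * ρ)
    have h2 : (1 : ℝ) ≤ 8 * ((ρ : ℝ) / R) := by
      rw [← mul_div_assoc, le_div_iff₀ hR0]
      linarith
    have h3 := Real.one_le_rpow h2 (by norm_num : (0 : ℝ) ≤ 1 / 3)
    rw [rpow_third _ hx0] at h3
    nlinarith
  · have h1 := (hα z (3 * (ρ + 1)) (by omega) E ((HL_mono h6).trans hE)).1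
    have h2 := (hα z R (by omega) E hE).2
    have h3 := hring 1 (Or.inr rfl) z ρ (3 * (ρ + 1)) hρ le_rfl E
      ((AL_sub_HL.trans (HL_mono h6)).trans hE)
    have h4 := harris3 E (A := WA 1 z 0 (3 * (ρ + 1))) (B := RO 1 z ρ (3 * (ρ + 1)) (3 * (ρ + 1)))
      (C := NA 1 z ρ R) WA_inc RO_inc NA_inc
    have h5 : Pr E (fun ω => WA 1 z 0 (3 * (ρ + 1)) ω ∧ RO 1 z ρ (3 * (ρ + 1)) (3 * (ρ + 1)) ω ∧
        NA 1 z ρ R ω) ≤ Pr E (WA 1 z 0 R) :=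
      Pr_mono fun ω _ h => glue_WA (Or.inr rfl) hρ (by omega) h6 (by omega) h.1 h.2.1 h.2.2
    set P := Pr E (NA 1 z ρ R) with hP
    have hP0 : 0 ≤ P := Pr_nonneg _ _
    have h7 : c * ((8 * ρ : ℝ)) ^ (-(1 / 3) : ℝ) ≤ Pr E (WA 1 z 0 (3 * (ρ + 1))) := by
      refine le_trans (mul_le_mul_of_nonneg_left ?_ hc.le) h1
      apply Real.rpow_le_rpow_of_nonpos
      · exact_mod_cast (by omega : 0 < 3 * (ρ + 1))
      · exact_mod_cast (by omega : 3 * (ρ + 1) ≤ 8 * ρ)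
      · norm_num
    have h8 : c * (8 * ρ : ℝ) ^ (-(1 / 3) : ℝ) * c0 * P ≤ C * (R : ℝ) ^ (-(1 / 3) : ℝ) := by
      refine le_trans ?_ ((h4.trans h5).trans h2)
      refine mul_le_mul_of_nonneg_right ?_ hP0
      exact mul_le_mul h7 h3 hc0.le (Pr_nonneg _ _)
    have e1 : (8 * ρ : ℝ) ^ (-(1 / 3) : ℝ) = 1 / (2 * (ρ : ℝ) ^ (1 / 3 : ℝ)) := by
      rw [neg_third (by positivity), rpow_third _ hρ0.le]
    have e2 : (R : ℝ) ^ (-(1 / 3) : ℝ) = 1 / (R : ℝ) ^ (1 / 3 : ℝ) := by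
      rw [neg_third hR0.le]
    have e3 : ((ρ : ℝ) / R) ^ (1 / 3 : ℝ) = (ρ : ℝ) ^ (1 / 3 : ℝ) / (R : ℝ) ^ (1 / 3 : ℝ) :=
      Real.div_rpow hρ0.le hR0.le _
    rw [e1, e2] at h8
    rw [e3]
    set a := (ρ : ℝ) ^ (1 / 3 : ℝ) with ha
    set b := (R : ℝ) ^ (1 / 3 : ℝ) with hb
    have ha0 : 0 < a := Real.rpow_pos_of_pos hρ0 _
    have hb0 : 0 < b := Real.rpow_pos_of_pos hR0 _
    have h9 : P ≤ 2 * C / (c * c0) * (a / b) := by
      rw [show 2 * C / (c * c0) * (a / b) = (C * (1 / b)) * (2 * a / (c * c0)) by ring]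
      calc P = (c * (1 / (2 * a)) * c0 * P) * (2 * a / (c * c0)) := by field_simp
        _ ≤ _ := mul_le_mul_of_nonneg_right h8 (by positivity)
    have h10 : 0 < a / b := by positivity
    nlinarith

/-- **lower bound for the crossing of the half annulus** -/
theorem cross_lower : ∃ c : ℝ, 0 < c ∧ ∀ (z : ℤ × ℤ) (r R : ℤ), 1 ≤ r → r < R →
    ∀ E : Finset (ℤ × ℤ), AL 1 z r R ⊆ E →
    c * ((r : ℝ) / R) ^ (1 / 3 : ℝ) ≤ Pr E (XA 1 z r R) := by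
  obtain ⟨c, C, hc, hC, hα⟩ := alpha_bounds
  refine ⟨c / C, by positivity, fun z r R hr hrR E hE => ?_⟩
  have hr0 : (0 : ℝ) < r := by exact_mod_cast (by omega : 0 < r)
  have hR0 : (0 : ℝ) < R := by exact_mod_cast (by omega : 0 < R)
  have e0 : Pr E (XA 1 z r R) = Pr (AL 1 z r R) (XA 1 z r R) := by
    rw [← Pr_restrict hE]
    exact Pr_congr fun ω _ => XA_loc
  have h1 := (hα z r hr (HL 1 z r) subset_rfl).2
  have h2 := (hα z R (by omega) (HL 1 z R) subset_rfl).1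
  have h3 := Pr_indep (E := HL 1 z R) (E1 := HL 1 z r) (E2 := AL 1 z r R) (HL_mono hrR.le)
    AL_sub_HL (AL_disj 1 z R) (WA 1 z 0 r) (XA 1 z r R)
  have h4 : Pr (HL 1 z R) (WA 1 z 0 R) ≤
      Pr (HL 1 z R) (fun ω => WA 1 z 0 r (ω ∩ HL 1 z r) ∧ XA 1 z r R (ω ∩ AL 1 z r R)) := by
    refine Pr_mono fun ω _ h => ⟨?_, ?_⟩
    · exact WA_loc.1 (h.cut (by omega) hrR.le)
    · exact XA_loc.1 ((h.na.mono_left (by omega : (0 : ℤ) ≤ r)).xa hrR)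
  rw [h3] at h4
  rw [e0]
  set P := Pr (AL 1 z r R) (XA 1 z r R) with hP
  have hP0 : 0 ≤ P := Pr_nonneg _ _
  have h5 : c * (R : ℝ) ^ (-(1 / 3) : ℝ) ≤ C * (r : ℝ) ^ (-(1 / 3) : ℝ) * P :=
    h2.trans (h4.trans (mul_le_mul_of_nonneg_right h1 hP0))
  have e1 : (r : ℝ) ^ (-(1 / 3) : ℝ) = 1 / (r : ℝ) ^ (1 / 3 : ℝ) := by
    rw [neg_third hr0.le]
  have e2 : (R : ℝ) ^ (-(1 / 3) : ℝ) = 1 / (R : ℝ) ^ (1 / 3 : ℝ) := by
    rw [neg_third hR0.le]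
  have e3 : ((r : ℝ) / R) ^ (1 / 3 : ℝ) = (r : ℝ) ^ (1 / 3 : ℝ) / (R : ℝ) ^ (1 / 3 : ℝ) :=
    Real.div_rpow hr0.le hR0.le _
  rw [e1, e2] at h5
  rw [e3]
  set a := (r : ℝ) ^ (1 / 3 : ℝ) with ha
  set b := (R : ℝ) ^ (1 / 3 : ℝ) with hb
  have ha0 : 0 < a := Real.rpow_pos_of_pos hr0 _
  have hb0 : 0 < b := Real.rpow_pos_of_pos hR0 _
  calc c / C * (a / b) = (c * (1 / b)) * (a / C) := by ring
    _ ≤ (C * (1 / a) * P) * (a / C) := mul_le_mul_of_nonneg_right h5 (by positivity)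
    _ = P := by field_simp

/-- **lower bound** -/
theorem arm_lower : ∃ c : ℝ, 0 < c ∧ ∀ (z : ℤ × ℤ) (ρ R : ℤ), 1 ≤ ρ → ρ ≤ R →
    ∀ E : Finset (ℤ × ℤ), HL 1 z R ⊆ E →
    c * ((ρ : ℝ) / R) ^ (1 / 3 : ℝ) ≤ Pr E (WA 1 z ρ R) := by
  obtain ⟨c, C, hc, hC, hα⟩ := alpha_bounds
  obtain ⟨c0, hc0, hring⟩ := ring_prob
  obtain ⟨c1, hc1, hcr⟩ := cross_lower
  refine ⟨min (c / 2) (c0 * c1 / 3), by positivity, fun z ρ R hρ hρR E hE => ?_⟩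
  have hρ0 : (0 : ℝ) < ρ := by exact_mod_cast (by omega : 0 < ρ)
  have hR0 : (0 : ℝ) < R := by exact_mod_cast (by omega : 0 < R)
  have hx0 : (0 : ℝ) ≤ (ρ : ℝ) / R := by positivity
  have hX := Real.rpow_nonneg hx0 (1 / 3 : ℝ)
  have e3 : ((ρ : ℝ) / R) ^ (1 / 3 : ℝ) = (ρ : ℝ) ^ (1 / 3 : ℝ) / (R : ℝ) ^ (1 / 3 : ℝ) :=
    Real.div_rpow hρ0.le hR0.le _
  rcases lt_or_ge ρ 6 with h6 | h6
  · have h1 := (hα z R (by omega) E hE).1
    have h2 : Pr E (WA 1 z 0 R) ≤ Pr E (WA 1 z ρ R) :=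
      Pr_mono fun ω _ h => h.mono_left (by omega)
    refine le_trans (mul_le_mul_of_nonneg_right (min_le_left _ _) hX) (le_trans ?_ (h1.trans h2))
    have e2 : (R : ℝ) ^ (-(1 / 3) : ℝ) = 1 / (R : ℝ) ^ (1 / 3 : ℝ) := by
      rw [neg_third hR0.le]
    have h3 : (ρ : ℝ) ^ (1 / 3 : ℝ) ≤ 2 := by
      have h4 : (ρ : ℝ) ≤ 8 * 1 := by exact_mod_cast (by omega : ρ ≤ 8 * 1)
      have h5 := Real.rpow_le_rpow hρ0.le h4 (by norm_num : (0 : ℝ) ≤ 1 / 3)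
      rwa [rpow_third 1 (by norm_num), Real.one_rpow, mul_one] at h5
    rw [e2, e3]
    have hb0 : 0 < (R : ℝ) ^ (1 / 3 : ℝ) := Real.rpow_pos_of_pos hR0 _
    calc c / 2 * ((ρ : ℝ) ^ (1 / 3 : ℝ) / (R : ℝ) ^ (1 / 3 : ℝ)) =
        (ρ : ℝ) ^ (1 / 3 : ℝ) * (c / 2 / (R : ℝ) ^ (1 / 3 : ℝ)) := by ring
      _ ≤ 2 * (c / 2 / (R : ℝ) ^ (1 / 3 : ℝ)) := mul_le_mul_of_nonneg_right h3 (by positivity)
      _ = c * (1 / (R : ℝ) ^ (1 / 3 : ℝ)) := by ring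
  · set r := ρ / 6 with hr
    have hr1 : 1 ≤ r := by omega
    have hrR : r < R := by omega
    have h1 := hcr z r R hr1 hrR E (AL_sub_HL.trans hE)
    have h2 := hring 1 (Or.inr rfl) z r (3 * (r + 1)) hr1 le_rfl E
      ((AL_sub_HL.trans (HL_mono (by omega))).trans hE)
    have h3 := Pr_harris E (A := RO 1 z r (3 * (r + 1)) (3 * (r + 1))) (B := XA 1 z r R)
      RO_inc XA_inc
    have h4 : Pr E (fun ω => RO 1 z r (3 * (r + 1)) (3 * (r + 1)) ω ∧ XA 1 z r R ω) ≤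
        Pr E (WA 1 z ρ R) := by
      refine Pr_mono fun ω _ h => ?_
      exact (land (Or.inr rfl) hr1 (by omega) (by omega) h.1 h.2.na).mono_left (by omega)
    refine le_trans (mul_le_mul_of_nonneg_right (min_le_right _ _) hX) (le_trans ?_ (h3.trans h4))
    refine le_trans ?_ (mul_le_mul h2 h1 (mul_nonneg hc1.le (Real.rpow_nonneg (by positivity) _))
      (Pr_nonneg _ _))
    have h5 : (ρ : ℝ) / R ≤ 27 * ((r : ℝ) / R) := by
      rw [← mul_div_assoc]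
      apply div_le_div_of_nonneg_right _ hR0.le
      exact_mod_cast (by omega : ρ ≤ 27 * r)
    have h7 := Real.rpow_le_rpow hx0 h5 (by norm_num : (0 : ℝ) ≤ 1 / 3)
    rw [rpow_third27 _ (by positivity)] at h7
    calc c0 * c1 / 3 * ((ρ : ℝ) / R) ^ (1 / 3 : ℝ) ≤
        c0 * c1 / 3 * (3 * ((r : ℝ) / R) ^ (1 / 3 : ℝ)) :=
          mul_le_mul_of_nonneg_left h7 (by positivity)
      _ = _ := by ring

/-! ### General domains, the other colour, the other side -/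

/-- **upper bound, every domain which is above the wall in the box** -/
theorem arm_upper_free : ∃ C : ℝ, 0 < C ∧ ∀ (z : ℤ × ℤ) (ρ R : ℤ), 1 ≤ ρ → ρ ≤ R →
    ∀ E : Finset (ℤ × ℤ), (∀ e ∈ E, (e.1 + e.2) % 2 = 1) → AboveD z R E →
    Pr E (fun ω => ∃ u v, Near z ρ u ∧ Far z R v ∧ Co ω u v) ≤
      C * ((ρ : ℝ) / R) ^ (1 / 3 : ℝ) := by
  obtain ⟨C, hC, h⟩ := arm_upper
  refine ⟨C + 1, by positivity, fun z ρ R hρ hρR E hodd hE => ?_⟩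
  have hρ0 : (0 : ℝ) < ρ := by exact_mod_cast (by omega : 0 < ρ)
  have hR0 : (0 : ℝ) < R := by exact_mod_cast (by omega : 0 < R)
  have hx0 : (0 : ℝ) ≤ (ρ : ℝ) / R := by positivity
  have hX := Real.rpow_nonneg hx0 (1 / 3 : ℝ)
  rcases eq_or_lt_of_le hρR with rfl | hlt
  · refine (Pr_le_one _ _).trans ?_
    rw [div_self hρ0.ne', Real.one_rpow]
    linarith
  · have h1 := h z ρ R hρ hρR (E ∪ HL 1 z R) subset_union_right
    have h2 : Pr E (fun ω => ∃ u v, Near z ρ u ∧ Far z R v ∧ Co ω u v) ≤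
        Pr E (NA 1 z ρ R) := by
      refine Pr_mono fun ω hω => ?_
      rintro ⟨u, v, g1, g2, g3⟩
      unfold Near at g1
      obtain ⟨v1, hv1, c1⟩ := open_exit g3 (by omega) g2
      refine ⟨u, v1, g1, hv1, c1.mono ?_⟩
      intro l hl
      rw [mem_inter, mem_Bx] at hl
      refine mem_inter.2 ⟨hl.1, ?_⟩
      have h3 := hE l (hω hl.1) (by rw [abs_le]; omega) (by rw [abs_le]; omega)
      have h4 := hodd l (hω hl.1)
      rw [mem_HL]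
      omega
    have h3 := Pr_inc (E1 := E) (E := E ∪ HL 1 z R) subset_union_left (NA_inc (κ := 1) (z := z)
      (ρ := ρ) (R := R))
    have h4 := (h2.trans h3).trans h1
    nlinarith

/-- **the other colour** : `f` is a face of the first row above the wall (`E.map sh1` is the domain of the
dual labels) -/
theorem arm_dual : ∃ c C : ℝ, 0 < c ∧ 0 < C ∧ ∀ (f : ℤ × ℤ) (ρ R : ℤ), 1 ≤ ρ → ρ ≤ R →
    ∀ E : Finset (ℤ × ℤ), (∀ e ∈ E, (e.1 + e.2) % 2 = 1) →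
    (HL 1 f R ⊆ E.map sh1 → c * ((ρ : ℝ) / R) ^ (1 / 3 : ℝ) ≤
      Pr E (fun ω => WA 1 f ρ R (du E ω))) ∧
    (AboveD f R (E.map sh1) → Pr E (fun ω => ∃ u v, Near f ρ u ∧ Far f R v ∧ Co (du E ω) u v) ≤
      C * ((ρ : ℝ) / R) ^ (1 / 3 : ℝ)) := by
  obtain ⟨c, hc, h⟩ := arm_lower
  obtain ⟨C, hC, h'⟩ := arm_upper_free
  refine ⟨c, C, hc, hC, fun f ρ R hρ hρR E hodd => ⟨fun hE => ?_, fun hE => ?_⟩⟩
  · rw [Pr_du E (WA 1 f ρ R)]
    exact h f ρ R hρ hρR _ hE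
  · rw [Pr_du E (fun ω => ∃ u v, Near f ρ u ∧ Far f R v ∧ Co ω u v)]
    refine h' f ρ R hρ hρR _ ?_ hE
    intro e he
    rw [mem_map] at he
    obtain ⟨l, hl, rfl⟩ := he
    have := hodd l hl
    simp only [sh1, Function.Embedding.coeFn_mk]
    omega

/-- point reflection at `z`, as a symmetry of the square lattice -/
def syP (z : ℤ × ℤ) : Sy where
  g u := (2 * z.1 - u.1, 2 * z.2 - u.2)
  g' u := (2 * z.1 - u.1, 2 * z.2 - u.2)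
  G := ⟨fun e => (4 * z.1 - e.1, 4 * z.2 - e.2), by
    intro a b h
    have h1 := congrArg Prod.fst h
    have h2 := congrArg Prod.snd h
    simp only at h1 h2
    exact Prod.ext (by omega) (by omega)⟩
  G' e := (4 * z.1 - e.1, 4 * z.2 - e.2)
  gg' u := by simp
  g'g u := by simp
  GG' e := by
    refine Prod.ext ?_ ?_ <;> simp only [Function.Embedding.coeFn_mk] <;> ring
  add u v := by
    refine Prod.ext ?_ ?_ <;>
    simp only [Function.Embedding.coeFn_mk, Prod.fst_add, Prod.snd_add] <;> ring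
  unit u v := by
    constructor
    · intro h
      have h1 := unit_cases h
      unfold IsUnit4
      simp only [Prod.ext_iff, Prod.fst_sub, Prod.snd_sub]
      omega
    · intro h
      have h1 := unit_cases h
      simp only at h1
      unfold IsUnit4
      simp only [Prod.ext_iff, Prod.fst_sub, Prod.snd_sub]
      omega

/-- labels of the half box below the diagonal wall through `z` -/
noncomputable def HM (z : ℤ × ℤ) (R : ℤ) : Finset (ℤ × ℤ) :=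
  (Bx (z.1 - R) (z.1 + R) (z.2 - R) (z.2 + R)).filter (fun l => l.1 + l.2 ≤ 2 * (z.1 + z.2))

lemma mem_HM {l : ℤ × ℤ} : l ∈ HM z R ↔
    ((2 * (z.1 - R) ≤ l.1 ∧ l.1 ≤ 2 * (z.1 + R)) ∧ (2 * (z.2 - R) ≤ l.2 ∧ l.2 ≤ 2 * (z.2 + R)) ∧
      (l.1 + l.2) % 2 = 1) ∧ l.1 + l.2 ≤ 2 * (z.1 + z.2) := by
  unfold HM; rw [mem_filter, mem_Bx]

/-- **the other side of the wall** -/
theorem arm_below : ∃ c C : ℝ, 0 < c ∧ 0 < C ∧ ∀ (z : ℤ × ℤ) (ρ R : ℤ), 1 ≤ ρ → ρ ≤ R →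
    ∀ E : Finset (ℤ × ℤ), (∀ e ∈ E, (e.1 + e.2) % 2 = 1) →
    (HM z R ⊆ E → c * ((ρ : ℝ) / R) ^ (1 / 3 : ℝ) ≤ Pr E (fun ω => ∃ u v,
      (u.1 + u.2 = z.1 + z.2 ∧ Near z ρ u) ∧ Far z R v ∧ Co (ω ∩ HM z R) u v)) ∧
    ((∀ l ∈ E, |l.1 - 2 * z.1| ≤ 2 * R → |l.2 - 2 * z.2| ≤ 2 * R → l.1 + l.2 ≤ 2 * (z.1 + z.2)) →
      Pr E (fun ω => ∃ u v, Near z ρ u ∧ Far z R v ∧ Co ω u v) ≤
      C * ((ρ : ℝ) / R) ^ (1 / 3 : ℝ)) := by
  obtain ⟨c, hc, h⟩ := arm_lower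
  obtain ⟨C, hC, h'⟩ := arm_upper_free
  refine ⟨c, C, hc, hC, fun z ρ R hρ hρR E hodd => ?_⟩
  set E' : Finset (ℤ × ℤ) := E.map (syP z).G with hE'
  have hmem : ∀ e, e ∈ E ↔ (syP z).G' e ∈ E' := by
    intro e
    rw [hE', (syP z).mem_map, show (syP z).G' ((syP z).G' e) = e by
      refine Prod.ext ?_ ?_ <;> simp [syP]]
  have hg : ∀ u, (syP z).g ((syP z).g u) = u := fun u => by
    refine Prod.ext ?_ ?_ <;> simp [syP]
  have hnear : ∀ u, Near z ρ ((syP z).g u) ↔ Near z ρ u := fun u => by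
    unfold Near syP
    simp only
    rw [abs_le, abs_le, abs_le, abs_le]
    omega
  have hfar : ∀ u, Far z R ((syP z).g u) ↔ Far z R u := fun u => by
    unfold Far syP
    simp only
    rw [le_abs, le_abs, le_abs, le_abs]
    omega
  constructor
  · intro hE
    rw [(syP z).Pr hmem]
    refine (h z ρ R hρ hρR E' ?_).trans (Pr_mono fun ω _ => ?_)
    · intro l hl
      rw [hE', (syP z).mem_map]
      apply hE
      rw [mem_HL] at hl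
      rw [mem_HM]
      simp only [syP]
      omega
    · rintro ⟨u, v, h1, h2, h3⟩
      refine ⟨(syP z).g u, (syP z).g v, ⟨?_, (hnear u).2 h1.2⟩, (hfar v).2 h2, ?_⟩
      · have := h1.1
        unfold ht at this
        simp only [syP]
        omega
      · rw [(syP z).map_inter ω (E1 := HL 1 z R) (fun e => by
          rw [mem_HM, mem_HL]
          simp only [syP]
          omega), (syP z).co_iff]
        exact h3
  · intro hE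
    rw [(syP z).Pr hmem]
    refine le_trans (Pr_mono fun ω _ => ?_) (h' z ρ R hρ hρR E' ?_ ?_)
    · rintro ⟨u, v, h1, h2, h3⟩
      refine ⟨(syP z).g u, (syP z).g v, (hnear u).2 h1, (hfar v).2 h2, ?_⟩
      rw [← (syP z).co_iff, hg, hg]
      exact h3
    · intro e he
      rw [hE', (syP z).mem_map] at he
      have := hodd _ he
      simp only [syP] at this
      omega
    · intro l hl h1 h2
      rw [hE', (syP z).mem_map] at hl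
      rw [abs_le] at h1 h2
      have := hE _ hl (by simp only [syP]; rw [abs_le]; omega)
        (by simp only [syP]; rw [abs_le]; omega)
      have h3 := hodd _ hl
      simp only [syP] at this h3
      omega

end Pool.Agent.H60.W
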