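import Mathlib
import Pool.Agent.H60.W.Arm1
import Pool.Agent.H91.W.Bank

set_option autoImplicit false
open Finset

/-!
# Route W, module D2: one arm from a staircase bank, lower bound

`bank_lower` : in a staircase domain of thickness `T ≤ ρ / 64` some bank vertex at distance at most `ρ` of
the wall point `z` is joined to distance `R` with probability at least `c (ρ / R) ^ (1/3)`.
-/

namespace Pool.Agent.H60.W

open Pool.Agent.H75.Perc Pool.Agent.H75.TwoArm Pool.Agent.H75.Four Pool.Agent.H49.Perc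
open Pool.Agent.H99.NC Pool.Agent.H60.Q1 Pool.Agent.H91.W

variable {k T : ℤ} {Q E : Finset (ℤ × ℤ)} {z : ℤ × ℤ} {ρ R : ℤ} {ω : Finset (ℤ × ℤ)}

/-- some bank vertex near `z` is joined to distance `R` inside `E` -/
def BA (Q E : Finset (ℤ × ℤ)) (z : ℤ × ℤ) (ρ R : ℤ) (ω : Finset (ℤ × ℤ)) : Prop :=
  ∃ v w, (Bk Q E v ∧ Near z ρ v) ∧ Far z R w ∧ Co (ω ∩ E) v w

lemma BA_inc : Inc (BA Q E z ρ R) := by
  rintro ω ω' h ⟨v, w, h1, h2, h3⟩
  exact ⟨v, w, h1, h2, h3.mono (inter_subset_inter_right h)⟩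

/-- the upper flat half plane is contained in `E` -/
lemma HL_sub_stair (hS : Stair k T Q E) (hz : z.1 + z.2 = k) (hT : 0 ≤ T)
    (hQ : BR z (R + T) ⊆ Q) : HL 1 (z.1 + T, z.2) R ⊆ E := by
  intro l hl
  rw [mem_HL] at hl
  simp only at hl
  refine hS.up l (hQ ?_) (by omega)
  rw [mem_BR]
  omega

/-- a half ring of `E` and a crossing above give an arm from the bank -/
lemma bank_land (hS : Stair k T Q E) (hz : z.1 + z.2 = k) (hT : 0 ≤ T) {a b r : ℤ}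
    (hr : 1 ≤ r) (ha : r + 2 * T + 1 ≤ a) (hab : a ≤ b) (hbR : b ≤ R) (hQ : BR z (R + 2 * T) ⊆ Q)
    (h1 : Arc Q E T z a b ω) (h2 : XA 1 (z.1 + T, z.2) r (R + T) ω) : BA Q E z b R ω := by
  obtain ⟨p, p', hp, hp', hp1, hp2, hpp⟩ := h1
  obtain ⟨u, v, hu, hv, huv⟩ := h2
  have hsub : ω ∩ AL 1 (z.1 + T, z.2) r (R + T) ⊆ ω ∩ E := by
    refine inter_subset_inter_left (AL_sub_HL.trans (HL_sub_stair hS hz hT ?_))
    rwa [show R + T + T = R + 2 * T by ring]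
  have hu' : Near z (r + T) u := by
    unfold Near at hu ⊢
    simp only [abs_le] at hu ⊢
    omega
  have hv' : Far z R v := by
    unfold Far at hv ⊢
    simp only [le_abs] at hv ⊢
    omega
  have hv'' : Far z b v := by unfold Far at hv' ⊢; omega
  have hsE : ω ∩ E ∩ Rg z (a - 1) b ⊆ E := inter_subset_left.trans inter_subset_right
  have hsR : ω ∩ E ∩ Rg z (a - 1) b ⊆ Rg z (r + T + T) b := by
    intro l hl
    obtain ⟨h1, h2⟩ := mem_Rg.1 (mem_inter.1 hl).2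
    exact mem_Rg.2 ⟨h1, fun h3 => h2 (BR_mono (by omega) h3)⟩
  have huv' : Co (ω ∩ E) u v := huv.mono hsub
  obtain ⟨w, c1, c2⟩ := PLS hS hz (ρ := r + T) (R := b) (by omega) hT (by omega)
    ((BR_mono (by omega)).trans hQ) hsE hsR hp hp' (by omega) (by omega) hpp
    (θ := ω ∩ E) inter_subset_right huv' hu' hv''
  -- position of `p`
  have hne : p ≠ p' := by rintro rfl; omega
  have hA : ω ∩ E ∩ Rg z (a - 1) b ⊆ AL 1 z (a - 1) b := by
    intro l hl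
    obtain ⟨h5, h6⟩ := mem_Rg.1 (mem_inter.1 hl).2
    have h7 := hS.lo l (hsE hl) (hQ (BR_mono (by omega) h5))
    rw [mem_BR] at h5 h6
    rw [mem_AL]
    exact ⟨⟨h5, by omega⟩, h6⟩
  obtain ⟨rp, -⟩ := Co.reg (Or.inr rfl) hA hpp hne
  refine ⟨p, v, ⟨hp, rp.2.1⟩, hv', ?_⟩
  have c1' : Co (ω ∩ E) p w := c1.mono inter_subset_left
  have c2' : Co (ω ∩ E) u w := c2.mono inter_subset_left
  exact (c1'.trans c2'.symm).trans huv'

lemma BA.mono_left {ρ' : ℤ} (h : ρ ≤ ρ') (h1 : BA Q E z ρ R ω) : BA Q E z ρ' R ω := by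
  obtain ⟨v, w, g1, g2, g3⟩ := h1
  exact ⟨v, w, ⟨g1.1, g1.2.1.trans h, g1.2.2.trans h⟩, g2, g3⟩

lemma rpow_third64 (x : ℝ) (hx : 0 ≤ x) : (64 * x) ^ (1 / 3 : ℝ) = 4 * x ^ (1 / 3 : ℝ) := by
  rw [Real.mul_rpow (by norm_num) hx, show (64 : ℝ) = 4 ^ (3 : ℝ) by norm_num,
    ← Real.rpow_mul (by norm_num)]
  norm_num

/-- **one arm from a staircase bank** -/
theorem bank_lower : ∃ c : ℝ, 0 < c ∧ ∀ (k T : ℤ) (Q E : Finset (ℤ × ℤ)), Stair k T Q E →
    ∀ (z : ℤ × ℤ) (ρ R : ℤ), z.1 + z.2 = k → 0 ≤ T → 1 ≤ ρ → 64 * T ≤ ρ → ρ ≤ R →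
    BR z (2 * R) ⊆ Q → c * ((ρ : ℝ) / R) ^ (1 / 3 : ℝ) ≤ Pr E (BA Q E z ρ R) := by
  obtain ⟨c0, C0, hc0, hC0, hα⟩ := alpha_bounds
  obtain ⟨c1, hc1, hcr⟩ := cross_lower
  obtain ⟨c2, hc2, harc⟩ := arc_prob 4
  refine ⟨min (c0 / 4) (c2 * c1 / 3), by positivity, ?_⟩
  intro k T Q E hS z ρ R hz hT hρ hTρ hρR hQ
  have hρ0 : (0 : ℝ) < ρ := by exact_mod_cast (by omega : 0 < ρ)
  have hR0 : (0 : ℝ) < R := by exact_mod_cast (by omega : 0 < R)
  have hx0 : (0 : ℝ) ≤ (ρ : ℝ) / R := by positivity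
  have hX := Real.rpow_nonneg hx0 (1 / 3 : ℝ)
  rcases lt_or_ge ρ 64 with h6 | h6
  · obtain rfl : T = 0 := by omega
    have hHL : HL 1 z R ⊆ E := by
      have h1 := HL_sub_stair (R := R) hS hz le_rfl ((BR_mono (by omega)).trans hQ)
      rwa [add_zero] at h1
    have h1 := (hα z R (by omega) E hHL).1
    have h2 : Pr E (WA 1 z 0 R) ≤ Pr E (BA Q E z ρ R) := by
      refine Pr_mono fun ω _ h => ?_
      obtain ⟨u, v, g1, g2, g3⟩ := h
      have e : u = z := by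
        have h4 := g1.2
        unfold Near at h4
        rw [abs_le, abs_le] at h4
        exact Prod.ext (by omega) (by omega)
      subst e
      refine ⟨u, v, ⟨⟨(2 * u.1 - 1, 2 * u.2), hQ ?_, ?_, Or.inl ⟨rfl, Or.inr rfl⟩⟩, ?_⟩, g2,
        g3.mono (inter_subset_inter_left hHL)⟩
      · rw [mem_BR]
        simp only
        omega
      · intro h
        have := hS.lo _ h (hQ (by
          rw [mem_BR]
          simp only
          omega))
        simp only at this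
        omega
      · unfold Near
        rw [sub_self, sub_self, abs_zero]
        omega
    refine le_trans (mul_le_mul_of_nonneg_right (min_le_left _ _) hX) (le_trans ?_ (h1.trans h2))
    have e3 : ((ρ : ℝ) / R) ^ (1 / 3 : ℝ) = (ρ : ℝ) ^ (1 / 3 : ℝ) / (R : ℝ) ^ (1 / 3 : ℝ) :=
      Real.div_rpow hρ0.le hR0.le _
    have h3 : (ρ : ℝ) ^ (1 / 3 : ℝ) ≤ 4 := by
      have h4 : (ρ : ℝ) ≤ 64 * 1 := by exact_mod_cast (by omega : ρ ≤ 64 * 1)
      have h5 := Real.rpow_le_rpow hρ0.le h4 (by norm_num : (0 : ℝ) ≤ 1 / 3)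
      rwa [rpow_third64 1 (by norm_num), Real.one_rpow, mul_one] at h5
    rw [neg_third hR0.le, e3]
    have hb0 : 0 < (R : ℝ) ^ (1 / 3 : ℝ) := Real.rpow_pos_of_pos hR0 _
    calc c0 / 4 * ((ρ : ℝ) ^ (1 / 3 : ℝ) / (R : ℝ) ^ (1 / 3 : ℝ)) =
        (ρ : ℝ) ^ (1 / 3 : ℝ) * (c0 / 4 / (R : ℝ) ^ (1 / 3 : ℝ)) := by ring
      _ ≤ 4 * (c0 / 4 / (R : ℝ) ^ (1 / 3 : ℝ)) := mul_le_mul_of_nonneg_right h3 (by positivity)
      _ = c0 * (1 / (R : ℝ) ^ (1 / 3 : ℝ)) := by ring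
  · set a := ρ / 4 with ha
    set b := ρ / 2 with hb
    set r := a - 2 * T - 1 with hr
    have hr1 : 1 ≤ r := by omega
    have hrR : r < R + T := by omega
    have hHL : HL 1 (z.1 + T, z.2) (R + T) ⊆ E :=
      HL_sub_stair hS hz hT ((BR_mono (by omega)).trans hQ)
    have h1 := hcr (z.1 + T, z.2) r (R + T) hr1 hrR E (AL_sub_HL.trans hHL)
    have h2 := harc (fun _ => 1 / 2) (fun _ => by norm_num) k T Q E hS z a b hz hT (by omega)
      (by omega) (by push_cast; omega) ((BR_mono (by omega)).trans hQ)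
    rw [PrP_half] at h2
    have h3 := Pr_harris E (A := Arc Q E T z a b) (B := XA 1 (z.1 + T, z.2) r (R + T))
      Arc_inc XA_inc
    have h4 : Pr E (fun ω => Arc Q E T z a b ω ∧ XA 1 (z.1 + T, z.2) r (R + T) ω) ≤
        Pr E (BA Q E z ρ R) := by
      refine Pr_mono fun ω _ h => ?_
      exact (bank_land hS hz hT hr1 (by omega) (by omega) (by omega)
        ((BR_mono (by omega)).trans hQ) h.1 h.2).mono_left (by omega)
    refine le_trans (mul_le_mul_of_nonneg_right (min_le_right _ _) hX) (le_trans ?_ (h3.trans h4))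
    refine le_trans ?_ (mul_le_mul h2 h1 (mul_nonneg hc1.le (Real.rpow_nonneg (div_nonneg
      (by exact_mod_cast (by omega : 0 ≤ r)) (by exact_mod_cast (by omega : 0 ≤ R + T))) _))
      (Pr_nonneg _ _))
    have hr0 : (0 : ℝ) ≤ ((r : ℤ) : ℝ) / ((R + T : ℤ) : ℝ) := div_nonneg
      (by exact_mod_cast (by omega : 0 ≤ r)) (by exact_mod_cast (by omega : 0 ≤ R + T))
    have h5 : (ρ : ℝ) / R ≤ 27 * (((r : ℤ) : ℝ) / ((R + T : ℤ) : ℝ)) := by
      have hRT : (0 : ℝ) < ((R + T : ℤ) : ℝ) := by exact_mod_cast (by omega : 0 < R + T)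
      rw [← mul_div_assoc, div_le_div_iff₀ hR0 hRT]
      have g1 : ρ * R ≤ 8 * r * R := mul_le_mul_of_nonneg_right (by omega) (by omega)
      have g2 : ρ * T ≤ ρ * R := mul_le_mul_of_nonneg_left (by omega) (by omega)
      have g3 : 0 ≤ r * R := mul_nonneg (by omega) (by omega)
      have h7 : (ρ : ℤ) * (R + T) ≤ 27 * r * R := by nlinarith
      exact_mod_cast h7
    have h7 := Real.rpow_le_rpow hx0 h5 (by norm_num : (0 : ℝ) ≤ 1 / 3)
    rw [rpow_third27 _ hr0] at h7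
    calc c2 * c1 / 3 * ((ρ : ℝ) / R) ^ (1 / 3 : ℝ) ≤
        c2 * c1 / 3 * (3 * (((r : ℤ) : ℝ) / ((R + T : ℤ) : ℝ)) ^ (1 / 3 : ℝ)) :=
          mul_le_mul_of_nonneg_left h7 (by positivity)
      _ = _ := by ring

end Pool.Agent.H60.W
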