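import Pool.Agent.H60.W.SegR
import Pool.Agent.H54.W.FlatBox
import Pool.Agent.H20.Sp.RunX

set_option autoImplicit false
open Finset

/-! # The ties of a window with a flat right wall by segments

`seg_box` : flat boxes around the grid points of a segment. `tl s c g` : the kept tile of the kind `s` and the
colour `c` with the inner end `g`. `tie_cover` : the inner end of every tie is a grid point of a segment.
`lab D p i g t` : the label of the tie at the grid point `t` of the segment `(i, g)`. `deep_tie` : at distance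
`≥ 4` from the ends it is a tie iff the grid point has the colour of the segment. `runsK_R` : the ties of one
family lie on few walls. `card_fam` : the number of families. -/

namespace Pool.Agent.H60.W.N

open Pool.Agent.H75.Perc Pool.Agent.H75.TwoArm Pool.Agent.Q1 Pool.Agent.H33.Q1
open Pool.Agent.H69.Q1
open Pool.Agent.H54.W (Win)
open Pool.Agent.H54.W.N (FlatBox ev_bt hS_bt)
open Pool.Agent.H54.Sp (hS cS Sq)
open Pool.Agent.H46.Sp (nxt nxt_le nxt_mem le_nxt not_lev)
open Pool.Agent.H72.W.N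
open Pool.Agent.H42.Sp (Sd Ix kt rt)
open Pool.Agent.H13.R45 (ev gp ev_true ev_false)
open Pool.Agent.H39.Q1 Pool.Agent.H20.Q1
open Pool.Agent.Q1.M6c
open Pool.Agent.H20.Sp (Prog prog_par RunsW.of_prog)

variable {D : Win} {p : Bool} {G : Finset ℤ} {g n r x y u v t s0 : ℤ} {i : Fin 6} {s : Sd} {c : Bool}

lemma hT_eq {z : ℤ × ℤ} : hT s z x y = hS s z x y := by cases s <;> rfl

/-- **Flat boxes around the grid points of a segment.** -/
theorem seg_box (hcut : colp D (s0 - 1) ≠ colp D s0) (hG : Lev D G) (hF : Fat D n) (hl : Ldg D G n)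
    (hv : Val D G i g) (hr : r ≤ n) (h0 : e0 D p i g + r ≤ u) (h1 : u + r ≤ e1 D p G i g) :
    FlatBox D p s0 (sK i) (aS D s0 i g) (pt D p i g u) r where
  inP x y h := by
    rw [← hT_eq]
    exact seg_in hG hF hl hv hr h0 h1 h.1 h.2
  arc x y h h2 := by
    rw [← hT_eq] at h2
    exact seg_arc hcut hG hl hv hr h0 h1 h.1 h.2 h2

/-! ### Ties by their inner ends -/

/-- the kept tile of the kind `s` and the colour `c` with the inner end `g` -/
def tl : Sd → Bool → ℤ × ℤ → ℤ × ℤ
  | .L, true, g => (g.1 - 1, g.2)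
  | .L, false, g => (g.1 - 1, g.2 - 1)
  | .R, true, g => (g.1, g.2 - 1)
  | .R, false, g => (g.1, g.2)
  | .F, true, g => (g.1, g.2 - 1)
  | .F, false, g => (g.1 - 1, g.2 - 1)
  | .C, true, g => (g.1 - 1, g.2)
  | .C, false, g => (g.1, g.2)

lemma bt_tl (z : ℤ × ℤ) : bt s c (tl s c z) = z := by
  obtain ⟨a, b⟩ := z
  cases s <;> cases c <;> simp [bt, tl]

lemma tl_bt (z : ℤ × ℤ) : tl s c (bt s c z) = z := by
  obtain ⟨a, b⟩ := z
  cases s <;> cases c <;> simp [bt, tl]

lemma tl_near (z : ℤ × ℤ) : z.1 - 1 ≤ (tl s c z).1 ∧ (tl s c z).1 ≤ z.1 ∧ z.2 - 1 ≤ (tl s c z).2 ∧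
    (tl s c z).2 ≤ z.2 := by
  cases s <;> cases c <;> (simp only [tl]; omega)

lemma tl_odd {z : ℤ × ℤ} (h : ev z = c) : ((tl s c z).1 + (tl s c z).2) % 2 = 1 := by
  cases c
  · rw [ev_false] at h
    cases s <;> (simp only [tl]; omega)
  · rw [ev_true] at h
    cases s <;> (simp only [tl]; omega)

/-- the label of the tie at a grid point of a segment -/
def lab (D : Win) (p : Bool) (i : Fin 6) (g t : ℤ) : ℤ × ℤ :=
  lt (tl (sK i) (ev (pt D p i g t)) (pt D p i g t))

/-- **Every layer tile lies on a segment.** `t` and `t + 1` are its two inner grid points. -/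
theorem ly_cover (hG : Lev D G) (hR : s = .R → RCol D G) (h : LyA D p s x y) :
    ∃ i g t, Val D G i g ∧ sK i = s ∧
    e0 D p i g ≤ t ∧ t + 1 ≤ e1 D p G i g ∧
    ((s = .L → pt D p i g t = (x + 1, y)) ∧ (s = .R → pt D p i g t = (x, y)) ∧
      (s = .F → pt D p i g t = (x, y + 1)) ∧ (s = .C → pt D p i g t = (x, y))) := by
  have hh := D.hh
  have hs := sh_nonneg p
  have hs1 := sh_le p
  unfold LyA at h
  cases s
  · obtain ⟨h1, h2, h3, -, -⟩ := h
    obtain ⟨g, hg, h4, h5⟩ := hG.exists_lev h1 h2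
    have h6 := hG.a_eq hg h4 h5
    refine ⟨0, g, y, ⟨hg, by simp only; omega⟩, rfl, ?_, ?_, ?_⟩
    · simp only [e0]; omega
    · simp only [e1]; omega
    · simp only [pt, reduceCtorEq, IsEmpty.forall_iff, and_true, forall_const, Prod.mk.injEq]
      omega
  · obtain ⟨h1, h2, h3⟩ := h
    obtain ⟨g, hg, h4, h5⟩ := hG.exists_lev h1 h2
    refine ⟨1, g, y, ⟨hg, by simp only; exact ⟨by omega, fun z h6 h7 => hG.cr_eq (hR rfl) hg h6 h7⟩⟩, rfl,
      ?_, ?_, ?_⟩
    · simp only [e0]; omega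
    · simp only [e1]; omega
    · simp only [pt, reduceCtorEq, IsEmpty.forall_iff, and_true, true_and, forall_const, Prod.mk.injEq]
      omega
  · obtain ⟨h1, h2, h3, h4, h5⟩ := h
    by_cases h0 : 0 ≤ y
    · have h6 := h5 h0
      have hg : y + 1 ∈ G := hG.drop_mem (by omega) h2 (by rw [add_sub_cancel_right]; omega)
      refine ⟨2, y + 1, x, ⟨hg, ?_⟩, rfl, ?_, ?_, ?_⟩
      · simp only [add_sub_cancel_right]; omega
      · simp only [e0]; omega
      · simp only [e1, add_sub_cancel_right]; omega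
      · simp [pt]
    · have e : y = -1 := by omega
      subst e
      refine ⟨3, 0, x, ⟨hG.zero, rfl⟩, rfl, ?_, ?_, ?_⟩
      · simp only [e0]
        rw [show (-1 : ℤ) + 1 = 0 by norm_num] at h3
        omega
      · simp only [e1]; omega
      · simp [pt]
  · obtain ⟨h1, h2, h3, h4, h5⟩ := h
    by_cases h0 : y < D.h
    · have h6 := h5 h0
      have hg : y ∈ G := hG.drop_mem (by omega) h0 (by omega)
      refine ⟨4, y, x, ⟨hg, ?_⟩, rfl, ?_, ?_, ?_⟩
      · simp only; omega
      · simp only [e0]; omega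
      · simp only [e1]; omega
      · simp [pt]
    · have e : y = D.h := by omega
      subst e
      refine ⟨5, D.h, x, ⟨hG.h, rfl⟩, rfl, ?_, ?_, ?_⟩
      · simp only [e0]; omega
      · simp only [e1]; omega
      · simp [pt]

/-- the next grid point -/
lemma pt_succ : pt D p i g (t + 1) = (match sK i with
    | .L => ((pt D p i g t).1, (pt D p i g t).2 + 1)
    | .R => ((pt D p i g t).1, (pt D p i g t).2 + 1)
    | .F => ((pt D p i g t).1 + 1, (pt D p i g t).2)
    | .C => ((pt D p i g t).1 + 1, (pt D p i g t).2)) := by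
  fin_cases i <;> rfl

/-- **The inner end of every tie is a grid point of a segment.** -/
theorem tie_cover (hG : Lev D G) (hR : RCol D G ∨ NoR D p) (h : TieP D p s c u v) :
    ∃ i g t, Val D G i g ∧ sK i = s ∧
    e0 D p i g ≤ t ∧ t ≤ e1 D p G i g ∧ bt s c (u, v) = pt D p i g t ∧ lt (u, v) = lab D p i g t := by
  obtain ⟨i, g, t, h1, h2, h3, h4, h5⟩ := ly_cover hG (fun hs => by
    subst hs
    exact hR.resolve_right fun h' => h' _ _ h.2.1) h.ly
  have key : ∀ t', bt s c (u, v) = pt D p i g t' → lt (u, v) = lab D p i g t' := by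
    intro t' h6
    unfold lab
    rw [← h6, h2, ev_bt (t := (u, v)) h.odd, tl_bt]
  have hn := pt_succ (D := D) (p := p) (i := i) (g := g) (t := t)
  rw [h2] at hn
  have hor : bt s c (u, v) = pt D p i g t ∨ bt s c (u, v) = pt D p i g (t + 1) := by
    obtain ⟨k1, k2, k3, k4⟩ := h5
    cases s
    · rw [hn, k1 rfl]; cases c <;> simp [bt]
    · rw [hn, k2 rfl]; cases c <;> simp [bt]
    · rw [hn, k3 rfl]; cases c <;> simp [bt]
    · rw [hn, k4 rfl]; cases c <;> simp [bt]
  rcases hor with h6 | h6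
  · exact ⟨i, g, t, h1, h2, h3, by omega, h6, key _ h6⟩
  · exact ⟨i, g, t + 1, h1, h2, by omega, h4, h6, key _ h6⟩

/-- **Deep ties.** -/
theorem deep_tie (hcut : colp D (s0 - 1) ≠ colp D s0) (hG : Lev D G) (hF : Fat D n) (hl : Ldg D G n)
    (hv : Val D G i g) (hr : 4 ≤ n) (h0 : e0 D p i g + 4 ≤ t) (h1 : t + 4 ≤ e1 D p G i g)
    (h2 : ev (pt D p i g t) = colp D (aS D s0 i g)) :
    lab D p i g t ∈ TF (TA D p) (fmA D p s0) (aS D s0 i g) ∧ bA D p (lab D p i g t) = gp (pt D p i g t) := by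
  have hB := seg_box (p := p) (s0 := s0) hcut hG hF hl hv hr h0 h1
  obtain ⟨z, hz⟩ : ∃ z, z = pt D p i g t := ⟨_, rfl⟩
  obtain ⟨w, hw⟩ : ∃ w, w = tl (sK i) (ev z) z := ⟨_, rfl⟩
  obtain ⟨u, v⟩ := w
  have hnr := tl_near (s := sK i) (c := ev z) z
  rw [← hw] at hnr
  have hsq : Sq z (4 - 3) u v := by unfold Sq; simp only at hnr; omega
  have hsq' : Sq z 4 u v := by unfold Sq; simp only at hnr; omega
  rw [← hz] at hB h2
  have hhS : hS (sK i) z u v = -1 := by
    have := hS_bt (s := sK i) (c := ev z) (tl (sK i) (ev z) z)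
    rwa [bt_tl, ← hw] at this
  have hodd : (u + v) % 2 = 1 := by
    have := tl_odd (s := sK i) (z := z) (c := ev z) rfl
    rwa [← hw] at this
  have hTi : TieP D p (sK i) (ev z) u v := (hB.tie hsq).2 ⟨rfl, h2, hhS, hodd⟩
  have hlab : lab D p i g t = lt (u, v) := by unfold lab; rw [← hz, ← hw]
  rw [hlab, ← hz]
  refine ⟨mem_TF.2 ⟨mem_TA.2 ⟨_, _, hTi⟩, ?_⟩, ?_⟩
  · rw [hTi.fm]
    refine hB.arc _ _ ?_ ?_
    · unfold Sq at hsq' ⊢
      cases hk : sK i <;> simp only [dr] <;> simp only at hnr <;> omega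
    · rw [← hT_eq] at hhS ⊢
      cases hk : sK i <;> rw [hk] at hhS <;> simp only [dr, hT] at hhS ⊢ <;> omega
  · rw [hTi.b, hw, bt_tl]

/-! ### Runs -/

/-- the mirror of a kind -/
def eps : Sd → Bool × Bool
  | .L => (false, false)
  | .R => (true, true)
  | .F => (true, false)
  | .C => (false, true)

/-- the positions of a segment at distance `≥ c` from its ends which have its colour -/
def QS (D : Win) (p : Bool) (G : Finset ℤ) (s0 c : ℤ) (i : Fin 6) (g u : ℤ) : Prop :=
  Val D G i g ∧ e0 D p i g + c ≤ u ∧ u + c ≤ e1 D p G i g ∧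
    ev (pt D p i g u) = colp D (aS D s0 i g)

lemma prog_QS {c : ℤ} : Prog (QS D p G s0 c i g) := by
  have key : ∀ (v z : ℤ), (pt D p i g z).1 + (pt D p i g z).2 = z + v →
      (ev (pt D p i g z) = colp D (aS D s0 i g) ↔
        (z + v) % 2 = if colp D (aS D s0 i g) = true then 0 else 1) := by
    intro v z hz
    cases colp D (aS D s0 i g)
    · rw [ev_false, hz]; simp
    · rw [ev_true, hz]; simp
  obtain ⟨v, hv⟩ : ∃ v, ∀ z, (pt D p i g z).1 + (pt D p i g z).2 = z + v := by
    fin_cases i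
    · exact ⟨D.a g - sh p, fun z => by simp only [pt]; ring⟩
    · exact ⟨D.w - sh p, fun z => by simp only [pt]; ring⟩
    · exact ⟨g, fun z => by simp only [pt]⟩
    · exact ⟨g, fun z => by simp only [pt]⟩
    · exact ⟨g, fun z => by simp only [pt]⟩
    · exact ⟨g, fun z => by simp only [pt]⟩
  refine prog_par (P := Val D G i g) (u0 := e0 D p i g + c) (u1 := e1 D p G i g - c) (v := v)
    (r := if colp D (aS D s0 i g) = true then 0 else 1) fun u => ?_
  unfold QS
  rw [key v u (hv u)]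
  constructor
  · rintro ⟨h1, h2, h3, h4⟩; exact ⟨h1, h2, by omega, h4⟩
  · rintro ⟨h1, h2, h3, h4⟩; exact ⟨h1, h2, by omega, h4⟩

/-- the length of a segment -/
lemma seg_len (hG : Lev D G) (hv : Val D G i g) {K : ℤ} (hh : D.h ≤ K) (hw : D.w - D.lo ≤ K) :
    e1 D p G i g - e0 D p i g ≤ K := by
  obtain ⟨hg, hv⟩ := hv
  have lo := hG.lo g hg
  have hi := hG.hi g hg
  have hhh := D.hh
  fin_cases i
  · simp only [e0, e1] at *
    have := hG.nxt_h (g := g) hv
    omega
  · simp only [e0, e1] at *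
    have := hG.nxt_h (g := g) hv.1
    omega
  · simp only [e0, e1] at *
    have k1 := D.hlo g lo (by omega)
    have k2 := D.aw (g - 1) (by omega) (by omega)
    omega
  · simp only [e0, e1] at *
    subst hv
    have k1 := D.hlo 0 le_rfl (by omega)
    omega
  · simp only [e0, e1] at *
    have k1 := D.hlo (g - 1) (by omega) (by omega)
    have k2 := D.aw g (by omega) (by omega)
    omega
  · simp only [e0, e1] at *
    subst hv
    have k1 := D.hlo (D.h - 1) (by omega) (by omega)
    omega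

variable {W Bb TT T Wi Li : Finset (ℤ × ℤ)} {o : ℤ × ℤ → ℤ × ℤ} {co : Bool} {L J : ℕ} {δ : ℤ × ℤ}

open Classical in
/-- the runs of one segment -/
theorem seg_runs {c a : ℤ} (hcut : colp D (s0 - 1) ≠ colp D s0) (hG : Lev D G) (hF : Fat D n)
    (hl : Ldg D G n) (hc : 4 ≤ c) (hn : 4 ≤ n)
    (hh : D.h ≤ 2 * (J * L)) (hw : D.w - D.lo ≤ 2 * (J * L))
    (hflat : ∀ i g u ρ, Val D G i g → e0 D p i g + c + 4 * ρ ≤ u → u + c + 4 * ρ ≤ e1 D p G i g →
      ev (pt D p i g u) = colp D (aS D s0 i g) → aS D s0 i g = a → 1 ≤ ρ → 2 * ρ < L →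
      FlatL W Bb TT (TF (TA D p) (fmA D p s0) a) Wi Li (bA D p) o co (eps (sK i)) δ
        (gp (pt D p i g u)) (ρ + 1)) :
    RunsW W Bb TT (TF (TA D p) (fmA D p s0) a)
      ((TF (TA D p) (fmA D p s0) a).filter fun e => ∃ u, QS D p G s0 c i g u ∧ lab D p i g u = e)
      Wi Li (bA D p) o co L J := by
  by_cases hv : Val D G i g
  swap
  · have : (TF (TA D p) (fmA D p s0) a).filter (fun e => ∃ u, QS D p G s0 c i g u ∧
        lab D p i g u = e) = ∅ := by
      refine filter_eq_empty_iff.2 ?_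
      rintro e he ⟨u, hu, -⟩
      exact hv hu.1
    rw [this]
    exact RunsW.empty
  have dt := fun u (h : QS D p G s0 c i g u) => deep_tie (p := p) (s0 := s0) (t := u) hcut hG hF hl hv
    hn (by have := h.2.1; omega) (by have := h.2.2.1; omega) h.2.2.2
  have hfa : ∀ u, QS D p G s0 c i g u → lab D p i g u ∈ TF (TA D p) (fmA D p s0) a →
      aS D s0 i g = a := by
    intro u hu h
    rw [← (mem_TF.1 h).2, (mem_TF.1 (dt u hu).1).2]
  have hlen := seg_len (p := p) hG hv hh hw
  refine RunsW.of_prog (ε := eps (sK i)) (δ := δ) (prog_QS (i := i) (g := g))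
    (u0 := e0 D p i g + c) (u1 := e1 D p G i g - c)
    (match sK i with | .L => true | .R => false | .F => true | .C => false)
    (fun u => lab D p i g u) (fun u hu => ⟨hu.2.1, by have := hu.2.2.1; omega⟩) (by omega) ?_ ?_ ?_
  · intro u u' hu hu' h
    have := (dt u' hu').1
    rwa [hfa u hu h] at this
  · intro u t hu hu'
    rw [(dt _ hu).2, (dt _ hu').2]
    fin_cases i <;>
      (unfold gm sgb wpt gp pt sK eps
       simp only [Bool.false_eq_true, if_false, if_true, Prod.mk.injEq]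
       omega)
  · intro u ρ hu hT h1 h2 h3 h4
    rw [(dt _ hu).2]
    exact hflat i g u ρ hv h3 (by omega) hu.2.2.2 (hfa u hu hT) h1 h2

/-- **The ties of one family lie on few walls.** -/
theorem runsK_R {c a : ℤ} (hcut : colp D (s0 - 1) ≠ colp D s0) (hG : Lev D G)
    (hR : RCol D G ∨ NoR D p) (hF : Fat D n)
    (hl : Ldg D G n) (hc : 4 ≤ c) (hn : 4 ≤ n) (hL : 1 ≤ L) (hJ : 1 ≤ J)
    (hh : D.h ≤ 2 * (J * L)) (hw : D.w - D.lo ≤ 2 * (J * L))
    (hflat : ∀ i g u ρ, Val D G i g → e0 D p i g + c + 4 * ρ ≤ u → u + c + 4 * ρ ≤ e1 D p G i g →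
      ev (pt D p i g u) = colp D (aS D s0 i g) → aS D s0 i g = a → 1 ≤ ρ → 2 * ρ < L →
      FlatL W Bb TT (TF (TA D p) (fmA D p s0) a) Wi Li (bA D p) o co (eps (sK i)) δ
        (gp (pt D p i g u)) (ρ + 1)) :
    RunsK W Bb TT (TF (TA D p) (fmA D p s0) a) Wi Li (bA D p) o co L J
      (6 * G.card + 12 * c.toNat * G.card) := by
  classical
  set T := TF (TA D p) (fmA D p s0) a with hTd
  set S : Finset (Fin 6 × ℤ × ℤ × Bool) := univ ×ˢ (G ×ˢ (Ico 0 c ×ˢ univ)) with hS
  set F : Fin 6 × ℤ × ℤ × Bool → ℤ × ℤ := fun q => lab D p q.1 q.2.1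
    (if q.2.2.2 = true then e0 D p q.1 q.2.1 + q.2.2.1 else e1 D p G q.1 q.2.1 - q.2.2.1) with hF'
  set I : Finset (ℤ × ℤ) := T.filter fun e => ∃ q ∈ S, F q = e with hI
  have hcard : I.card ≤ 12 * c.toNat * G.card := by
    have h1 : I ⊆ S.image F := by
      intro e he
      obtain ⟨-, q, hq, rfl⟩ := mem_filter.1 he
      exact mem_image_of_mem _ hq
    refine (card_le_card h1).trans (card_image_le.trans (le_of_eq ?_))
    rw [hS, card_product, card_product, card_product, card_univ, Fintype.card_fin, Int.card_Ico,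
      card_univ, Fintype.card_bool, sub_zero]
    ring
  refine RunsK.of_walls (κ := Fin 6 × G)
    (A := fun q => T.filter fun e => ∃ u, QS D p G s0 c q.1 q.2 u ∧ lab D p q.1 q.2 u = e) (I := I)
    (filter_subset _ _) ?_ (fun q => seg_runs hcut hG hF hl hc hn hh hw hflat) hL hJ ?_
  · intro e he
    obtain ⟨u, v, s, c', rfl, hti⟩ := exists_tie (mem_TF.1 he).1
    obtain ⟨i, g, t, k1, k2, k3, k4, k5, k6⟩ := tie_cover hG hR hti
    by_cases c1 : e0 D p i g + c ≤ t
    · by_cases c2 : t + c ≤ e1 D p G i g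
      · refine Or.inl ⟨(i, ⟨g, k1.1⟩), mem_filter.2 ⟨he, t, ⟨k1, c1, c2, ?_⟩, k6.symm⟩⟩
        have hB := seg_box (p := p) (s0 := s0) (r := 4) hcut hG hF hl k1 hn (by omega : _ ≤ t)
          (by omega)
        have h3 := tl_near (s := s) (c := c') (pt D p i g t)
        rw [← k5, tl_bt] at h3
        simp only at h3
        have h4 := (hB.tie (s' := s) (c := c') (u := u) (v := v) (by
          rw [← k5]; unfold Sq; omega)).1 hti
        rw [← k5, ev_bt (t := (u, v)) hti.odd]
        exact h4.2.1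
      · refine Or.inr (mem_filter.2 ⟨he, (i, g, e1 D p G i g - t, false), ?_, ?_⟩)
        · exact mem_product.2 ⟨mem_univ _, mem_product.2 ⟨k1.1, mem_product.2
            ⟨Finset.mem_Ico.2 ⟨by simp only; omega, by simp only; omega⟩, mem_univ _⟩⟩⟩
        · simp only [hF', Bool.false_eq_true, if_false]
          rw [show e1 D p G i g - (e1 D p G i g - t) = t by ring, k6]
    · refine Or.inr (mem_filter.2 ⟨he, (i, g, t - e0 D p i g, true), ?_, ?_⟩)
      · exact mem_product.2 ⟨mem_univ _, mem_product.2 ⟨k1.1, mem_product.2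
          ⟨Finset.mem_Ico.2 ⟨by simp only; omega, by simp only; omega⟩, mem_univ _⟩⟩⟩
      · simp only [hF', if_true]
        rw [show e0 D p i g + (t - e0 D p i g) = t by ring, k6]
  · rw [Fintype.card_prod, Fintype.card_fin, Fintype.card_coe]
    omega

/-- **The number of families.** -/
theorem card_fam (hcut : colp D (s0 - 1) ≠ colp D s0) (hG : Lev D G) (hR : RCol D G ∨ NoR D p)
    (hF : Fat D n)
    (hl : Ldg D G n) (hn : 4 ≤ n) :
    ((TA D p).image (fmA D p s0)).card ≤ 6 * G.card + 48 * G.card := by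
  classical
  set S : Finset (Fin 6 × ℤ × ℤ × Bool) := univ ×ˢ (G ×ˢ (Ico 0 4 ×ˢ univ)) with hS
  set F : Fin 6 × ℤ × ℤ × Bool → ℤ × ℤ := fun q => lab D p q.1 q.2.1
    (if q.2.2.2 = true then e0 D p q.1 q.2.1 + q.2.2.1 else e1 D p G q.1 q.2.1 - q.2.2.1) with hF'
  have h1 : (TA D p).image (fmA D p s0) ⊆
      (((univ : Finset (Fin 6)) ×ˢ G).image fun t => aS D s0 t.1 t.2) ∪
      (S.image F).image (fmA D p s0) := by
    intro f hf
    obtain ⟨e, he, rfl⟩ := mem_image.1 hf
    obtain ⟨u, v, s, c', rfl, hti⟩ := exists_tie he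
    obtain ⟨i, g, t, k1, k2, k3, k4, k5, k6⟩ := tie_cover hG hR hti
    by_cases c1 : e0 D p i g + 4 ≤ t
    · by_cases c2 : t + 4 ≤ e1 D p G i g
      · refine mem_union_left _ (mem_image.2 ⟨(i, g), mem_product.2 ⟨mem_univ _, k1.1⟩, ?_⟩)
        have hB := seg_box (p := p) (s0 := s0) (r := 4) hcut hG hF hl k1 hn (by omega : _ ≤ t)
          (by omega)
        have h3 := tl_near (s := s) (c := c') (pt D p i g t)
        rw [← k5, tl_bt] at h3
        simp only at h3
        have h4 := (hB.tie (s' := s) (c := c') (u := u) (v := v) (by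
          rw [← k5]; unfold Sq; omega)).1 hti
        have h5 := (deep_tie (p := p) (s0 := s0) hcut hG hF hl k1 hn c1 c2 (by
          rw [← k5, ev_bt (t := (u, v)) hti.odd]; exact h4.2.1)).1
        rw [k6, (mem_TF.1 h5).2]
      · refine mem_union_right _ (mem_image_of_mem _ (mem_image.2
          ⟨(i, g, e1 D p G i g - t, false), ?_, ?_⟩))
        · exact mem_product.2 ⟨mem_univ _, mem_product.2 ⟨k1.1, mem_product.2
            ⟨Finset.mem_Ico.2 ⟨by simp only; omega, by simp only; omega⟩, mem_univ _⟩⟩⟩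
        · simp only [hF', Bool.false_eq_true, if_false]
          rw [show e1 D p G i g - (e1 D p G i g - t) = t by ring, k6]
    · refine mem_union_right _ (mem_image_of_mem _ (mem_image.2 ⟨(i, g, t - e0 D p i g, true), ?_, ?_⟩))
      · exact mem_product.2 ⟨mem_univ _, mem_product.2 ⟨k1.1, mem_product.2
          ⟨Finset.mem_Ico.2 ⟨by simp only; omega, by simp only; omega⟩, mem_univ _⟩⟩⟩
      · simp only [hF', if_true]
        rw [show e0 D p i g + (t - e0 D p i g) = t by ring, k6]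
  refine (card_le_card h1).trans ((card_union_le _ _).trans (add_le_add ?_ ?_))
  · refine card_image_le.trans (le_of_eq ?_)
    rw [card_product, card_univ, Fintype.card_fin]
  · refine card_image_le.trans (card_image_le.trans (le_of_eq ?_))
    rw [hS, card_product, card_product, card_product, card_univ, Fintype.card_fin, Int.card_Ico,
      card_univ, Fintype.card_bool, sub_zero]
    have : (4 : ℤ).toNat = 4 := rfl
    rw [this]
    ring

end Pool.Agent.H60.W.N
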